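import Pool.Agent.MP_12f186_an.Mg.PathL

/-! The linear orders induced by the paths. -/

set_option autoImplicit false
open MeasureTheory Set Filter Topology Function
open scoped ENNReal

namespace Pool.Agent.MP_12f186_an

variable {Y : Type} [MeasurableSpace Y] {m : Measure Y} {A : Act Y m}

/-- Integer positions along the path. -/
theorem Path.exists_pos (P : Path A) {y : Y} (hy : y ∈ A.G) :
    ∃ pos : Z2 → ℤ, Injective pos ∧ ∀ w, pos (P.nx y w) = pos w + 1 := by
  let e : Equiv.Perm Z2 := Equiv.ofBijective _ (P.bij y hy)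
  have he : ∀ (n : ℕ) (w : Z2), (e ^ n) w = (P.nx y)^[n] w := fun n w => by
    rw [Equiv.Perm.coe_pow]; rfl
  have hinj : Injective fun k : ℤ => (e ^ k) 0 := by
    intro a b hab
    simp only [] at hab
    wlog hle : a ≤ b generalizing a b
    · exact (this hab.symm (by omega)).symm
    obtain ⟨n, rfl⟩ : ∃ n : ℕ, b = a + n := ⟨(b - a).toNat, by omega⟩
    rw [zpow_add, Equiv.Perm.mul_apply, zpow_natCast, he] at hab
    have h := (e ^ a).injective hab
    have := P.iter_inj hy 0 (a₁ := 0) (a₂ := n) h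
    omega
  have hsurj : Surjective fun k : ℤ => (e ^ k) 0 := by
    intro w
    obtain ⟨n, h | h⟩ := P.conn y hy 0 w
    · exact ⟨n, by simp only [zpow_natCast, he, h]⟩
    · refine ⟨-n, ?_⟩
      simp only [zpow_neg, zpow_natCast]
      rw [Equiv.Perm.inv_eq_iff_eq, he, h]
  let E : ℤ ≃ Z2 := Equiv.ofBijective _ ⟨hinj, hsurj⟩
  refine ⟨E.symm, E.symm.injective, fun w => ?_⟩
  obtain ⟨k, rfl⟩ := E.surjective w
  rw [E.symm_apply_apply, Equiv.symm_apply_eq]
  change P.nx y ((e ^ k) 0) = (e ^ (k + 1)) 0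
  rw [add_comm, zpow_add, zpow_one, Equiv.Perm.mul_apply]
  rfl

theorem pos_iter {f : Z2 → Z2} {pos : Z2 → ℤ} (h : ∀ w, pos (f w) = pos w + 1) (n : ℕ) (w : Z2) :
    pos (f^[n] w) = pos w + n := by
  induction n with
  | zero => simp
  | succ n ih => rw [iterate_succ_apply', h, ih]; push_cast; ring

theorem iter_of_pos {f : Z2 → Z2} {pos : Z2 → ℤ} (hi : Injective pos)
    (h : ∀ w, pos (f w) = pos w + 1) {v w : Z2} (hle : pos v ≤ pos w) :
    f^[(pos w - pos v).toNat] v = w := by
  apply hi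
  rw [pos_iter h]
  omega

theorem Path.bef_iff (P : Path A) {y : Y} {pos : Z2 → ℤ} (hi : Injective pos)
    (h : ∀ w, pos (P.nx y w) = pos w + 1) (v w : Z2) : P.bef y v w ↔ pos v < pos w := by
  constructor
  · rintro ⟨n, hn, rfl⟩
    rw [pos_iter h]
    omega
  · intro hlt
    exact ⟨(pos w - pos v).toNat, by omega, iter_of_pos hi h hlt.le⟩

theorem Path.small_iter (P : Path A) {y : Y} (hy : y ∈ A.G) (w : Z2) (n : ℕ) :
    Small n ((P.nx y)^[n] w - w) := by
  induction n with
  | zero => simp [Small]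
  | succ n ih =>
    have h := P.nx_step hy ((P.nx y)^[n] w)
    rw [iterate_succ_apply']
    simp only [Small, Prod.fst_sub, Prod.snd_sub, abs_le] at h ih ⊢
    push_cast
    omega

theorem Path.small_of_pos (P : Path A) {y : Y} (hy : y ∈ A.G) {pos : Z2 → ℤ} (hi : Injective pos)
    (h : ∀ w, pos (P.nx y w) = pos w + 1) {v : Z2} {D : ℤ} (hD : |pos v - pos 0| ≤ D) :
    Small D v := by
  rw [abs_le] at hD
  rcases le_total (pos v) (pos 0) with hle | hle
  · have h1 := P.small_iter hy v (pos 0 - pos v).toNat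
    rw [iter_of_pos hi h hle] at h1
    simp only [Small, Prod.fst_sub, Prod.snd_sub, abs_le, Prod.fst_zero, Prod.snd_zero] at h1 ⊢
    omega
  · have h1 := P.small_iter hy 0 (pos v - pos 0).toNat
    rw [iter_of_pos hi h hle] at h1
    simp only [Small, Prod.fst_sub, Prod.snd_sub, abs_le, Prod.fst_zero, Prod.snd_zero] at h1 ⊢
    omega

theorem Path.bef_shift (P : Path A) {y : Y} (hy : y ∈ A.G) (v a b : Z2) :
    P.bef (A.σ v y) a b ↔ P.bef y (a + v) (b + v) := by
  simp only [Path.bef, P.iter_shift hy, sub_eq_iff_eq_add]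

theorem Act.free' (A : Act Y m) {y : Y} (hy : y ∈ A.G) {a b : Z2} (h : A.σ a y = A.σ b y) :
    a = b := by
  have h1 : A.σ (b + -a) y = y := by
    rw [← A.add b (-a) y hy, ← h, A.add a (-a) y hy, add_neg_cancel, A.zero y hy]
  have := A.free _ y hy h1
  exact (add_neg_eq_zero.1 this).symm

/-- A path is not invariant under a translation. -/
theorem Path.not_periodic (P : Path A) {y : Y} (hy : y ∈ A.G) {v : Z2}
    (hv : ∀ w, P.nx y (w + v) = P.nx y w + v) : v = 0 := by
  obtain ⟨pos, hi, h⟩ := P.exists_pos hy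
  by_contra hv0
  have hit : ∀ (n : ℕ) (w : Z2), (P.nx y)^[n] (w + v) = (P.nx y)^[n] w + v := by
    intro n w
    induction n with
    | zero => rfl
    | succ n ih => rw [iterate_succ_apply', iterate_succ_apply', ih, hv]
  set c := pos v - pos 0 with hc
  have hconst : ∀ w, pos (w + v) = pos w + c := by
    intro w
    obtain ⟨n, h1 | h1⟩ := P.conn y hy 0 w
    · have h2 := pos_iter h n (0 + v)
      have h3 := pos_iter h n 0
      rw [hit, h1, zero_add] at h2
      rw [h1] at h3
      omega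
    · have h2 := pos_iter h n (w + v)
      have h3 := pos_iter h n w
      rw [hit, h1, zero_add] at h2
      rw [h1] at h3
      omega
  have hc0 : c ≠ 0 := fun h0 => hv0 (hi (by omega))
  have hmul : ∀ (k : ℤ) (w : Z2), pos (w + k • v) = pos w + k * c := by
    intro k w
    induction k using Int.induction_on with
    | zero => simp
    | succ k ih => rw [add_smul, one_smul, ← add_assoc, hconst, ih]; ring
    | pred k ih =>
      have := hconst (w + (-(k : ℤ) - 1) • v)
      rw [add_assoc, ← add_one_zsmul, sub_add_cancel, ih] at this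
      linarith
  have : NeZero c.natAbs := ⟨Int.natAbs_ne_zero.2 hc0⟩
  obtain ⟨j, j', hjj, hEq⟩ := Finite.exists_ne_map_eq_of_infinite
    (fun j : ℤ => ((pos (j • ((-v.2, v.1) : Z2)) : ℤ) : ZMod c.natAbs))
  rw [ZMod.intCast_eq_intCast_iff_dvd_sub, Int.natCast_natAbs, abs_dvd] at hEq
  obtain ⟨k, hk⟩ := hEq
  have h1 : j • ((-v.2, v.1) : Z2) + k • v = j' • ((-v.2, v.1) : Z2) := by
    apply hi
    rw [hmul]
    linarith
  have h2 := congrArg Prod.fst h1
  have h3 := congrArg Prod.snd h1
  simp only [Prod.fst_add, Prod.snd_add, Prod.smul_fst, Prod.smul_snd, smul_eq_mul] at h2 h3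
  have h4 : (j - j') * (v.1 ^ 2 + v.2 ^ 2) = 0 := by
    linear_combination v.1 * h3 - v.2 * h2
  rcases mul_eq_zero.1 h4 with h5 | h5
  · exact hjj (by omega)
  · apply hv0
    have a1 : v.1 = 0 := by nlinarith [sq_nonneg v.1, sq_nonneg v.2]
    have a2 : v.2 = 0 := by nlinarith [sq_nonneg v.1, sq_nonneg v.2]
    exact Prod.ext a1 a2

theorem Path.nx_free (P : Path A) {y : Y} (hy : y ∈ A.G) {a b : Z2}
    (h : P.nx (A.σ a y) = P.nx (A.σ b y)) : a = b := by
  rw [P.equiv y hy, P.equiv y hy] at h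
  have : a - b = 0 := by
    refine P.not_periodic hy fun w => ?_
    have h1 := congrFun h (w - b)
    simp only [sub_add_cancel] at h1
    have h2 : w - b + a = w + (a - b) := by abel
    rw [h2] at h1
    rw [sub_eq_iff_eq_add.1 h1]
    abel
  exact sub_eq_zero.1 this

theorem finite_small (D : ℤ) : {v : Z2 | Small D v}.Finite := by
  refine ((finite_Icc (-D) D).prod (finite_Icc (-D) D)).subset ?_
  rintro v ⟨h1, h2⟩
  exact ⟨abs_le.1 h1, abs_le.1 h2⟩

/-- A conjugacy in the full group makes the two orders agree on far apart points. -/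
theorem agree [IsProbabilityMeasure m] {P P' : Path A} (C : Conj P P')
    (h : ∀ᵐ y ∂m, ∃ d : Z2, C.S y = A.σ d y) :
    Tendsto (fun v : Z2 => m {y | ¬ (P.bef y 0 v ↔ P'.bef y 0 v)}) cofinite (𝓝 0) := by
  let E : ℕ → Set Y := fun R => {y | ∃ d : Z2, P.nx (C.S y) = P.nx (A.σ d y) ∧
    ∃ n : ℕ, n ≤ R ∧ ((P'.nx y)^[n] 0 = d ∨ (P'.nx y)^[n] d = 0)}
  have hEm : ∀ R, MeasurableSet (E R) := by
    intro R
    have : E R = ⋃ d : Z2, (⋂ w : Z2, {y | P.nx (C.S y) w = P.nx (A.σ d y) w}) ∩
        ⋃ n : ℕ, ⋃ _ : n ≤ R, ((fun y => (P'.nx y)^[n] 0) ⁻¹' {d} ∪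
          (fun y => (P'.nx y)^[n] d) ⁻¹' {0}) := by
      ext y
      simp only [E, mem_ofPred_eq, mem_iUnion, mem_inter_iff, mem_iInter, mem_union, mem_preimage,
        mem_singleton_iff, exists_prop, funext_iff]
    rw [this]
    refine MeasurableSet.iUnion fun d => MeasurableSet.inter (MeasurableSet.iInter fun w => ?_)
      (MeasurableSet.iUnion fun n => MeasurableSet.iUnion fun _ => MeasurableSet.union
        (P'.measurable_iter _ n (measurableSet_singleton _))
        (P'.measurable_iter _ n (measurableSet_singleton _)))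
    exact measurableSet_eq_fun ((measurable_pi_apply w).comp (P.meas.comp C.mpS.measurable))
      ((measurable_pi_apply w).comp (P.meas.comp (A.mp d).measurable))
  have hanti : Antitone fun R => (E R)ᶜ := by
    intro R R' hR
    apply compl_subset_compl.2
    rintro y ⟨d, h1, n, hn, h2⟩
    exact ⟨d, h1, n, hn.trans hR, h2⟩
  have hlim : Tendsto (fun R => m (E R)ᶜ) atTop (𝓝 0) := by
    have h1 := tendsto_measure_iInter_atTop (μ := m)
      (fun R => (hEm R).compl.nullMeasurableSet) hanti ⟨0, measure_ne_top _ _⟩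
    have h2 : m (⋂ R, (E R)ᶜ) = 0 := by
      rw [measure_eq_zero_iff_ae_notMem]
      filter_upwards [h, A.aeG] with y ⟨d, hd⟩ hy
      obtain ⟨n, hn⟩ := P'.conn y hy 0 d
      intro hmem
      exact mem_iInter.1 hmem n ⟨d, by rw [hd], n, le_rfl, hn⟩
    rw [h2] at h1
    exact h1
  have hnice : ∀ᵐ y ∂m, y ∈ A.G ∧ (∃ d : Z2, C.S y = A.σ d y) ∧
      ∀ t : ℕ, C.S (P.T^[t] y) = P'.T^[t] (C.S y) := by
    filter_upwards [h, A.aeG, C.comm_iter] with y h1 h2 h3 using ⟨h2, h1, h3⟩
  have main : ∀ (R : ℕ) (v : Z2), ¬ Small (2 * R) v →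
      m {y | ¬ (P.bef y 0 v ↔ P'.bef y 0 v)} ≤ m (E R)ᶜ + m (E R)ᶜ := by
    intro R v hv
    have hle : m {y | ¬ (P.bef y 0 v ↔ P'.bef y 0 v)} ≤ m ((E R)ᶜ ∪ A.σ v ⁻¹' (E R)ᶜ) := by
      apply measure_mono_ae
      filter_upwards [hnice, (A.mp v).quasiMeasurePreserving.ae hnice] with y
        ⟨hy, ⟨d, hd⟩, hc⟩ ⟨hz, ⟨d', hd'⟩, hc'⟩ hne
      by_contra hcon
      have hcon : ¬ (y ∈ (E R)ᶜ ∨ A.σ v y ∈ (E R)ᶜ) := hcon
      simp only [mem_compl_iff, not_or, not_not] at hcon
      obtain ⟨⟨e, he, n, hn, hne1⟩, ⟨e', he', n', hn', hne2⟩⟩ := hcon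
      rw [hd] at he
      obtain rfl := P.nx_free hy he
      rw [hd'] at he'
      obtain rfl := P.nx_free hz he'
      obtain ⟨pos, hi, hp⟩ := P'.exists_pos hy
      obtain ⟨q, hqi, hq⟩ := P.exists_pos hy
      have b1 : |pos d - pos 0| ≤ R := by
        rw [abs_le]
        rcases hne1 with h1 | h1
        · have := pos_iter hp n 0
          rw [h1] at this
          omega
        · have := pos_iter hp n d
          rw [h1] at this
          omega
      have b2 : |pos (d' + v) - pos v| ≤ R := by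
        rw [abs_le]
        rw [P'.iter_shift hy, P'.iter_shift hy, sub_eq_iff_eq_add, sub_eq_iff_eq_add,
          zero_add] at hne2
        rcases hne2 with h1 | h1
        · have := pos_iter hp n' v
          rw [h1] at this
          omega
        · have := pos_iter hp n' (d' + v)
          rw [h1] at this
          omega
      have c1 : P.bef y 0 v → pos d < pos (d' + v) := by
        rintro ⟨k, hk, hkv⟩
        have h1 := hc k
        rw [P.T_iter hy, Path.p, hkv, hd', hd, P'.T_iter (A.mapsG _ _ hy), A.add _ _ y hy,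
          A.add _ _ y hy, Path.p, P'.iter_shift hy, zero_add] at h1
        have h2 := A.free' hy h1
        have h3 := pos_iter hp k d
        rw [add_sub_cancel, add_comm] at h2
        rw [← h2] at h3
        omega
      have c2 : P.bef y v 0 → pos (d' + v) < pos d := by
        rintro ⟨k, hk, hkv⟩
        have h1 := hc' k
        rw [P.T_iter hz, Path.p, P.iter_shift hy, zero_add, hkv, A.add _ _ y hy, add_sub_cancel,
          A.zero y hy, hd, hd', A.add _ _ y hy, P'.T_iter (A.mapsG _ _ hy), A.add _ _ y hy,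
          Path.p, P'.iter_shift hy, zero_add] at h1
        have h2 := A.free' hy h1
        have h3 := pos_iter hp k (v + d')
        rw [add_sub_cancel] at h2
        rw [← h2, add_comm v d'] at h3
        omega
      apply hv
      apply P'.small_of_pos hy hi hp
      have hne : ¬ (P.bef y 0 v ↔ P'.bef y 0 v) := hne
      rw [P'.bef_iff hi hp] at hne
      rw [abs_le] at b1 b2 ⊢
      by_cases hb : P.bef y 0 v
      · have := c1 hb
        have : ¬ pos 0 < pos v := fun h0 => hne ⟨fun _ => h0, fun _ => hb⟩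
        omega
      · have h0 : pos 0 < pos v := by
          by_contra h0
          exact hne ⟨fun h1 => absurd h1 hb, fun h1 => absurd h1 h0⟩
        have hv0 : q v ≠ q 0 := fun h1 => by rw [hqi h1] at h0; omega
        have hb' : P.bef y v 0 := by
          rw [P.bef_iff hqi hq] at hb ⊢
          omega
        have := c2 hb'
        omega
    refine hle.trans ((measure_union_le _ _).trans ?_)
    rw [(A.mp v).measure_preimage (hEm R).compl.nullMeasurableSet]
  rw [ENNReal.tendsto_nhds_zero]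
  intro ε hε
  have hlim2 : Tendsto (fun R => m (E R)ᶜ + m (E R)ᶜ) atTop (𝓝 0) := by
    simpa using hlim.add hlim
  obtain ⟨R, hR⟩ := (ENNReal.tendsto_nhds_zero.1 hlim2 ε hε).exists
  filter_upwards [(finite_small (2 * R)).compl_mem_cofinite] with v hv
  exact (main R v hv).trans hR

/-- The combinatorial core: a sign pattern has a sum with infinitely many positive splittings. -/
theorem exists_infinite_split {Pos : Z2 → Prop} (L : ℤ) (hL : 0 < L)
    (h : ∀ v : Z2, ¬ Small (L - 1) v → Pos v ∨ Pos (-v)) :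
    ∃ u : Z2, {v | Pos v ∧ Pos (u - v)}.Infinite := by
  by_contra hcon
  push Not at hcon
  obtain ⟨M, hM⟩ := (((hcon (L, 0)).union (hcon (-L, 0))).image fun v : Z2 => |v.2|).bddAbove
  set b : ℤ := |M| + L with hb
  have hbL : L ≤ b := by have := abs_nonneg M; omega
  have hnot : ∀ v : Z2, v.2 = b → ¬ (Pos v ∧ Pos ((L, 0) - v)) ∧ ¬ (Pos v ∧ Pos ((-L, 0) - v)) := by
    intro v hv
    have hlt : ¬ |v.2| ≤ M := by
      have := le_abs_self M
      have := le_abs_self v.2
      omega
    exact ⟨fun h1 => hlt (hM ⟨v, Or.inl h1, rfl⟩), fun h1 => hlt (hM ⟨v, Or.inr h1, rfl⟩)⟩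
  have hrow : ∀ i : ℤ, Pos (i * L, b) ∨ Pos (-(i * L, b)) := fun i => h _ (by
    rintro ⟨-, h2⟩
    have := le_abs_self b
    simp only [] at h2
    omega)
  have hstep : ∀ i : ℤ, Pos (i * L, b) ↔ Pos ((i + 1) * L, b) := by
    intro i
    constructor
    · intro h1
      rcases hrow (i + 1) with h2 | h2
      · exact h2
      · refine absurd ⟨h1, ?_⟩ (hnot (i * L, b) rfl).2
        convert h2 using 1
        ext <;> simp
        ring
    · intro h1
      rcases hrow i with h2 | h2
      · exact h2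
      · refine absurd ⟨h1, ?_⟩ (hnot ((i + 1) * L, b) rfl).1
        convert h2 using 1
        ext <;> simp
        ring
  have hall : ∀ i : ℤ, Pos (i * L, b) ↔ Pos (0 * L, b) := by
    intro i
    induction i using Int.induction_on with
    | zero => rfl
    | succ i ih => rw [← hstep, ih]
    | pred i ih => rw [hstep, sub_add_cancel, ih]
  have hax : ∀ n : ℕ, ∃ i : ℤ, |i| = n + 1 ∧ Pos (i * L, 0) := by
    intro n
    have h1 := h ((n + 1 : ℤ) * L, 0) (by
      rintro ⟨h2, -⟩
      have := le_abs_self ((n + 1 : ℤ) * L)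
      simp only [] at h2
      nlinarith)
    rcases h1 with h1 | h1
    · exact ⟨n + 1, abs_of_nonneg (by positivity), h1⟩
    · refine ⟨-(n + 1), by rw [abs_neg]; exact abs_of_nonneg (by positivity), ?_⟩
      convert h1 using 1
      ext <;> simp
      ring
  choose i hi hpos using hax
  have hinj : Injective fun n : ℕ => ((i n * L, 0) : Z2) := by
    intro n n' hn
    have h1 : i n * L = i n' * L := congrArg Prod.fst hn
    have h2 := mul_right_cancel₀ hL.ne' h1
    have h3 := hi n
    rw [h2, hi n'] at h3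
    omega
  by_cases h0 : Pos (0 * L, b)
  · refine infinite_of_injective_forall_mem hinj (s := {v | Pos v ∧ Pos ((0, b) - v)})
      (fun n => ⟨hpos n, ?_⟩) (hcon _)
    convert (hall (-i n)).2 h0 using 1
    ext <;> simp
  · refine infinite_of_injective_forall_mem hinj (s := {v | Pos v ∧ Pos ((0, -b) - v)})
      (fun n => ⟨hpos n, ?_⟩) (hcon _)
    convert (hrow (i n)).resolve_left fun h1 => h0 ((hall _).1 h1) using 1
    ext <;> simp

/-- The order of a path is not asymptotically deterministic. -/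
theorem order_final [IsProbabilityMeasure m] (P : Path A) :
    ¬ ∀ᶠ v : Z2 in cofinite,
      m {y | P.bef y 0 v} ≤ 1 / 10 ∨ m {y | P.bef y 0 v}ᶜ ≤ 1 / 10 := by
  intro hev
  have hfin := eventually_cofinite.1 hev
  obtain ⟨M1, hM1⟩ := (hfin.image fun v : Z2 => |v.1|).bddAbove
  obtain ⟨M2, hM2⟩ := (hfin.image fun v : Z2 => |v.2|).bddAbove
  obtain ⟨u, hu⟩ := exists_infinite_split (Pos := fun v => m {y | P.bef y 0 v}ᶜ ≤ 1 / 10)
    (|M1| + |M2| + 1) (by positivity) (by
      intro v hv
      have a1 := abs_nonneg M1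
      have a2 := abs_nonneg M2
      have a3 := le_abs_self M1
      have a4 := le_abs_self M2
      have hv0 : v ≠ 0 := by
        rintro rfl
        exact hv ⟨by simp only [Prod.fst_zero, abs_zero]; omega,
          by simp only [Prod.snd_zero, abs_zero]; omega⟩
      have h1 : m {y | P.bef y 0 v} ≤ 1 / 10 ∨ m {y | P.bef y 0 v}ᶜ ≤ 1 / 10 := by
        by_contra h1
        have b1 : |v.1| ≤ M1 := hM1 ⟨v, h1, rfl⟩
        have b2 : |v.2| ≤ M2 := hM2 ⟨v, h1, rfl⟩
        exact hv ⟨by omega, by omega⟩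
      rcases h1 with h1 | h1
      · right
        rw [← (A.mp v).measure_preimage (P.measurableSet_bef 0 (-v)).compl.nullMeasurableSet]
        refine le_trans (measure_mono_ae ?_) h1
        filter_upwards [A.aeG] with y hy hb
        have hb : ¬ P.bef (A.σ v y) 0 (-v) := hb
        obtain ⟨q, hqi, hq⟩ := P.exists_pos hy
        rw [P.bef_shift hy, zero_add, neg_add_cancel, P.bef_iff hqi hq] at hb
        change P.bef y 0 v
        rw [P.bef_iff hqi hq]
        have : q v ≠ q 0 := fun h2 => hv0 (hqi h2)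
        omega
      · exact Or.inl h1)
  let f : ℕ ↪ Z2 := (hu.natEmbedding _).trans (Embedding.subtype _)
  have hf : ∀ n, m {y | P.bef y 0 (f n)}ᶜ ≤ 1 / 10 ∧ m {y | P.bef y 0 (u - f n)}ᶜ ≤ 1 / 10 :=
    fun n => (hu.natEmbedding _ n).2
  let B : ℕ → Set Y := fun n => ⋃ k : ℕ, ⋃ _ : n ≤ k,
    {y | P.bef y 0 (f k)} ∩ {y | P.bef y (f k) u}
  have hBm : ∀ n, MeasurableSet (B n) := fun n =>
    MeasurableSet.iUnion fun k => MeasurableSet.iUnion fun _ =>
      (P.measurableSet_bef _ _).inter (P.measurableSet_bef _ _)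
  have hanti : Antitone B := by
    intro n n' hn y hy
    simp only [B, mem_iUnion] at hy ⊢
    obtain ⟨k, hk, hy⟩ := hy
    exact ⟨k, hn.trans hk, hy⟩
  have h1 := tendsto_measure_iInter_atTop (μ := m)
    (fun n => (hBm n).nullMeasurableSet) hanti ⟨0, measure_ne_top _ _⟩
  have h2 : m (⋂ n, B n) = 0 := by
    rw [measure_eq_zero_iff_ae_notMem]
    filter_upwards [A.aeG] with y hy hmem
    obtain ⟨q, hqi, hq⟩ := P.exists_pos hy
    have hfin : {k : ℕ | q (f k) ∈ Ioo (q 0) (q u)}.Finite :=
      (finite_Ioo (q 0) (q u)).preimage (hqi.comp f.injective).injOn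
    obtain ⟨N, hN⟩ := hfin.bddAbove
    have := mem_iInter.1 hmem (N + 1)
    simp only [B, mem_iUnion, mem_inter_iff, mem_ofPred_eq, P.bef_iff hqi hq] at this
    obtain ⟨k, hk, hy⟩ := this
    have := hN (show k ∈ {k : ℕ | q (f k) ∈ Ioo (q 0) (q u)} from hy)
    omega
  rw [h2] at h1
  obtain ⟨n, hn⟩ := (ENNReal.tendsto_nhds_zero.1 h1 (1 / 10) (by simp)).exists
  have hn : m (B n) ≤ 1 / 10 := hn
  have h3 : m univ ≤ m (B n ∪ ({y | P.bef y 0 (f n)}ᶜ ∪
      A.σ (f n) ⁻¹' {y | P.bef y 0 (u - f n)}ᶜ)) := by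
    apply measure_mono_ae
    filter_upwards [A.aeG] with y hy _
    by_cases c1 : P.bef y 0 (f n)
    · by_cases c2 : P.bef (A.σ (f n) y) 0 (u - f n)
      · left
        rw [P.bef_shift hy, zero_add, sub_add_cancel] at c2
        simp only [B, mem_iUnion]
        exact ⟨n, le_rfl, c1, c2⟩
      · exact Or.inr (Or.inr c2)
    · exact Or.inr (Or.inl c1)
  have h4 : m univ ≤ 1 / 10 + (1 / 10 + 1 / 10) := by
    refine h3.trans ((measure_union_le _ _).trans (add_le_add hn
      ((measure_union_le _ _).trans (add_le_add (hf n).1 ?_))))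
    rw [(A.mp _).measure_preimage (P.measurableSet_bef _ _).compl.nullMeasurableSet]
    exact (hf n).2
  rw [measure_univ] at h4
  have h5 : (1 / 10 + (1 / 10 + 1 / 10) : ℝ≥0∞) < 1 := by
    rw [← ENNReal.add_div, ← ENNReal.add_div, ENNReal.div_lt_iff (by simp) (by simp)]
    norm_num
  exact absurd h4 (not_le.2 h5)

end Pool.Agent.MP_12f186_an
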