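import Mathlib

-- part MP_12f186_an.Abs
section

/-! Abstract measure-preserving free actions of the plane lattice and path systems on them. -/

set_option autoImplicit false
open MeasureTheory Set Filter Topology Function

namespace Pool.Agent.MP_12f186_an

abbrev Z2 := ℤ × ℤ

/-- A measure preserving action of the lattice, honest and free on an invariant conull set. -/
structure Act (Y : Type) [MeasurableSpace Y] (m : Measure Y) where
  σ : Z2 → Y → Y
  G : Set Y
  mp : ∀ v, MeasurePreserving (σ v) m m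
  measG : MeasurableSet G
  aeG : ∀ᵐ y ∂m, y ∈ G
  mapsG : ∀ v y, y ∈ G → σ v y ∈ G
  zero : ∀ y ∈ G, σ 0 y = y
  add : ∀ v w, ∀ y ∈ G, σ w (σ v y) = σ (v + w) y
  free : ∀ v, ∀ y ∈ G, σ v y = y → v = 0

variable {Y : Type} [MeasurableSpace Y] {m : Measure Y}

/-- Ergodicity, for sets invariant almost everywhere. -/
def Act.Erg (A : Act Y m) : Prop :=
  ∀ E : Set Y, MeasurableSet E → (∀ v, ∀ᵐ y ∂m, (A.σ v y ∈ E ↔ y ∈ E)) → m E = 0 ∨ m E = 1

/-- An equivariant choice of a directed Hamiltonian path (successor map). -/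
structure Path (A : Act Y m) where
  nx : Y → Z2 → Z2
  meas : Measurable nx
  equiv : ∀ y ∈ A.G, ∀ v, nx (A.σ v y) = fun w => nx y (w + v) - v
  bij : ∀ y ∈ A.G, Bijective (nx y)
  step : ∀ y ∈ A.G, ∀ w, nx y w - w ∈ ({(1, 0), (-1, 0), (0, 1), (0, -1)} : Set Z2)
  conn : ∀ y ∈ A.G, ∀ v w, ∃ n : ℕ, (nx y)^[n] v = w ∨ (nx y)^[n] w = v

variable {A : Act Y m}

/-- One step along the path. -/
def Path.T (P : Path A) (y : Y) : Y := A.σ (P.nx y 0) y

/-- Position after `t` steps. -/
def Path.p (P : Path A) (y : Y) (t : ℕ) : Z2 := (P.nx y)^[t] 0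

/-- `v` is visited strictly before `w`. -/
def Path.bef (P : Path A) (y : Y) (v w : Z2) : Prop := ∃ n : ℕ, 0 < n ∧ (P.nx y)^[n] v = w

/-- A conjugacy (with a measurable left inverse) between the two step maps. -/
structure Conj (P P' : Path A) where
  S : Y → Y
  R : Y → Y
  mpS : MeasurePreserving S m m
  measR : Measurable R
  left : ∀ᵐ y ∂m, R (S y) = y
  comm : ∀ᵐ y ∂m, S (P.T y) = P'.T (S y)

/-- Sup-norm bound on a lattice vector. -/
def Small (D : ℤ) (v : Z2) : Prop := |v.1| ≤ D ∧ |v.2| ≤ D

end Pool.Agent.MP_12f186_an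

end

-- part MP_12f186_an.PathL
section

/-! Basic facts on path systems. -/

set_option autoImplicit false
open MeasureTheory Set Filter Topology Function
open scoped ENNReal

namespace Pool.Agent.MP_12f186_an

variable {Y : Type} [MeasurableSpace Y] {m : Measure Y} {A : Act Y m}

theorem Path.iter_shift (P : Path A) {y : Y} (hy : y ∈ A.G) (v w : Z2) (t : ℕ) :
    (P.nx (A.σ v y))^[t] w = (P.nx y)^[t] (w + v) - v := by
  induction t with
  | zero => simp
  | succ t ih =>
    rw [iterate_succ_apply', iterate_succ_apply', ih, P.equiv y hy v]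
    simp

theorem Path.T_mem (P : Path A) {y : Y} (hy : y ∈ A.G) (t : ℕ) : P.T^[t] y ∈ A.G := by
  induction t with
  | zero => simpa using hy
  | succ t ih =>
    rw [iterate_succ_apply']
    exact A.mapsG _ _ ih

theorem Path.T_iter (P : Path A) {y : Y} (hy : y ∈ A.G) (t : ℕ) :
    P.T^[t] y = A.σ (P.p y t) y := by
  induction t with
  | zero => simp [Path.p, A.zero y hy]
  | succ t ih =>
    rw [iterate_succ_apply', ih, Path.T, A.add _ _ y hy, P.equiv y hy]
    simp [Path.p, iterate_succ_apply']

theorem Path.p_zero (P : Path A) (y : Y) : P.p y 0 = 0 := rfl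

theorem Path.nx_step (P : Path A) {y : Y} (hy : y ∈ A.G) (w : Z2) :
    Small 1 (P.nx y w - w) := by
  have h := P.step y hy w
  simp only [mem_insert_iff, mem_singleton_iff] at h
  rcases h with h | h | h | h <;> rw [h] <;> simp [Small]

theorem Path.p_step (P : Path A) {y : Y} (hy : y ∈ A.G) (t : ℕ) :
    Small 1 (P.p y (t + 1) - P.p y t) := by
  have := P.nx_step hy (P.p y t)
  simpa [Path.p, iterate_succ_apply'] using this

theorem Path.iter_inj (P : Path A) {y : Y} (hy : y ∈ A.G) (v : Z2) :
    Injective fun t : ℕ => (P.nx y)^[t] v := by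
  have hinj : Injective (P.nx y) := (P.bij y hy).1
  have key : ∀ q : ℕ, 0 < q → (P.nx y)^[q] v ≠ v := by
    intro q hq hper
    have hp : IsPeriodicPt (P.nx y) q v := hper
    have hfin : (range fun n : ℕ => (P.nx y)^[n] v).Finite := by
      refine ((finite_Iio q).image fun n : ℕ => (P.nx y)^[n] v).subset ?_
      rintro _ ⟨n, rfl⟩
      exact ⟨n % q, Nat.mod_lt _ hq, hp.iterate_mod_apply n⟩
    refine infinite_univ (α := Z2) (hfin.subset fun w _ => ?_)
    obtain ⟨n, h | h⟩ := P.conn y hy v w
    · exact ⟨n, h⟩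
    · refine ⟨n * (q - 1), hinj.iterate n ?_⟩
      have h1 : n + n * (q - 1) = q * n := by
        obtain ⟨k, rfl⟩ : ∃ k, q = k + 1 := ⟨q - 1, by omega⟩
        simp only [Nat.add_sub_cancel]; ring
      simp only []
      rw [← iterate_add_apply, h1, h]
      exact (hp.mul_const n).eq
  intro a b hab
  simp only [] at hab
  by_contra hne
  wlog hlt : a < b generalizing a b
  · exact this hab.symm (Ne.symm hne) (by omega)
  obtain ⟨q, rfl⟩ : ∃ q, b = a + q := ⟨b - a, by omega⟩
  rw [iterate_add_apply] at hab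
  exact key q (by omega) (hinj.iterate a hab).symm

theorem Path.p_inj (P : Path A) {y : Y} (hy : y ∈ A.G) : Injective (P.p y) :=
  P.iter_inj hy 0

theorem Act.measurable_comp (A : Act Y m) {d : Y → Z2} (hd : Measurable d) :
    Measurable fun y => A.σ (d y) y := by
  have h : Measurable fun p : Y × Z2 => A.σ p.2 p.1 :=
    measurable_from_prod_countable_left fun v => (A.mp v).measurable
  exact h.comp (measurable_id.prodMk hd)

theorem Path.measurable_T (P : Path A) : Measurable P.T :=
  A.measurable_comp ((measurable_pi_apply 0).comp P.meas)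

theorem Path.T_mp (P : Path A) : MeasurePreserving P.T m m := by
  refine ⟨P.measurable_T, Measure.ext fun B hB => ?_⟩
  rw [Measure.map_apply P.measurable_T hB]
  have hm : ∀ a b : Z2, MeasurableSet {y | P.nx y a = b} := fun a b =>
    ((measurable_pi_apply a).comp P.meas) (measurableSet_singleton b)
  have h1 : P.T ⁻¹' B = ⋃ e : Z2, {y | P.nx y 0 = e} ∩ A.σ e ⁻¹' B := by
    ext y
    simp [Path.T]
  have h2 : m B = m (⋃ e : Z2, {y | P.nx y (-e) = 0} ∩ (B ∩ A.G)) := by
    apply measure_congr
    filter_upwards [A.aeG] with y hy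
    obtain ⟨w, hw⟩ := (P.bij y hy).2 0
    apply propext
    constructor
    · intro h
      exact mem_iUnion.2 ⟨-w, by simpa using hw, h, hy⟩
    · intro h
      obtain ⟨e, -, h, -⟩ := mem_iUnion.1 h
      exact h
  rw [h1, h2, measure_iUnion, measure_iUnion]
  · congr 1
    funext e
    rw [← (A.mp e).measure_preimage ((hm _ _).inter (hB.inter A.measG)).nullMeasurableSet]
    apply measure_congr
    filter_upwards [A.aeG] with y hy
    apply propext
    have h3 : P.nx (A.σ e y) (-e) = P.nx y 0 - e := by rw [P.equiv y hy]; simp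
    constructor
    · rintro ⟨h, h'⟩
      refine ⟨?_, h', A.mapsG _ _ hy⟩
      have h : P.nx y 0 = e := h
      change P.nx (A.σ e y) (-e) = 0
      rw [h3, h, sub_self]
    · rintro ⟨h, h', -⟩
      refine ⟨?_, h'⟩
      have h : P.nx (A.σ e y) (-e) = 0 := h
      rw [h3] at h
      exact sub_eq_zero.1 h
  · intro a b hab
    refine Set.disjoint_left.2 ?_
    rintro y ⟨ha, -, hy⟩ ⟨hb, -⟩
    have ha : P.nx y (-a) = 0 := ha
    have hb : P.nx y (-b) = 0 := hb
    exact hab (neg_injective ((P.bij y hy).1 (ha.trans hb.symm)))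
  · exact fun e => (hm _ _).inter (hB.inter A.measG)
  · intro a b hab
    refine Set.disjoint_left.2 ?_
    rintro y ⟨ha, -⟩ ⟨hb, -⟩
    have ha : P.nx y 0 = a := ha
    have hb : P.nx y 0 = b := hb
    exact hab (ha.symm.trans hb)
  · exact fun e => (hm _ _).inter ((A.mp e).measurable hB)

theorem Path.measurable_iter (P : Path A) (v : Z2) (n : ℕ) :
    Measurable fun y => (P.nx y)^[n] v := by
  induction n with
  | zero => exact measurable_const
  | succ n ih =>
    have h : Measurable fun p : Y × Z2 => P.nx p.1 p.2 :=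
      measurable_from_prod_countable_left fun w => (measurable_pi_apply w).comp P.meas
    simp only [iterate_succ_apply']
    exact h.comp (measurable_id.prodMk ih)

theorem Path.measurableSet_bef (P : Path A) (v w : Z2) : MeasurableSet {y | P.bef y v w} := by
  have : {y | P.bef y v w} = ⋃ n : ℕ, ⋃ _ : 0 < n, (fun y => (P.nx y)^[n] v) ⁻¹' {w} := by
    ext y
    simp [Path.bef]
  rw [this]
  exact MeasurableSet.iUnion fun n => MeasurableSet.iUnion fun _ =>
    P.measurable_iter v n (measurableSet_singleton w)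

theorem Path.orbit (P : Path A) {y : Y} (hy : y ∈ A.G) (v : Z2) :
    ∃ t : ℕ, A.σ v y = P.T^[t] y ∨ y = P.T^[t] (A.σ v y) := by
  obtain ⟨n, h | h⟩ := P.conn y hy 0 v
  · exact ⟨n, Or.inl (by rw [P.T_iter hy, Path.p, h])⟩
  · refine ⟨n, Or.inr ?_⟩
    rw [P.T_iter (A.mapsG v y hy), A.add _ _ y hy, Path.p, P.iter_shift hy, zero_add, h]
    simp [A.zero y hy]

theorem Conj.comm_iter {P P' : Path A} (C : Conj P P') :
    ∀ᵐ y ∂m, ∀ t : ℕ, C.S (P.T^[t] y) = P'.T^[t] (C.S y) := by
  rw [ae_all_iff]
  intro t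
  induction t with
  | zero => simp
  | succ t ih =>
    filter_upwards [ih, (P.T_mp.iterate t).quasiMeasurePreserving.ae C.comm] with y h1 h2
    rw [iterate_succ_apply', iterate_succ_apply', h2, h1]

end Pool.Agent.MP_12f186_an

end
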