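import Pool.Agent.MP_12f186_an.Mg.RigidA
import Pool.Agent.MP_12f186_an.Mg.PathL
import Pool.Agent.MP_12f186_an.Mg.Order
import Pool.Agent.MP_12f186_an.Outer

-- part MP_12f186_an.Fiber
section

/-! Invariance and ergodicity of the measures. -/

set_option autoImplicit false
open MeasureTheory ProbabilityTheory Set Filter Topology Function
open scoped ENNReal

namespace Pool.Agent.MP_12f186_an

namespace Fib

theorem U_singleton {α : Type} [MeasurableSpace α] [MeasurableSingletonClass α] [Fintype α]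
    (x : α) : U α {x} = ((Fintype.card α : ℕ) : ℝ≥0∞)⁻¹ := by
  unfold U
  rw [uniformOn_univ, Measure.count_singleton, one_div]

theorem prod_XC (K : ℕ) : ∏ k ∈ Finset.range (K + 1), XC k = MM K := by
  induction K with
  | zero => rw [Finset.prod_range_one]; rfl
  | succ K ih => rw [Finset.prod_range_succ, ih, XC_succ, MM_succ, ← pow_succ']

theorem exs_congr (o : OO) {t t' : TS} {k : ℕ} (h : t k = t' k) : exs o t k = exs o t' k := by
  cases k with
  | zero => exact h
  | succ k => simp only [exs, h]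

theorem typ_congr (a : AA) (o : OO) {e e' : EE} {K : ℕ} (h : ∀ k, k ≤ K → e k = e' k) :
    typ a o e K = typ a o e' K := by
  induction K with
  | zero => exact h 0 le_rfl
  | succ K ih =>
    simp only [typ]
    rw [ih fun k hk => h k (by omega), h (K + 1) le_rfl]

theorem coord_eq (a : AA) (o : OO) (e : EE) {k K : ℕ} (h : k ≤ K) :
    e k = exs o (stack a K (typ a o e K) (pos K o)) k := by
  rw [exs_congr o (stack_typ a o e h), exs_typ]

theorem typ_exs_stack (a : AA) (o : OO) (K : ℕ) (α : TT K) :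
    typ a o (exs o (stack a K α (pos K o))) K = α := by
  rw [typ_exs K, stack_self]
  intro k hk
  rw [← stack_stack a (Nat.le_succ k) hk, stack_succ a le_rfl, stack_self,
    ← md_pos (show k + 1 ≤ K from hk), dg_md (Nat.lt_succ_self k)]

theorem fibre_eq (a : AA) (o : OO) (K : ℕ) (α : TT K) :
    (fun e => typ a o e K) ⁻¹' {α} =
      Set.pi (Finset.range (K + 1) : Finset ℕ) fun k => {exs o (stack a K α (pos K o)) k} := by
  ext e
  simp only [mem_preimage, mem_singleton_iff, Set.mem_pi, Finset.coe_range, mem_Iio]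
  constructor
  · rintro rfl k hk
    exact coord_eq a o e (by omega)
  · intro h
    rw [typ_congr a o (e' := exs o (stack a K α (pos K o))) fun k hk => h k (by omega),
      typ_exs_stack]

theorem measurable_typ' (a : AA) (o : OO) (K : ℕ) : Measurable fun e => typ a o e K :=
  (measurable_typ K).comp (measurable_prodMk_left (x := (a, o)))

theorem measurable_shE (a : AA) (o : OO) (v : Z2) : Measurable (shE a o v) :=
  (measurable_snd.comp (measurable_sXi v)).comp (measurable_prodMk_left (x := (a, o)))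

/-- coordinatewise measure preserving maps preserve the product measure -/
theorem mp_pi {α β : Type} [MeasurableSpace α] [MeasurableSpace β] {μ : Measure α}
    {ν : Measure β} [IsProbabilityMeasure μ] [IsProbabilityMeasure ν] {f : ℕ → α → β}
    (hf : ∀ n, MeasurePreserving (f n) μ ν) :
    MeasurePreserving (fun (x : ℕ → α) n => f n (x n)) (Measure.infinitePi fun _ => μ)
      (Measure.infinitePi fun _ => ν) := by
  refine ⟨measurable_pi_lambda _ fun n => (hf n).measurable.comp (measurable_pi_apply n), ?_⟩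
  rw [Measure.infinitePi_map_pi (fun _ : ℕ => μ) fun n => (hf n).measurable]
  congr 1
  funext n
  exact (hf n).map_eq

theorem mp_restrict {α : Type} [MeasurableSpace α] (μ : Measure α) [IsProbabilityMeasure μ]
    (I : Finset ℕ) :
    MeasurePreserving (I.restrict (π := fun _ => α)) (Measure.infinitePi fun _ => μ)
      (Measure.pi fun _ : I => μ) :=
  ⟨Finset.measurable_restrict I, Measure.infinitePi_map_restrict (fun _ : ℕ => μ)⟩

/-- zipping two product measures -/
theorem mp_zip {α β : Type} [MeasurableSpace α] [MeasurableSpace β] (μ : Measure α)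
    (ν : Measure β) [IsProbabilityMeasure μ] [IsProbabilityMeasure ν] :
    MeasurePreserving (fun (p : (ℕ → α) × (ℕ → β)) n => (p.1 n, p.2 n))
      ((Measure.infinitePi fun _ => μ).prod (Measure.infinitePi fun _ => ν))
      (Measure.infinitePi fun _ => μ.prod ν) := by
  have hm : Measurable (fun (p : (ℕ → α) × (ℕ → β)) n => (p.1 n, p.2 n)) :=
    measurable_pi_lambda _ fun n => ((measurable_pi_apply n).comp measurable_fst).prodMk
      ((measurable_pi_apply n).comp measurable_snd)
  refine ⟨hm, ?_⟩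
  refine ((Measure.isProjectiveLimit_infinitePi (fun _ : ℕ => μ.prod ν)).unique ?_).symm
  intro I
  rw [Measure.map_map (Finset.measurable_restrict I) hm]
  have h1 := (measurePreserving_arrowProdEquivProdArrow α β I (fun _ => μ) (fun _ => ν)).symm
  have h2 := h1.comp ((mp_restrict μ I).prod (mp_restrict ν I))
  exact h2.map_eq

theorem mp_add (c : OO) : MeasurePreserving (fun o : OO => o + c) haarO haarO :=
  measurePreserving_add_right haarO c

theorem mp_add' (c : OO) : MeasurePreserving (fun o : OO => c + o) haarO haarO :=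
  measurePreserving_add_left haarO c

theorem ae_good_add (x : XP) : ∀ᵐ o ∂haarO, ∀ n, GoodO (o + (x n).2) :=
  ae_all_iff.2 fun n => (mp_add (x n).2).quasiMeasurePreserving.ae ae_goodO

theorem measurable_JJ' (x : XP) : Measurable (JJ x) :=
  measurable_JJ.comp (measurable_prodMk_left (x := x))

theorem measurableSet_goodOm : MeasurableSet {ω | GoodOm ω} := by
  have : {ω | GoodOm ω} = ⋂ n, (fun ω : Om => (ω n).1.2) ⁻¹' {o | GoodO o} := by
    ext ω; simp [GoodOm]
  rw [this]
  exact MeasurableSet.iInter fun n =>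
    ((measurable_pi_apply n).fst.snd : Measurable fun ω : Om => (ω n).1.2) measurableSet_goodO

theorem goodOm_sOm {ω : Om} (h : GoodOm ω) (v : Z2) : GoodOm (sOm v ω) := fun n => (h n).add v

theorem sOm_zero {ω : Om} (h : GoodOm ω) : sOm 0 ω = ω := funext fun n => sXi_zero (h n)

theorem sOm_add {ω : Om} (h : GoodOm ω) (v w : Z2) : sOm w (sOm v ω) = sOm (v + w) ω :=
  funext fun n => sXi_add (h n) v w

theorem sOm_free {ω : Om} {v : Z2} (h : sOm v ω = ω) : v = 0 := by
  have h0 : (ω 0).1.2 + io v = (ω 0).1.2 := congrArg (fun ω : Om => (ω 0).1.2) h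
  apply io_inj
  rw [io_zero]
  simpa using h0

end Fib

open Fib

theorem mp_typ (a : AA) (o : OO) (K : ℕ) :
    MeasurePreserving (fun e => typ a o e K) lamE (U (TT K)) := by
  refine ⟨measurable_typ' a o K, Measure.ext_of_singleton fun α => ?_⟩
  rw [Measure.map_apply (measurable_typ' a o K) (measurableSet_singleton α), fibre_eq, lamE,
    Measure.infinitePi_pi _ fun _ _ => measurableSet_singleton _, U_singleton, Fintype.card_fin,
    ← prod_XC, Nat.cast_prod, ENNReal.prod_inv_distrib]
  · refine Finset.prod_congr rfl fun k _ => ?_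
    rw [U_singleton, Fintype.card_fin]
  · intro i _ j _ _
    exact Or.inr (ENNReal.natCast_ne_top _)

theorem mp_shE (a : AA) {o : OO} (ho : GoodO o) (v : Z2) :
    MeasurePreserving (shE a o v) lamE lamE := by
  refine ⟨measurable_shE a o v, ?_⟩
  conv_rhs => rw [lamE]
  refine Measure.eq_infinitePi _ fun s t ht => ?_
  rw [← Measure.infinitePi_pi _ fun i _ => ht i, Measure.map_apply (measurable_shE a o v)
    (MeasurableSet.pi s.countable_toSet fun i _ => ht i)]
  obtain ⟨K₀, hK₀⟩ := ho v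
  obtain ⟨K, hK, hs⟩ : ∃ K, InBox K (pos K o + v) ∧ ∀ k ∈ s, k ≤ K :=
    ⟨max K₀ (s.sup id), inBox_mono hK₀ (le_max_left _ _),
      fun k hk => (Finset.le_sup (f := id) hk).trans (le_max_right _ _)⟩
  have key : (s : Set ℕ).pi t = (fun e => typ a (o + io v) e K) ⁻¹'
      {α | ∀ k ∈ s, exs (o + io v) (stack a K α (pos K (o + io v))) k ∈ t k} := by
    ext e
    simp only [Set.mem_pi, Finset.mem_coe, mem_preimage, mem_ofPred_eq]
    refine forall₂_congr fun k hk => ?_
    rw [← coord_eq a _ e (hs k hk)]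
  have key2 : shE a o v ⁻¹' ((s : Set ℕ).pi t) = (fun e => typ a o e K) ⁻¹'
      {α | ∀ k ∈ s, exs (o + io v) (stack a K α (pos K (o + io v))) k ∈ t k} := by
    rw [key]
    ext e
    simp only [mem_preimage, typ_shE ho e v hK]
  rw [key2, (mp_typ a o K).measure_preimage (MeasurableSet.of_discrete).nullMeasurableSet]
  change _ = lamE _
  rw [key, (mp_typ a (o + io v) K).measure_preimage (MeasurableSet.of_discrete).nullMeasurableSet]

theorem mp_sXi (v : Z2) : MeasurePreserving (sXi v) xiM xiM := by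
  have h1 : MeasurePreserving (Prod.map id fun o : OO => o + io v) (lamA.prod haarO)
      (lamA.prod haarO) := (MeasurePreserving.id lamA).prod (mp_add (io v))
  have h2 : Measurable (uncurry fun (p : AA × OO) (e : EE) => shE p.1 p.2 v e) :=
    measurable_snd.comp (measurable_sXi v)
  have h3 : ∀ᵐ p ∂(lamA.prod haarO), GoodO p.2 :=
    (measurePreserving_snd (μ := lamA) (ν := haarO)).quasiMeasurePreserving.ae ae_goodO
  exact h1.skew_product h2 (h3.mono fun p hp => (mp_shE p.1 hp v).map_eq)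

theorem mp_JJ : MeasurePreserving (uncurry JJ) (xpM.prod yM) omM := by
  have hτ : ∀ o : OO, MeasurePreserving (fun (x : XP) n => ((x n).1, o + (x n).2)) xpM xpM :=
    fun o => mp_pi (f := fun _ => Prod.map id fun o' : OO => o + o') fun _ =>
      (MeasurePreserving.id lamA).prod (mp_add' o)
  have hm : Measurable (uncurry fun (o : OO) (x : XP) n => ((x n).1, o + (x n).2)) := by
    refine measurable_pi_lambda _ fun n => ?_
    have h1 : Measurable fun p : OO × XP => p.2 n := (measurable_pi_apply n).comp measurable_snd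
    exact h1.fst.prodMk (measurable_fst.add h1.snd)
  have h1 := (MeasurePreserving.id haarO).skew_product hm
    (Eventually.of_forall fun o => (hτ o).map_eq)
  have h2 := ((measurePreserving_snd (μ := haarO) (ν := xpM)).comp h1).comp
    (Measure.measurePreserving_swap (μ := xpM) (ν := haarO))
  have h3 := h2.prod (MeasurePreserving.id (Measure.infinitePi fun _ : ℕ => lamE))
  have h4 := (measurePreserving_prodAssoc xpM haarO (Measure.infinitePi fun _ : ℕ => lamE)).symm
  exact ((mp_zip (lamA.prod haarO) lamE).comp h3).comp h4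

/-- the action on the annealed space -/
noncomputable def actOm : Act Om omM where
  σ := sOm
  G := {ω | GoodOm ω}
  mp := fun v => mp_pi (f := fun _ => sXi v) fun _ => mp_sXi v
  measG := measurableSet_goodOm
  aeG := by
    refine ae_all_iff.2 fun n => ?_
    have h := ((measurePreserving_snd (μ := lamA) (ν := haarO)).comp
      (measurePreserving_fst (μ := lamA.prod haarO) (ν := lamE))).comp
      (measurePreserving_eval_infinitePi (fun _ : ℕ => xiM) n)
    exact h.quasiMeasurePreserving.ae ae_goodO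
  mapsG := fun v _ h => goodOm_sOm h v
  zero := fun _ h => sOm_zero h
  add := fun v w _ h => sOm_add h v w
  free := fun _ _ _ h => sOm_free h

/-- the action on a fibre -/
noncomputable def actY (x : XP) : Act YY yM where
  σ := sY x
  G := {y | GoodOm (JJ x y)}
  mp := fun v => by
    have hm : Measurable (uncurry fun (o : OO) (es : ℕ → EE) n =>
        shE (x n).1 (o + (x n).2) v (es n)) :=
      measurable_pi_lambda _ fun n => (measurable_snd.comp (measurable_sXi v)).comp
        ((measurable_pi_apply n).comp (measurable_JJ' x))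
    exact (mp_add (io v)).skew_product hm ((ae_good_add x).mono fun o ho =>
      (mp_pi (f := fun n => shE (x n).1 (o + (x n).2) v) fun n => mp_shE _ (ho n) v).map_eq)
  measG := measurable_JJ' x measurableSet_goodOm
  aeG := (measurePreserving_fst (μ := haarO)
    (ν := Measure.infinitePi fun _ : ℕ => lamE)).quasiMeasurePreserving.ae (ae_good_add x)
  mapsG := fun v y h => by
    change GoodOm (JJ x (sY x v y))
    rw [JJ_sY]
    exact goodOm_sOm h v
  zero := fun y h => JJ_inj x (by rw [JJ_sY]; exact sOm_zero h)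
  add := fun v w y h => JJ_inj x (by rw [JJ_sY, JJ_sY, JJ_sY]; exact sOm_add h v w)
  free := fun v y _ h => sOm_free (ω := JJ x y) (by rw [← JJ_sY, h])

theorem mp_off (x : XP) (n : ℕ) :
    MeasurePreserving (fun y : YY => (JJ x y n).1.2) yM haarO :=
  (mp_add (x n).2).comp (measurePreserving_fst (μ := haarO)
    (ν := Measure.infinitePi fun _ : ℕ => lamE))

end Pool.Agent.MP_12f186_an

end

-- part MP_12f186_an.Approx
section

/-! Approximation of measurable functions by functions of finitely many states. -/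

set_option autoImplicit false
open MeasureTheory ProbabilityTheory Set Filter Topology Function
open scoped ENNReal

namespace Pool.Agent.MP_12f186_an

/-- abstract approximation by an increasing separating family of finite quotients -/
theorem approx_abs {Y : Type} [MeasurableSpace Y] [StandardBorelSpace Y] (μ : Measure Y)
    [IsFiniteMeasure μ] {S : ℕ → Type} [∀ j, MeasurableSpace (S j)] [∀ j, Countable (S j)]
    [∀ j, MeasurableSingletonClass (S j)] (s : (j : ℕ) → Y → S j) (hs : ∀ j, Measurable (s j))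
    (hmono : ∀ j y y', s (j + 1) y = s (j + 1) y' → s j y = s j y')
    (hsep : ∀ y y', (∀ j, s j y = s j y') → y = y')
    {β : Type} [Fintype β] [Nonempty β] [MeasurableSpace β]
    [DiscreteMeasurableSpace β] (f : Y → β) (hf : Measurable f) (ε : ℝ≥0∞) (hε : 0 < ε)
    (j₀ : ℕ) : ∃ j, j₀ ≤ j ∧ ∃ ψ : S j → β, μ {y | f y ≠ ψ (s j y)} ≤ ε := by
  classical
  have hle : ∀ {j k : ℕ}, j ≤ k → ∀ y y', s k y = s k y' → s j y = s j y' := by
    intro j k hjk
    induction k, hjk using Nat.le_induction with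
    | base => exact fun _ _ h => h
    | succ k _ ih => exact fun y y' h => ih y y' (hmono k y y' h)
  have hup : ∀ {j k : ℕ}, j ≤ k → ∀ A : Set (S j), ∃ B : Set (S k), s k ⁻¹' B = s j ⁻¹' A := by
    intro j k hjk A
    refine ⟨s k '' (s j ⁻¹' A), ?_⟩
    ext y
    constructor
    · rintro ⟨y', hy', h⟩
      have h2 : s j y' = s j y := hle hjk y' y h
      have h3 : s j y' ∈ A := hy'
      show s j y ∈ A
      rwa [← h2]
    · exact fun h => ⟨y, h, rfl⟩
  set C : Set (Set Y) := {t | ∃ j, ∃ A : Set (S j), s j ⁻¹' A = t} with hC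
  have hring : IsSetRing C := by
    refine ⟨⟨0, ∅, rfl⟩, ?_, ?_⟩
    · rintro _ _ ⟨j, A, rfl⟩ ⟨k, B, rfl⟩
      obtain ⟨A', hA⟩ := hup (le_max_left j k) A
      obtain ⟨B', hB⟩ := hup (le_max_right j k) B
      exact ⟨max j k, A' ∪ B', by rw [preimage_union, hA, hB]⟩
    · rintro _ _ ⟨j, A, rfl⟩ ⟨k, B, rfl⟩
      obtain ⟨A', hA⟩ := hup (le_max_left j k) A
      obtain ⟨B', hB⟩ := hup (le_max_right j k) B
      exact ⟨max j k, A' \ B', by rw [preimage_sdiff, hA, hB]⟩
  have hemb : MeasurableEmbedding (fun y j => s j y) :=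
    (measurable_pi_lambda _ hs).measurableEmbedding
      (fun y y' h => hsep y y' fun j => congrFun h j)
  have hgen : (inferInstance : MeasurableSpace Y) = MeasurableSpace.generateFrom C := by
    apply le_antisymm
    · have h1 : @Measurable Y _ (MeasurableSpace.generateFrom C) _ (fun y j => s j y) := by
        refine @measurable_pi_lambda Y _ _ (MeasurableSpace.generateFrom C) _ _ (fun j => ?_)
        intro A _
        exact MeasurableSpace.measurableSet_generateFrom ⟨j, A, rfl⟩
      exact hemb.comap_eq.ge.trans h1.comap_le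
    · refine MeasurableSpace.generateFrom_le ?_
      rintro _ ⟨j, A, rfl⟩
      exact hs j (A.to_countable.measurableSet)
  have hcov : ∃ D : Set (Set Y), D.Countable ∧ D ⊆ C ∧ μ (⋃₀ D)ᶜ = 0 := by
    refine ⟨{univ}, countable_singleton _, ?_, by simp⟩
    rintro _ rfl
    exact ⟨0, univ, rfl⟩
  have hc0 : (Fintype.card β : ℝ≥0∞) ≠ 0 := by exact_mod_cast Fintype.card_ne_zero
  have hδ : 0 < ε / Fintype.card β := ENNReal.div_pos hε.ne' (ENNReal.natCast_ne_top _)
  have hex : ∀ b : β, ∃ j, ∃ A : Set (S j),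
      μ (symmDiff (s j ⁻¹' A) (f ⁻¹' {b})) < ε / Fintype.card β := by
    intro b
    obtain ⟨_, ⟨j, A, rfl⟩, h⟩ := exists_measure_symmDiff_lt_of_generateFrom_isSetRing
      hring hcov hgen (hf (measurableSet_singleton b)) hδ
    exact ⟨j, A, h⟩
  choose jj AA hAA using hex
  set J : ℕ := max j₀ (Finset.univ.sup jj) with hJ
  have hjJ : ∀ b, jj b ≤ J := fun b =>
    (Finset.le_sup (f := jj) (Finset.mem_univ b)).trans (le_max_right _ _)
  choose B hB using fun b => hup (hjJ b) (AA b)
  refine ⟨J, le_max_left _ _, fun σ => Classical.epsilon (fun b => σ ∈ B b), ?_⟩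
  have hsub : {y | f y ≠ Classical.epsilon (fun b => s J y ∈ B b)} ⊆
      ⋃ b ∈ (Finset.univ : Finset β), symmDiff (s (jj b) ⁻¹' AA b) (f ⁻¹' {b}) := by
    intro y hy
    by_contra hn
    simp only [mem_iUnion, not_exists] at hn
    have hiff : ∀ b, s J y ∈ B b ↔ f y = b := by
      intro b
      have h1 := hn b (Finset.mem_univ b)
      rw [← hB b, mem_symmDiff] at h1
      simp only [mem_preimage, mem_singleton_iff] at h1
      tauto
    have h2 := Classical.epsilon_spec (p := fun b => s J y ∈ B b) ⟨f y, (hiff _).2 rfl⟩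
    exact hy ((hiff _).1 h2)
  refine (measure_mono hsub).trans ((measure_biUnion_finset_le _ _).trans ?_)
  refine (Finset.sum_le_sum (fun b _ => (hAA b).le)).trans ?_
  rw [Finset.sum_const, Finset.card_univ, nsmul_eq_mul,
    ENNReal.mul_div_cancel hc0 (ENNReal.natCast_ne_top _)]

theorem ps_eq_of_st {j : ℕ} {ω ω' : Om} (h : st j ω = st j ω') {n : ℕ} (hn : n < j) :
    ps (ω n) j = ps (ω' n) j := by
  have h1 : fb j (ps (ω n) j) = fb j (ps (ω' n) j) := congrArg Prod.fst (congrFun h ⟨n, hn⟩)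
  rwa [fb_eq_iff, md_ps le_rfl, md_ps le_rfl] at h1

theorem ty_eq_of_st {j : ℕ} {ω ω' : Om} (h : st j ω = st j ω') {n : ℕ} (hn : n < j) :
    ty (ω n) j = ty (ω' n) j := congrArg Prod.snd (congrFun h ⟨n, hn⟩)

theorem st_mono (x : XP) (j : ℕ) (y y' : YY) (h : st (j + 1) (JJ x y) = st (j + 1) (JJ x y')) :
    st j (JJ x y) = st j (JJ x y') := by
  funext n
  have hn : (n : ℕ) < j + 1 := n.2.trans (Nat.lt_succ_self j)
  have hp := ps_eq_of_st h hn
  have ht := ty_eq_of_st h hn
  have ha : (JJ x y n).1.1 = (JJ x y' n).1.1 := rfl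
  refine Prod.ext ?_ ?_
  · show fb j (ps (JJ x y n) j) = fb j (ps (JJ x y' n) j)
    rw [← md_ps (Nat.le_succ j), ← md_ps (Nat.le_succ j) (JJ x y' n), hp]
  · show ty (JJ x y n) j = ty (JJ x y' n) j
    rw [ty_eq_val, ty_eq_val (JJ x y' n), hp, ht, ha]

theorem st_sep (x : XP) (y y' : YY) (h : ∀ j, st j (JJ x y) = st j (JJ x y')) : y = y' := by
  refine JJ_inj x (funext fun n => ?_)
  exact Xi.ext' rfl (n + 1) (fun K hK => ps_eq_of_st (h K) hK) (fun K hK => ty_eq_of_st (h K) hK)

/-- finite valued measurable functions are nearly functions of a state -/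
theorem approx (x : XP) {β : Type} [Fintype β] [Nonempty β] [MeasurableSpace β]
    [DiscreteMeasurableSpace β] (f : YY → β) (hf : Measurable f) (ε : ℝ≥0∞) (hε : 0 < ε)
    (j₀ : ℕ) : ∃ j, j₀ ≤ j ∧ ∃ ψ : SS j → β, yM {y | f y ≠ ψ (st j (JJ x y))} ≤ ε := by
  have hJ : Measurable (JJ x) := measurable_JJ.comp (measurable_prodMk_left (x := x))
  exact approx_abs yM (S := SS) (fun j y => st j (JJ x y))
    (fun j => (measurable_st j).comp hJ) (st_mono x) (st_sep x) f hf ε hε j₀

end Pool.Agent.MP_12f186_an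

end

-- part MP_12f186_an.Erg
section

/-! Ergodicity of the action on a fibre. -/

set_option autoImplicit false
open MeasureTheory ProbabilityTheory Set Filter Topology Function
open scoped ENNReal

namespace Pool.Agent.MP_12f186_an

namespace ErgAux

section unif

variable {A B : Type} [Fintype A] [Fintype B] [MeasurableSpace A] [MeasurableSpace B]
  [DiscreteMeasurableSpace A] [DiscreteMeasurableSpace B]

lemma U_single (a : A) : U A {a} = (Fintype.card A : ℝ≥0∞)⁻¹ := by
  unfold U
  rw [uniformOn_univ, Measure.count_singleton, one_div]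

lemma U_finset (s : Finset A) : U A (s : Set A) = (s.card : ℝ≥0∞) / Fintype.card A := by
  unfold U
  rw [uniformOn_univ, Measure.count_apply_finset]

lemma U_prod : U (A × B) = (U A).prod (U B) := by
  refine Measure.ext_of_singleton fun p => ?_
  obtain ⟨a, b⟩ := p
  have h1 : (Fintype.card A : ℝ≥0∞) ≠ ⊤ := ENNReal.natCast_ne_top _
  have h2 : (Fintype.card B : ℝ≥0∞) ≠ ⊤ := ENNReal.natCast_ne_top _
  have : Nonempty A := ⟨a⟩
  have : Nonempty B := ⟨b⟩
  rw [U_single, ← singleton_prod_singleton, Measure.prod_prod, U_single, U_single,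
    Fintype.card_prod, Nat.cast_mul, ENNReal.mul_inv (Or.inr h2) (Or.inl h1)]

lemma mp_of_card [Nonempty A] [DecidableEq B] (f : A → B)
    (h : ∀ b, (Finset.univ.filter fun a => f a = b).card * Fintype.card B = Fintype.card A) :
    MeasurePreserving f (U A) (U B) := by
  refine ⟨measurable_of_countable f, Measure.ext_of_singleton fun b => ?_⟩
  have : Nonempty B := ⟨b⟩
  have e : f ⁻¹' {b} = ((Finset.univ.filter fun a => f a = b : Finset A) : Set A) := by
    ext a; simp
  rw [Measure.map_apply (measurable_of_countable f) (measurableSet_singleton b), e, U_finset,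
    U_single, ← h b, Nat.cast_mul]
  have h0 : ((Finset.univ.filter fun a => f a = b).card : ℝ≥0∞) ≠ 0 := by
    have := h b
    have hp : 0 < Fintype.card A := Fintype.card_pos
    intro h1
    rw [Nat.cast_eq_zero] at h1
    rw [h1] at this
    omega
  rw [ENNReal.div_eq_inv_mul, ENNReal.mul_inv (Or.inl h0) (Or.inl (ENNReal.natCast_ne_top _)),
    mul_right_comm, ENNReal.inv_mul_cancel h0 (ENNReal.natCast_ne_top _), one_mul]

lemma mp_equiv [Nonempty A] (e : A ≃ B) : MeasurePreserving e (U A) (U B) := by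
  classical
  refine mp_of_card e fun b => ?_
  have : (Finset.univ.filter fun a => e a = b) = {e.symm b} := by
    ext a; simp [Equiv.eq_symm_apply]
  rw [this, Finset.card_singleton, one_mul, Fintype.card_congr e]

end unif

lemma mp_val (a : AA) (k : ℕ) (u : Pos k) :
    MeasurePreserving (val a k u) (U (TT (k + 1))) (U (TT k)) := by
  have h1 := mp_equiv ((code k).eqv u)
  rw [U_prod] at h1
  exact (mp_equiv (a k u)).comp (measurePreserving_fst.comp h1)

lemma mp_val2 (a : AA) (k : ℕ) {u u' : Pos k} (h : u ≠ u') :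
    MeasurePreserving (fun P => (val a k u P, val a k u' P)) (U (TT (k + 1)))
      ((U (TT k)).prod (U (TT k))) := by
  have h1 : MeasurePreserving (fun P => (raw k u P, raw k u' P)) (U (TT (k + 1)))
      (U (TT k × TT k)) := by
    refine mp_of_card _ fun b => ?_
    have := (code k).pair u u' h b.1 b.2
    rw [Fintype.card_prod, ← sq, ← this]
    congr 2
    ext P
    simp [raw, Prod.ext_iff]
  rw [U_prod] at h1
  exact ((mp_equiv (a k u)).prod (mp_equiv (a k u'))).comp h1

lemma mp_stack (a : AA) (z : Z2) {j K : ℕ} (h : j ≤ K) :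
    MeasurePreserving (fun α => stack a K α z j) (U (TT K)) (U (TT j)) := by
  induction K, h using Nat.le_induction with
  | base => simp only [stack_self]; exact MeasurePreserving.id _
  | succ K hK ih => simp only [stack_succ a hK]; exact ih.comp (mp_val a K _)

/-- types seen from two different tiles are independent -/
lemma mp_pair (a : AA) {o : OO} (ho : GoodO o) (v : Z2) {j : ℕ} (hv : ¬ InBox j (pos j o + v)) :
    MeasurePreserving (fun e => (typ a o e j, typ a (o + io v) (shE a o v e) j)) lamE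
      ((U (TT j)).prod (U (TT j))) := by
  have hK := lev_spec ho v
  have hj : j < lev o v := not_le.1 fun h => hv (inBox_mono hK h)
  obtain ⟨k, hk⟩ : ∃ k, lev o v = k + 1 := ⟨lev o v - 1, by omega⟩
  rw [hk] at hK hj
  have hjk : j ≤ k := by omega
  have hnk : ¬ InBox k (pos k o + v) := fun h => by have := lev_le h; omega
  have hne : dg k (pos (k + 1) o) ≠ dg k (pos (k + 1) o + v) := by
    intro h
    apply hnk
    have e1 := md_succ_eq k (pos (k + 1) o)
    have e2 := md_succ_eq k (pos (k + 1) o + v)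
    rw [md_of_inBox (pos_inBox _ _), md_pos (Nat.le_succ k)] at e1
    rw [md_of_inBox hK, ← h] at e2
    have e3 : pos k o + v = md k (pos (k + 1) o + v) := by
      have a1 := congrArg Prod.fst e1
      have a2 := congrArg Prod.snd e1
      have b1 := congrArg Prod.fst e2
      have b2 := congrArg Prod.snd e2
      simp only [Prod.fst_add, Prod.snd_add] at a1 a2 b1 b2
      refine Prod.ext ?_ ?_
      · simp only [Prod.fst_add]; linarith
      · simp only [Prod.snd_add]; linarith
    rw [e3]; exact md_inBox _ _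
  have h1 := ((mp_stack a (pos (k + 1) o) hjk).prod (mp_stack a (pos (k + 1) o + v) hjk)).comp
    ((mp_val2 a k hne).comp (mp_typ a o (k + 1)))
  convert h1 using 1
  funext e
  simp only [Function.comp_apply, Prod.map_apply]
  rw [typ_shE_eq ho, tyS_eq ho e hj.le hK, ← stack_typ a o e hj.le, stack_succ a hjk,
    stack_succ a hjk]

lemma pos_add' (K : ℕ) (o o' : OO) : pos K (o + o') = md K (pos K o + pos K o') := by
  have h : ∀ s t : O1, p1 (ee K) (s + t) = (p1 (ee K) s + p1 (ee K) t) % (bb K : ℤ) := by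
    intro s t
    have e : PadicInt.toZModPow (p := 2) (ee K) (s + t) =
        PadicInt.toZModPow (p := 2) (ee K) s + PadicInt.toZModPow (p := 2) (ee K) t :=
      map_add (PadicInt.toZModPow (p := 2) (ee K)) s t
    unfold p1
    rw [e, ZMod.val_add, bb_eq]
    push_cast
    rfl
  exact Prod.ext (h _ _) (h _ _)

/-- uniform measure on the types of the first `j` factors -/
noncomputable def piU (j : ℕ) : Measure (Fin j → TT j) := Measure.pi fun _ => U (TT j)

instance (j : ℕ) : IsProbabilityMeasure (piU j) := by unfold piU; infer_instance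

lemma mp_res (j : ℕ) : MeasurePreserving (fun (e : ℕ → EE) (n : Fin j) => e n)
    (Measure.infinitePi fun _ => lamE) (Measure.pi fun _ => lamE) := by
  refine ⟨by fun_prop, ?_⟩
  rw [Measure.map_infinitePi_infinitePi_of_inj (P := fun _ : ℕ => lamE) Fin.val_injective,
    Measure.infinitePi_eq_pi]

lemma mp_pairs (x : XP) {o : OO} (ho : ∀ n, GoodO (o + (x n).2)) (v : Z2) {j : ℕ}
    (hv : (bb j : ℤ) ≤ v.1) :
    MeasurePreserving (fun e : ℕ → EE =>
      ((fun n : Fin j => ty (JJ x (o, e) n) j), fun n : Fin j => ty (JJ x (sY x v (o, e)) n) j))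
      (Measure.infinitePi fun _ => lamE) ((piU j).prod (piU j)) := by
  have h1 : ∀ n : Fin j, ¬ InBox j (pos j (o + (x n).2) + v) := fun n h => by
    have h2 := (pos_inBox j (o + (x n).2)).1
    have h3 := h.2.1
    simp only [Prod.fst_add] at h3
    omega
  have h2 := measurePreserving_pi (fun _ : Fin j => lamE)
    (fun _ => (U (TT j)).prod (U (TT j))) fun n => mp_pair (x n).1 (ho n) v (h1 n)
  have h3 := (measurePreserving_arrowProdEquivProdArrow (TT j) (TT j) (Fin j) (fun _ => U (TT j))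
    (fun _ => U (TT j))).comp (h2.comp (mp_res j))
  unfold piU
  convert h3 using 1
  funext e
  rw [JJ_sY]
  rfl

/-- the set of type vectors accepted at a given position -/
def acc (x : XP) (j : ℕ) (ψ : SS j → Bool) (z : Z2) : Set (Fin j → TT j) :=
  {t | ψ (fun n => (fb j (z + pos j (x n).2), t n)) = true}

lemma acc_congr (x : XP) (j : ℕ) (ψ : SS j → Bool) {z z' : Z2} (h : fb j z = fb j z') :
    acc x j ψ z = acc x j ψ z' := by
  have : ∀ w, fb j (z + w) = fb j (z' + w) := fun w => by
    rw [fb_eq_iff, ← md_add_md, fb_eq_iff.1 h, md_add_md]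
  simp only [acc, this]

lemma mem_acc (x : XP) (j : ℕ) (ψ : SS j → Bool) (y : YY) :
    ψ (st j (JJ x y)) = true ↔ (fun n : Fin j => ty (JJ x y n) j) ∈ acc x j ψ (pos j y.1) := by
  have : st j (JJ x y) = fun n : Fin j => (fb j (pos j y.1 + pos j (x n).2), ty (JJ x y n) j) := by
    funext n
    refine Prod.ext ?_ rfl
    show fb j (pos j (y.1 + (x n).2)) = _
    rw [pos_add', fb_md le_rfl]
  rw [this]; rfl

/-- shift vectors -/
def vec (j : ℕ) (p : PB j) : Z2 := ((bb j : ℤ) + (p.1 : ℕ), ((p.2 : ℕ) : ℤ))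

lemma fb_vec_bij (j : ℕ) (z : Z2) : Bijective fun p : PB j => fb j (z + vec j p) := by
  refine Finite.injective_iff_bijective.1 fun p p' h => ?_
  simp only [fb, vec, Prod.mk.injEq, fb1_eq_iff, Prod.fst_add, Prod.snd_add] at h
  obtain ⟨h1, h2⟩ := h
  have key : ∀ (c : ℤ) (s t : Fin (bb j)), (c + (s : ℕ)) % (bb j : ℤ) = (c + (t : ℕ)) % (bb j : ℤ) →
      s = t := by
    intro c s t h
    have h3 : ((s : ℕ) : ℤ) % (bb j : ℤ) = ((t : ℕ) : ℤ) % (bb j : ℤ) :=
      Int.ModEq.add_left_cancel' c h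
    rw [Int.emod_eq_of_lt (by positivity) (by exact_mod_cast s.2),
      Int.emod_eq_of_lt (by positivity) (by exact_mod_cast t.2)] at h3
    exact Fin.ext (by exact_mod_cast h3)
  rw [← add_assoc, ← add_assoc] at h1
  exact Prod.ext (key _ _ _ h1) (key _ _ _ h2)

lemma ae_good (x : XP) : ∀ᵐ o ∂haarO, ∀ n, GoodO (o + (x n).2) :=
  ae_all_iff.2 fun n => (measurePreserving_add_right haarO (x n).2).quasiMeasurePreserving.ae
    ae_goodO

/-- averaged mixing for sets given by a state -/
lemma mixing (x : XP) (j : ℕ) (ψ : SS j → Bool) :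
    ∑ p : PB j, yM ({y | ψ (st j (JJ x y)) = true} ∩
      sY x (vec j p) ⁻¹' {y | ψ (st j (JJ x y)) = true}) =
      Fintype.card (PB j) * yM {y | ψ (st j (JJ x y)) = true} ^ 2 := by
  set F : Set YY := {y | ψ (st j (JJ x y)) = true} with hF
  have mJ : Measurable (JJ x) := measurable_JJ.comp measurable_prodMk_left
  have mF : MeasurableSet F :=
    ((measurable_of_countable ψ).comp ((measurable_st j).comp mJ)) (measurableSet_singleton true)
  have mS : ∀ v, Measurable (sY x v) := fun v => ((actY x).mp v).measurable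
  set g : OO → ℝ≥0∞ := fun o => piU j (acc x j ψ (pos j o)) with hg
  have mg : Measurable g :=
    (measurable_of_countable fun z => piU j (acc x j ψ z)).comp (measurable_pos j)
  have hv : ∀ p, (bb j : ℤ) ≤ (vec j p).1 := fun p => by simp [vec]
  have h1 : ∀ p, yM (F ∩ sY x (vec j p) ⁻¹' F) = ∫⁻ o, g o * g (o + io (vec j p)) ∂haarO := by
    intro p
    unfold yM
    rw [Measure.prod_apply (mF.inter (mS _ mF))]
    refine lintegral_congr_ae ((ae_good x).mono fun o ho => ?_)
    have h := (mp_pairs x ho _ (hv p)).measure_preimage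
      (s := acc x j ψ (pos j o) ×ˢ acc x j ψ (pos j (o + io (vec j p))))
      (MeasurableSet.of_discrete).nullMeasurableSet
    rw [Measure.prod_prod] at h
    refine Eq.trans (congrArg _ ?_) h
    ext e
    simp only [mem_preimage, mem_inter_iff, hF, mem_ofPred_eq, mem_prod, mem_acc]
    rfl
  have h2 : yM F = ∫⁻ o, g o ∂haarO := by
    unfold yM
    rw [Measure.prod_apply mF]
    refine lintegral_congr_ae ((ae_good x).mono fun o ho => ?_)
    have h := (mp_pairs x ho _ (hv default)).measure_preimage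
      (s := acc x j ψ (pos j o) ×ˢ univ) (MeasurableSet.of_discrete).nullMeasurableSet
    rw [Measure.prod_prod, measure_univ, mul_one] at h
    refine Eq.trans (congrArg _ ?_) h
    ext e
    simp only [mem_preimage, hF, mem_ofPred_eq, mem_prod, mem_acc, mem_univ, and_true]
  set c : ℝ≥0∞ := ∑ p : PB j, piU j (acc x j ψ (((p.1 : ℕ) : ℤ), ((p.2 : ℕ) : ℤ))) with hc
  have h3 : ∀ o, ∑ p : PB j, g (o + io (vec j p)) = c := by
    intro o
    rw [hc, ← (fb_vec_bij j (pos j o)).sum_comp
      fun p : PB j => piU j (acc x j ψ (((p.1 : ℕ) : ℤ), ((p.2 : ℕ) : ℤ)))]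
    refine Finset.sum_congr rfl fun p _ => ?_
    simp only [hg]
    congr 1
    apply acc_congr
    rw [pos_add, fb_md le_rfl, fb_eq_iff]
    have hb := bbZ_pos j
    refine Prod.ext ?_ ?_
    · simp only [md, fb, fb1]
      rw [Int.toNat_of_nonneg (Int.emod_nonneg _ hb.ne'), Int.emod_emod]
    · simp only [md, fb, fb1]
      rw [Int.toNat_of_nonneg (Int.emod_nonneg _ hb.ne'), Int.emod_emod]
  have mg' : ∀ p, Measurable fun o => g (o + io (vec j p)) := fun p =>
    mg.comp (measurable_add_const _)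
  have h4 : c = Fintype.card (PB j) * yM F := by
    calc c = ∫⁻ _, c ∂haarO := by rw [lintegral_const, measure_univ, mul_one]
      _ = ∫⁻ o, ∑ p : PB j, g (o + io (vec j p)) ∂haarO := by simp only [h3]
      _ = ∑ p : PB j, ∫⁻ o, g (o + io (vec j p)) ∂haarO :=
          lintegral_finsetSum _ fun p _ => mg' p
      _ = ∑ _p : PB j, yM F := Finset.sum_congr rfl fun p _ => by
          rw [lintegral_add_right_eq_self, h2]
      _ = _ := by rw [Finset.sum_const, Finset.card_univ, nsmul_eq_mul]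
  simp only [h1]
  rw [← lintegral_finsetSum (f := fun p o => g o * g (o + io (vec j p))) _ fun p _ => mg.mul (mg' p)]
  simp only [← Finset.mul_sum, h3]
  rw [lintegral_mul_const _ mg, ← h2, h4]
  ring

end ErgAux

open ErgAux in
theorem erg_actY (x : XP) : (actY x).Erg := by
  classical
  intro E mE hE
  have key : ∀ ε : ℝ≥0∞, 0 < ε → yM E ≤ (yM E + ε) ^ 2 + 2 * ε := by
    intro ε hε
    have mf : Measurable fun y => decide (y ∈ E) := by
      refine measurable_to_bool ?_
      convert mE using 1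
      ext y; simp
    obtain ⟨j, -, ψ, hψ⟩ := approx x (fun y => decide (y ∈ E)) mf ε hε 0
    set F : Set YY := {y | ψ (st j (JJ x y)) = true} with hF
    set D : Set YY := {y | decide (y ∈ E) ≠ ψ (st j (JJ x y))} with hD
    have hEF : E ⊆ F ∪ D := fun y hy => by
      by_cases h : ψ (st j (JJ x y)) = true
      · exact Or.inl h
      · exact Or.inr (by simpa [hD, hy] using h)
    have hFE : F ⊆ E ∪ D := fun y hy => by
      by_cases h : y ∈ E
      · exact Or.inl h
      · have hy' : ψ (st j (JJ x y)) = true := hy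
        exact Or.inr (by simp [hD, h, hy'])
    have h1 : yM F ≤ yM E + ε :=
      (measure_mono hFE).trans ((measure_union_le _ _).trans (by gcongr))
    have h2 : ∀ v, yM E ≤ yM (F ∩ sY x v ⁻¹' F) + 2 * ε := by
      intro v
      have hp : MeasurePreserving (sY x v) yM yM := (actY x).mp v
      have hD' : yM (sY x v ⁻¹' D) ≤ ε := by
        refine le_trans ?_ hψ
        have := Measure.le_map_apply hp.measurable.aemeasurable (μ := yM) D
        rwa [hp.map_eq] at this
      calc yM E ≤ yM ((F ∩ sY x v ⁻¹' F ∪ D) ∪ sY x v ⁻¹' D) := by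
            refine measure_mono_ae ((hE v).mono fun y hy hyE => ?_)
            rcases hEF hyE with a | a
            · rcases hEF (hy.2 hyE) with b | b
              · exact Or.inl (Or.inl ⟨a, b⟩)
              · exact Or.inr b
            · exact Or.inl (Or.inr a)
        _ ≤ yM (F ∩ sY x v ⁻¹' F) + yM D + yM (sY x v ⁻¹' D) :=
            (measure_union_le _ _).trans (by gcongr; exact measure_union_le _ _)
        _ ≤ yM (F ∩ sY x v ⁻¹' F) + ε + ε := by gcongr
        _ = _ := by ring
    have h3 : (Fintype.card (PB j) : ℝ≥0∞) * yM E ≤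
        Fintype.card (PB j) * (yM F ^ 2 + 2 * ε) := by
      calc (Fintype.card (PB j) : ℝ≥0∞) * yM E = ∑ _p : PB j, yM E := by
            rw [Finset.sum_const, Finset.card_univ, nsmul_eq_mul]
        _ ≤ ∑ p : PB j, (yM (F ∩ sY x (vec j p) ⁻¹' F) + 2 * ε) :=
            Finset.sum_le_sum fun p _ => h2 _
        _ = _ := by
            rw [Finset.sum_add_distrib, mixing, Finset.sum_const, Finset.card_univ, nsmul_eq_mul,
              mul_add]
    have h4 := (ENNReal.mul_le_mul_iff_right (Nat.cast_ne_zero.2 Fintype.card_ne_zero)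
      (ENNReal.natCast_ne_top _)).1 h3
    exact h4.trans (by gcongr)
  have hlim : yM E ≤ yM E ^ 2 := by
    have hc : Tendsto (fun ε : ℝ≥0∞ => (yM E + ε) ^ 2 + 2 * ε) (𝓝[>] 0)
        (𝓝 ((yM E + 0) ^ 2 + 2 * 0)) := by
      refine Tendsto.mono_left ?_ nhdsWithin_le_nhds
      exact (ENNReal.Tendsto.pow (tendsto_const_nhds.add tendsto_id)).add
        (ENNReal.Tendsto.const_mul tendsto_id (Or.inr (by norm_num)))
    rw [add_zero, mul_zero, add_zero] at hc
    exact ge_of_tendsto hc (eventually_nhdsWithin_of_forall key)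
  by_cases h0 : yM E = 0
  · exact Or.inl h0
  · refine Or.inr (le_antisymm prob_le_one ?_)
    rw [sq] at hlim
    have := (ENNReal.mul_le_mul_iff_right h0 (measure_ne_top yM E)).1 ((mul_one _).le.trans hlim)
    exact this

end Pool.Agent.MP_12f186_an

end

-- part MP_12f186_an.Rigid
section

/-! Rigidity: a conjugacy between two step maps lies in the full group. -/

set_option autoImplicit false
open MeasureTheory ProbabilityTheory Set Filter Topology Function
open scoped ENNReal

namespace Pool.Agent.MP_12f186_an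

section general
variable {Y : Type} [MeasurableSpace Y] {m : Measure Y} {T : Y → Y}

omit [MeasurableSpace Y] in
open Classical in
theorem card_eq_sum_ind (T : Y → Y) (B : Set Y) (N : ℕ) (y : Y) :
    (((Finset.range N).filter fun t => T^[t] y ∈ B).card : ℝ≥0∞) =
      ∑ t ∈ Finset.range N, (T^[t] ⁻¹' B).indicator 1 y := by
  rw [Finset.card_filter]
  push_cast
  refine Finset.sum_congr rfl fun t _ => ?_
  by_cases h : T^[t] y ∈ B <;> simp [h]

open Classical in
theorem meas_count (hT : Measurable T) {B : Set Y} (hB : MeasurableSet B) (N : ℕ) :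
    Measurable fun y => (((Finset.range N).filter fun t => T^[t] y ∈ B).card : ℝ≥0∞) := by
  simp only [card_eq_sum_ind]
  exact Finset.measurable_sum _ fun t _ => measurable_one.indicator ((hT.iterate t) hB)

open Classical in
theorem lint_count (hT : MeasurePreserving T m m) {B : Set Y} (hB : MeasurableSet B) (N : ℕ) :
    ∫⁻ y, (((Finset.range N).filter fun t => T^[t] y ∈ B).card : ℝ≥0∞) ∂m = N * m B := by
  simp only [card_eq_sum_ind]
  rw [lintegral_finsetSum _ fun t _ => measurable_one.indicator ((hT.measurable.iterate t) hB)]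
  rw [Finset.sum_congr rfl fun t _ => (lintegral_indicator_one
    ((hT.measurable.iterate t) hB)).trans ((hT.iterate t).measure_preimage hB.nullMeasurableSet)]
  simp

open Classical in
theorem markov_count (hT : MeasurePreserving T m m) (B : Set Y) {N : ℕ} (hN : 0 < N) :
    m {y | N ≤ 2 * ((Finset.range N).filter fun t => T^[t] y ∈ B).card} ≤ 2 * m B := by
  have hB := measurableSet_toMeasurable m B
  have h1 := mul_meas_ge_le_lintegral (μ := m)
    ((meas_count hT.measurable hB N).const_mul 2) (N : ℝ≥0∞)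
  rw [lintegral_const_mul _ (meas_count hT.measurable hB N), lint_count hT hB,
    measure_toMeasurable, mul_left_comm] at h1
  have h2 := (ENNReal.mul_le_mul_iff_right (by exact_mod_cast hN.ne') (by simp)).1 h1
  refine le_trans (measure_mono fun y hy => ?_) h2
  simp only [mem_ofPred_eq] at hy ⊢
  have h3 : ((Finset.range N).filter fun t => T^[t] y ∈ B).card ≤
      ((Finset.range N).filter fun t => T^[t] y ∈ toMeasurable m B).card :=
    Finset.card_le_card (Finset.monotone_filter_right _ fun t _ ht => subset_toMeasurable m B ht)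
  exact_mod_cast hy.trans (Nat.mul_le_mul_left 2 h3)

open Classical in
theorem rare_count [IsProbabilityMeasure m] (hT : MeasurePreserving T m m) {B : Set Y}
    (hB : MeasurableSet B) (Z : Set Y) {N c : ℕ}
    (h : ∀ᵐ y ∂m, y ∉ Z → ((Finset.range N).filter fun t => T^[t] y ∈ B).card ≤ c) :
    N * m B ≤ c + N * m Z := by
  rw [← lint_count hT hB, ← measure_toMeasurable Z]
  have hZ := measurableSet_toMeasurable m Z
  calc _ ≤ ∫⁻ y, (c + N * (toMeasurable m Z).indicator 1 y : ℝ≥0∞) ∂m := by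
        refine lintegral_mono_ae (h.mono fun y hy => ?_)
        by_cases hz : y ∈ toMeasurable m Z
        · simp only [hz, indicator_of_mem, Pi.one_apply, mul_one]
          refine le_add_left ?_
          exact_mod_cast (Finset.card_filter_le _ _).trans (Finset.card_range N).le
        · refine le_add_right ?_
          exact_mod_cast hy fun h' => hz (subset_toMeasurable m Z h')
    _ = _ := by
        rw [lintegral_add_left measurable_const, lintegral_const_mul _ (measurable_one.indicator hZ),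
          lintegral_indicator_one hZ]
        simp

theorem mp_le {Y' : Type} [MeasurableSpace Y'] {m' : Measure Y'} {f : Y → Y'}
    (hf : MeasurePreserving f m m') (B : Set Y') : m (f ⁻¹' B) ≤ m' B := by
  rw [← hf.map_eq]; exact Measure.le_map_apply hf.measurable.aemeasurable B

theorem meas_le_of_ae {s t : Set Y} (h : ∀ᵐ y ∂m, y ∈ s → y ∈ t) : m s ≤ m t := measure_mono_ae h

end general

/-- the basic small quantity -/
noncomputable def eta (k : ℕ) : ℝ≥0∞ := (2 ^ (k + 10))⁻¹

theorem eta_eq (k : ℕ) : eta k = 2⁻¹ ^ k * eta 0 := by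
  unfold eta
  rw [pow_add, ENNReal.mul_inv (by simp) (by simp), ENNReal.inv_pow, zero_add]

theorem tsum_eta : ∑' k, eta k = 2 * eta 0 := by
  rw [tsum_congr eta_eq, ENNReal.tsum_mul_right, ENNReal.tsum_geometric]
  simp

theorem eta_succ_le (k : ℕ) : eta (k + 1) ≤ eta k := by
  unfold eta
  exact ENNReal.inv_le_inv.2 (pow_le_pow_right₀ (by norm_num) (by omega))

theorem mul_eta_le {j k : ℕ} (h : j ≤ k) : ((j : ℝ≥0∞) + 1) * eta k ≤ eta 0 := by
  rw [eta_eq k, ← mul_assoc]
  refine mul_le_of_le_one_left' ?_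
  have h1 : ((j : ℝ≥0∞) + 1) ≤ 2 ^ k := by
    have := lt_two_pow k
    exact_mod_cast (by omega : j + 1 ≤ 2 ^ k)
  calc _ ≤ 2 ^ k * (2 : ℝ≥0∞)⁻¹ ^ k := mul_le_mul_left h1 _
    _ = 1 := by rw [← mul_pow, ENNReal.mul_inv_cancel (by simp) (by simp), one_pow]

theorem eta_pos : 0 < eta 0 := by
  unfold eta; simp

theorem eta_small : 15 * eta 0 < 1 := by
  unfold eta
  rw [← div_eq_mul_inv, ENNReal.div_lt_iff (by simp) (by simp)]
  norm_num

theorem notDeep_le (x : XP) (n k : ℕ) : yM {y | ¬ Deep k (ps (JJ x y n) k)} ≤ eta k :=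
  (mp_le (mp_off x n) {o | ¬ Deep k (pos k o)}).trans (haarO_notDeep k)

theorem measurable_JJx (x : XP) (n : ℕ) : Measurable fun y => JJ x y n :=
  (measurable_pi_apply n).comp (measurable_JJ.comp measurable_prodMk_left)

theorem measurable_Off {Y : Type} [MeasurableSpace Y] {f g : Y → Xi} (hf : Measurable f)
    (hg : Measurable g) (k : ℕ) : MeasurableSet {y | Off k (f y) (g y)} := by
  have h : Measurable fun y => ((ty (f y) k, ty (g y) k), (ps (f y) (k + 1), ps (g y) (k + 1)),
      (ty (f y) (k + 1), ty (g y) (k + 1))) :=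
    (((measurable_typ k).comp hf).prodMk ((measurable_typ k).comp hg)).prodMk
      ((((measurable_ps _).comp hf).prodMk ((measurable_ps _).comp hg)).prodMk
        (((measurable_typ _).comp hf).prodMk ((measurable_typ _).comp hg)))
  exact h (MeasurableSet.of_discrete (s := {c | c.1.1 = c.1.2 ∧
    ¬ (dg k c.2.1.1 = dg k c.2.1.2 ∧ c.2.2.1 = c.2.2.2)}))

variable {x : XP} {P P' : Path (actY x)}

/-- the conull set on which everything is well behaved -/
def Nice (C : Conj P P') (y : YY) : Prop :=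
  y ∈ (actY x).G ∧ C.S y ∈ (actY x).G ∧ ∀ t : ℕ, C.S (P.T^[t] y) = P'.T^[t] (C.S y)

theorem ae_nice (C : Conj P P') : ∀ᵐ y ∂yM, Nice C y := by
  filter_upwards [(actY x).aeG, C.mpS.quasiMeasurePreserving.ae (actY x).aeG, C.comm_iter]
    with y h1 h2 h3 using ⟨h1, h2, h3⟩

theorem JJ_T (P : Path (actY x)) {y : YY} (hy : y ∈ (actY x).G) (t : ℕ) :
    JJ x (P.T^[t] y) = sOm (P.p y t) (JJ x y) := by
  rw [P.T_iter hy]; exact JJ_sY x _ y

theorem Nice.JJ_ST {C : Conj P P'} {y : YY} (hy : Nice C y) (t : ℕ) :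
    JJ x (C.S (P.T^[t] y)) = sOm (P'.p (C.S y) t) (JJ x (C.S y)) := by
  rw [hy.2.2, JJ_T P' hy.2.1]

theorem off_le (C : Conj P P') (i k : ℕ) (hB : ¬ BadB (x i).1 k) :
    yM {y | Off k (JJ x y i) (JJ x (C.S y) i)} ≤ 3 * eta k := by
  have hm := measurable_Off (measurable_JJx x i) ((measurable_JJx x i).comp C.mpS.measurable) k
  have h1 := rare_count P.T_mp hm ({y | ¬ Deep (k + 1) (ps (JJ x y i) (k + 1))} ∪
    C.S ⁻¹' {y | ¬ Deep (k + 1) (ps (JJ x y i) (k + 1))}) (N := len (k + 1))
    (c := nn k * bb k ^ 2) (by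
      filter_upwards [ae_nice C] with y hy hz
      simp only [mem_union, mem_preimage, mem_ofPred_eq, not_or, not_not] at hz
      have := off_count (ξ := JJ x y i) (ξ' := JJ x (C.S y) i) (hy.1 i) (hy.2.1 i) rfl hB
        (P.p_step hy.1) (P'.p_step hy.2.1) (P.p_inj hy.1) rfl rfl hz.1 hz.2
      refine le_trans (Finset.card_le_card fun t ht => ?_) this
      simp only [Finset.mem_filter, comp_apply] at ht ⊢
      rw [JJ_T P hy.1, hy.JJ_ST] at ht
      exact ht)
  have h2 : yM ({y | ¬ Deep (k + 1) (ps (JJ x y i) (k + 1))} ∪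
      C.S ⁻¹' {y | ¬ Deep (k + 1) (ps (JJ x y i) (k + 1))}) ≤ eta k + eta k :=
    (measure_union_le _ _).trans (add_le_add ((notDeep_le x i _).trans (eta_succ_le k))
      ((mp_le C.mpS _).trans ((notDeep_le x i _).trans (eta_succ_le k))))
  have h3 : ((nn k * bb k ^ 2 : ℕ) : ℝ≥0∞) ≤ len (k + 1) * eta k := by
    unfold eta
    rw [← div_eq_mul_inv, ENNReal.le_div_iff_mul_le (by simp) (by simp)]
    exact_mod_cast nn_bound k
  have h4 : (len (k + 1) : ℝ≥0∞) * yM {y | Off k (JJ x y i) (JJ x (C.S y) i)} ≤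
      len (k + 1) * (3 * eta k) :=
    calc _ ≤ _ := h1
      _ ≤ len (k + 1) * eta k + len (k + 1) * (eta k + eta k) :=
        add_le_add h3 (mul_le_mul_right h2 _)
      _ = _ := by ring
  exact (ENNReal.mul_le_mul_iff_right (by exact_mod_cast (len_pos _).ne') (by simp)).1 h4

theorem types_ne_le (C : Conj P P') {j k : ℕ} (hjk : j ≤ k) (i : Fin j) (ψ : SS j → TT 0)
    (hψ : yM {y | ty (JJ x (C.R y) i) 0 ≠ ψ (st j (JJ x y))} ≤ eta 0)
    (hA : ¬ BadA (fun n => (x n).1) j i ψ k) :
    yM {y | ty (JJ x y i) (k + 1) ≠ ty (JJ x (C.S y) i) (k + 1)} ≤ 9 * eta 0 := by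
  classical
  set B : Set YY := {y | ty (JJ x y i) 0 ≠ ψ (st j (JJ x (C.S y)))} ∪
    ((⋃ l, {y | ¬ Deep l (ps (JJ x y i) l)}) ∪ C.S ⁻¹' {y | ¬ Deep k (ps (JJ x y i) k)}) with hB
  have hB1 : yM {y | ty (JJ x y i) 0 ≠ ψ (st j (JJ x (C.S y)))} ≤ eta 0 := by
    refine le_trans (measure_mono_ae ?_) ((mp_le C.mpS _).trans hψ)
    filter_upwards [C.left] with y hy h
    show ty (JJ x (C.R (C.S y)) i) 0 ≠ _
    rw [hy]; exact h
  have hB2 : yM (⋃ l, {y | ¬ Deep l (ps (JJ x y i) l)}) ≤ 2 * eta 0 :=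
    (measure_iUnion_le _).trans ((ENNReal.tsum_le_tsum fun l => notDeep_le x i l).trans
      tsum_eta.le)
  have hk0 : eta k ≤ eta 0 := by simpa using mul_eta_le (Nat.zero_le k)
  have hB3 : yM (C.S ⁻¹' {y | ¬ Deep k (ps (JJ x y i) k)}) ≤ eta 0 :=
    (mp_le C.mpS _).trans ((notDeep_le x i k).trans hk0)
  have hBm : yM B ≤ 4 * eta 0 :=
    calc _ ≤ eta 0 + (2 * eta 0 + eta 0) := (measure_union_le _ _).trans
          (add_le_add hB1 ((measure_union_le _ _).trans (add_le_add hB2 hB3)))
      _ = _ := by ring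
  have h1 : yM {y | len (k + 1) ≤
      2 * ((Finset.range (len (k + 1))).filter fun t => P.T^[t] y ∈ B).card} ≤ 2 * yM B := by
    convert markov_count P.T_mp B (len_pos (k + 1))
  have h2 : yM ({y | ¬ Deep (k + 1) (ps (JJ x y i) (k + 1))} ∪
      ⋃ n : Fin j, C.S ⁻¹' {y | ¬ Deep (k + 1) (ps (JJ x y n) (k + 1))}) ≤ eta 0 := by
    refine (measure_union_le _ _).trans (le_trans (add_le_add (notDeep_le x i _)
      ((measure_iUnion_fintype_le _ _).trans (Finset.sum_le_sum fun n _ =>
        (mp_le C.mpS _).trans (notDeep_le x n _)))) ?_)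
    refine le_trans (le_of_eq ?_) (mul_eta_le (hjk.trans (Nat.le_succ k)))
    simp only [Finset.sum_const, Finset.card_univ, Fintype.card_fin, nsmul_eq_mul]
    ring
  calc _ ≤ yM ({y | len (k + 1) ≤
          2 * ((Finset.range (len (k + 1))).filter fun t => P.T^[t] y ∈ B).card} ∪
        ({y | ¬ Deep (k + 1) (ps (JJ x y i) (k + 1))} ∪
          ⋃ n : Fin j, C.S ⁻¹' {y | ¬ Deep (k + 1) (ps (JJ x y n) (k + 1))})) := by
        refine meas_le_of_ae ?_
        filter_upwards [ae_nice C] with y hy h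
        by_contra hc
        apply h
        simp only [mem_union, mem_iUnion, mem_preimage, mem_ofPred_eq, not_or, not_exists,
          not_not, not_le] at hc
        obtain ⟨c1, c2, c3⟩ := hc
        refine types_eq (a := fun n => (x n).1) hy.1 hy.2.1 (fun _ => rfl) (fun _ => rfl) hjk i ψ
          hA (P.p_step hy.1) (P'.p_step hy.2.1) (P.p_inj hy.1) rfl rfl c2 c3 ?_
        have e1 := Finset.card_filter_add_card_filter_not (s := Finset.range (len (k + 1)))
          fun t => P.T^[t] y ∈ B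
        rw [Finset.card_range] at e1
        have e2 := cc_bound (k + 1)
        refine lt_of_lt_of_le (b := ((Finset.range (len (k + 1))).filter
          fun t => ¬ P.T^[t] y ∈ B).card) (by omega) (Finset.card_le_card fun t ht => ?_)
        simp only [Finset.mem_filter, hB, mem_union, mem_iUnion, mem_preimage, mem_ofPred_eq,
          not_or, not_exists, not_not] at ht ⊢
        rw [hy.JJ_ST, JJ_T P hy.1] at ht
        exact ht
    _ ≤ 2 * (4 * eta 0) + eta 0 := (measure_union_le _ _).trans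
        (add_le_add (h1.trans (mul_le_mul_right hBm _)) h2)
    _ = _ := by ring

theorem rigid_pos (hx : NoBad x) (C : Conj P P') (i : ℕ) :
    yM {y | ∃ d, JJ x (C.S y) i = sXi d (JJ x y i)} ≠ 0 := by
  intro h0
  obtain ⟨j, hj, ψ, hψ⟩ := approx x (fun y => ty (JJ x (C.R y) i) 0)
    ((measurable_typ 0).comp ((measurable_JJx x i).comp C.measR)) (eta 0) eta_pos (i + 1)
  obtain ⟨k, hk⟩ := eventually_atTop.1 (((hx.1 j ⟨i, hj⟩ ψ).and (hx.2 i)).and
    (eventually_ge_atTop j))
  have h1 := types_ne_le C (hk k le_rfl).2 ⟨i, hj⟩ ψ hψ (hk k le_rfl).1.1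
  have h2 : yM (⋃ l, ⋃ _ : k ≤ l, {y | Off l (JJ x y i) (JJ x (C.S y) i)}) ≤ 6 * eta 0 := by
    refine (measure_iUnion_le _).trans (le_trans (ENNReal.tsum_le_tsum
      (g := fun l => 3 * eta l) fun l => ?_) ?_)
    · by_cases hl : k ≤ l
      · simpa [hl] using off_le C i l (hk l hl).1.2
      · simp [hl]
    · rw [ENNReal.tsum_mul_left, tsum_eta]
      exact le_of_eq (by ring)
  have h3 : yM univ ≤ yM ({y | ∃ d, JJ x (C.S y) i = sXi d (JJ x y i)} ∪
      ({y | ty (JJ x y i) (k + 1) ≠ ty (JJ x (C.S y) i) (k + 1)} ∪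
        ⋃ l, ⋃ _ : k ≤ l, {y | Off l (JJ x y i) (JJ x (C.S y) i)})) := by
    refine meas_le_of_ae ?_
    filter_upwards [ae_nice C] with y hy _
    by_contra hc
    simp only [mem_union, mem_iUnion, mem_ofPred_eq, not_or, not_exists, not_not] at hc
    exact hc.1 _ (lift_eq (ξ' := JJ x (C.S y) i) (K := k + 1) (hy.1 i) rfl hc.2.1 fun l hl => hc.2.2 l (by omega))
  have h4 := h3.trans ((measure_union_le _ _).trans (add_le_add h0.le
    ((measure_union_le _ _).trans (add_le_add h1 h2))))
  rw [measure_univ] at h4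
  refine absurd eta_small (not_lt.2 (h4.trans (le_of_eq ?_)))
  ring

theorem measurableSet_W (C : Conj P P') (i : ℕ) :
    MeasurableSet {y | ∃ d, JJ x (C.S y) i = sXi d (JJ x y i)} := by
  have : {y | ∃ d, JJ x (C.S y) i = sXi d (JJ x y i)} =
      ⋃ d, ⋂ K, {y | (ps (JJ x (C.S y) i) K, ty (JJ x (C.S y) i) K) =
        (ps (sXi d (JJ x y i)) K, ty (sXi d (JJ x y i)) K)} := by
    ext y
    simp only [mem_ofPred_eq, mem_iUnion, mem_iInter, Prod.mk.injEq]
    refine exists_congr fun d => ⟨fun h K => by rw [h]; exact ⟨rfl, rfl⟩, fun h => ?_⟩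
    exact Xi.ext' rfl 0 (fun K _ => (h K).1) fun K _ => (h K).2
  rw [this]
  refine MeasurableSet.iUnion fun d => MeasurableSet.iInter fun K => ?_
  have h1 := (measurable_JJx x i).comp C.mpS.measurable
  have h2 := (measurable_sXi d).comp (measurable_JJx x i)
  exact measurableSet_eq_fun (((measurable_ps K).comp h1).prodMk ((measurable_typ K).comp h1))
    (((measurable_ps K).comp h2).prodMk ((measurable_typ K).comp h2))

theorem W_shift {ξ ξ' : Xi} (h : GoodO ξ.1.2) (h' : GoodO ξ'.1.2) (v w : Z2) :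
    (∃ d, sXi w ξ' = sXi d (sXi v ξ)) ↔ ∃ d, ξ' = sXi d ξ := by
  constructor
  · rintro ⟨d, hd⟩
    refine ⟨v + d + -w, ?_⟩
    rw [← sXi_add h, ← sXi_add h, ← hd, sXi_add h', add_neg_cancel, sXi_zero h']
  · rintro ⟨d, rfl⟩
    refine ⟨-v + d + w, ?_⟩
    rw [sXi_add h, sXi_add h]
    congr 1; abel

theorem W_T {C : Conj P P'} {y : YY} (hy : Nice C y) (i t : ℕ) :
    (∃ d, JJ x (C.S (P.T^[t] y)) i = sXi d (JJ x (P.T^[t] y) i)) ↔
      ∃ d, JJ x (C.S y) i = sXi d (JJ x y i) := by
  rw [hy.JJ_ST, JJ_T P hy.1]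
  exact W_shift (hy.1 i) (hy.2.1 i) _ _

theorem rigid_one (hx : NoBad x) (C : Conj P P') (i : ℕ) :
    ∀ᵐ y ∂yM, ∃ d, JJ x (C.S y) i = sXi d (JJ x y i) := by
  have h := (erg_actY x _ (measurableSet_W C i) fun v => ?_).resolve_left (rigid_pos hx C i)
  · exact (prob_compl_eq_zero_iff (measurableSet_W C i)).2 h
  · filter_upwards [ae_nice C, ((actY x).mp v).quasiMeasurePreserving.ae (ae_nice C)] with y h1 h2
    obtain ⟨t, ht | ht⟩ := P.orbit h1.1 v
    · have := W_T h1 i t
      rw [← ht] at this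
      exact this
    · have := (W_T h2 i t).symm
      rw [← ht] at this
      exact this

theorem rigid {x : XP} (hx : NoBad x) {P P' : Path (actY x)} (C : Conj P P') :
    ∀ᵐ y ∂yM, ∃ d : Z2, C.S y = (actY x).σ d y := by
  filter_upwards [ae_all_iff.2 (rigid_one hx C)] with y hy
  choose d hd using hy
  have h1 : ∀ i, (C.S y).1 = y.1 + io (d i) := fun i => by
    have := congrArg (fun ξ : Xi => ξ.1.2) (hd i)
    simp only [JJ, sXi] at this
    rw [add_right_comm] at this
    exact add_right_cancel this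
  have h2 : ∀ i, d i = d 0 := fun i => io_inj (add_left_cancel ((h1 i).symm.trans (h1 0)))
  refine ⟨d 0, JJ_inj x ?_⟩
  show _ = JJ x (sY x (d 0) y)
  rw [JJ_sY]
  funext i
  rw [hd i, h2 i]
  rfl

end Pool.Agent.MP_12f186_an

end

-- part MP_12f186_an.Transfer
section

/-! From the hypothesis on measures on the full shift to conjugacies on an abstract model. -/

set_option autoImplicit false
open MeasureTheory Set Filter Topology Function
open scoped ENNReal

namespace Pool.Agent.MP_12f186_an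

/-- the path conditions on the map -/
def IsPathMap (Φ : (Z2 → Bool) → Z2 → Z2) : Prop :=
  Measurable Φ ∧
    ∀ x : Z2 → Bool, (∀ v : Z2, (fun w => x (w + v)) = x → v = 0) →
      (∀ v : Z2, Φ (fun w => x (w + v)) = fun w => Φ x (w + v) - v) ∧
      Function.Bijective (Φ x) ∧
      (∀ w : Z2, Φ x w - w ∈ ({(1, 0), (-1, 0), (0, 1), (0, -1)} : Set Z2)) ∧
      (∀ v w : Z2, ∃ n : ℕ, (Φ x)^[n] v = w ∨ (Φ x)^[n] w = v)

/-- shift conjugacy implies conjugacy of the step maps -/
def Forward (Φ : (Z2 → Bool) → Z2 → Z2) : Prop :=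
  ∀ μ ν : Measure (Z2 → Bool),
    IsProbabilityMeasure μ → IsProbabilityMeasure ν →
    μ {x | ∃ v : Z2, v ≠ 0 ∧ (fun w => x (w + v)) = x} = 0 →
    ν {x | ∃ v : Z2, v ≠ 0 ∧ (fun w => x (w + v)) = x} = 0 →
    (∀ v : Z2, μ.map (fun (x : Z2 → Bool) (w : Z2) => x (w + v)) = μ) →
    (∀ v : Z2, ν.map (fun (x : Z2 → Bool) (w : Z2) => x (w + v)) = ν) →
    (∀ s : Set (Z2 → Bool), MeasurableSet s →
      (∀ v : Z2, (fun (x : Z2 → Bool) (w : Z2) => x (w + v)) ⁻¹' s = s) →
      μ s = 0 ∨ μ s = 1) →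
    (∀ s : Set (Z2 → Bool), MeasurableSet s →
      (∀ v : Z2, (fun (x : Z2 → Bool) (w : Z2) => x (w + v)) ⁻¹' s = s) →
      ν s = 0 ∨ ν s = 1) →
    (∃ f g : (Z2 → Bool) → (Z2 → Bool),
        Measurable f ∧ Measurable g ∧ μ.map f = ν ∧ ν.map g = μ ∧
        (∀ᵐ x ∂μ, g (f x) = x) ∧ (∀ᵐ y ∂ν, f (g y) = y) ∧
        ∀ v : Z2, ∀ᵐ x ∂μ, f (fun w => x (w + v)) = fun w => f x (w + v)) →
    (∃ f g : (Z2 → Bool) → (Z2 → Bool),
        Measurable f ∧ Measurable g ∧ μ.map f = ν ∧ ν.map g = μ ∧
        (∀ᵐ x ∂μ, g (f x) = x) ∧ (∀ᵐ y ∂ν, f (g y) = y) ∧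
        ∀ᵐ x ∂μ, f (fun w => x (w + Φ x 0)) = fun w => f x (w + Φ (f x) 0))

variable {Y : Type} [MeasurableSpace Y] {m : Measure Y}

/-- an equivariant coding whose values are free points -/
structure Coding (A : Act Y m) where
  κ : Y → Z2 → Bool
  meas : Measurable κ
  equiv : ∀ y ∈ A.G, ∀ v, κ (A.σ v y) = fun w => κ y (w + v)
  free : ∀ y ∈ A.G, ∀ v : Z2, (fun w => κ y (w + v)) = κ y → v = 0

/-- the path system induced by a coding -/
def Coding.path {A : Act Y m} (c : Coding A) {Φ : (Z2 → Bool) → Z2 → Z2} (hΦ : IsPathMap Φ) :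
    Path A where
  nx y := Φ (c.κ y)
  meas := hΦ.1.comp c.meas
  equiv y hy v := by rw [c.equiv y hy v]; exact (hΦ.2 _ (c.free y hy)).1 v
  bij y hy := (hΦ.2 _ (c.free y hy)).2.1
  step y hy := (hΦ.2 _ (c.free y hy)).2.2.1
  conn y hy := (hΦ.2 _ (c.free y hy)).2.2.2

theorem meas_shift (v : Z2) : Measurable fun (x : Z2 → Bool) (w : Z2) => x (w + v) :=
  measurable_pi_lambda _ fun w => measurable_pi_apply (w + v)

theorem Coding.exists_inv [StandardBorelSpace Y] [IsProbabilityMeasure m] {A : Act Y m}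
    (c : Coding A) (hc : InjOn c.κ A.G) :
    ∃ l : (Z2 → Bool) → Y, Measurable l ∧ ∀ y ∈ A.G, l (c.κ y) = y := by
  have hne : Nonempty Y := nonempty_of_isProbabilityMeasure m
  have := A.measG.standardBorel
  have h1 : MeasurableEmbedding fun y : A.G => c.κ y :=
    (c.meas.comp measurable_subtype_coe).measurableEmbedding
      fun a b h => Subtype.ext (hc a.2 b.2 h)
  obtain ⟨l, hl, hl2⟩ := h1.exists_measurable_extend (g := (Subtype.val : A.G → Y))
    measurable_subtype_coe fun _ => hne
  exact ⟨l, hl, fun y hy => congrFun hl2 ⟨y, hy⟩⟩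

theorem Coding.ae_image [StandardBorelSpace Y] {A : Act Y m} (c : Coding A)
    (hc : InjOn c.κ A.G) : ∀ᵐ x ∂(m.map c.κ), x ∈ c.κ '' A.G := by
  have h1 : MeasurableSet (c.κ '' A.G) := A.measG.image_of_measurable_injOn c.meas hc
  refine (ae_map_iff c.meas.aemeasurable h1).2 ?_
  filter_upwards [A.aeG] with y hy
  exact ⟨y, hy, rfl⟩

theorem Coding.map_free [StandardBorelSpace Y] {A : Act Y m} (c : Coding A)
    (hc : InjOn c.κ A.G) :
    (m.map c.κ) {x | ∃ v : Z2, v ≠ 0 ∧ (fun w => x (w + v)) = x} = 0 := by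
  rw [measure_eq_zero_iff_ae_notMem]
  filter_upwards [c.ae_image hc] with x hx
  obtain ⟨y, hy, rfl⟩ := hx
  rintro ⟨v, hv, h⟩
  exact hv (c.free y hy v h)

theorem Coding.map_inv {A : Act Y m} (c : Coding A) (v : Z2) :
    (m.map c.κ).map (fun (x : Z2 → Bool) (w : Z2) => x (w + v)) = m.map c.κ := by
  rw [Measure.map_map (meas_shift v) c.meas]
  have h1 : m.map (c.κ ∘ A.σ v) = m.map c.κ := by
    rw [← Measure.map_map c.meas (A.mp v).measurable, (A.mp v).map_eq]
  rw [← h1]
  refine Measure.map_congr ?_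
  filter_upwards [A.aeG] with y hy
  exact (c.equiv y hy v).symm

theorem Coding.map_erg {A : Act Y m} (hA : A.Erg) (c : Coding A) (s : Set (Z2 → Bool))
    (hs : MeasurableSet s)
    (h : ∀ v : Z2, (fun (x : Z2 → Bool) (w : Z2) => x (w + v)) ⁻¹' s = s) :
    (m.map c.κ) s = 0 ∨ (m.map c.κ) s = 1 := by
  rw [Measure.map_apply c.meas hs]
  refine hA _ (c.meas hs) fun v => ?_
  filter_upwards [A.aeG] with y hy
  rw [mem_preimage, mem_preimage, c.equiv y hy v]
  conv_rhs => rw [← h v]
  rfl

theorem Coding.map_left {A : Act Y m} (c : Coding A) {l : (Z2 → Bool) → Y} (hl : Measurable l)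
    (h : ∀ y ∈ A.G, l (c.κ y) = y) : (m.map c.κ).map l = m := by
  rw [Measure.map_map hl c.meas]
  conv_rhs => rw [← Measure.map_id (μ := m)]
  refine Measure.map_congr ?_
  filter_upwards [A.aeG] with y hy
  exact h y hy

theorem transfer [StandardBorelSpace Y] [IsProbabilityMeasure m] {A : Act Y m} (hA : A.Erg)
    (c c' : Coding A) (hc : InjOn c.κ A.G) (hc' : InjOn c'.κ A.G)
    {Φ : (Z2 → Bool) → Z2 → Z2} (hΦ : IsPathMap Φ) (hF : Forward Φ) :
    Nonempty (Conj (c.path hΦ) (c'.path hΦ)) := by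
  obtain ⟨l, hl, hl2⟩ := c.exists_inv hc
  obtain ⟨l', hl', hl2'⟩ := c'.exists_inv hc'
  obtain ⟨f, g, hf, hg, hfμ, -, hgf, -, hcomm⟩ := hF (m.map c.κ) (m.map c'.κ)
    (Measure.isProbabilityMeasure_map c.meas.aemeasurable)
    (Measure.isProbabilityMeasure_map c'.meas.aemeasurable) (c.map_free hc) (c'.map_free hc')
    c.map_inv c'.map_inv (c.map_erg hA) (c'.map_erg hA)
    ⟨c'.κ ∘ l, c.κ ∘ l', c'.meas.comp hl, c.meas.comp hl',
      by rw [← Measure.map_map c'.meas hl, c.map_left hl hl2],
      by rw [← Measure.map_map c.meas hl', c'.map_left hl' hl2'],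
      by
        filter_upwards [c.ae_image hc] with x hx
        obtain ⟨y, hy, rfl⟩ := hx
        simp only [comp_apply, hl2 y hy, hl2' y hy],
      by
        filter_upwards [c'.ae_image hc'] with x hx
        obtain ⟨y, hy, rfl⟩ := hx
        simp only [comp_apply, hl2 y hy, hl2' y hy],
      fun v => by
        filter_upwards [c.ae_image hc] with x hx
        obtain ⟨y, hy, rfl⟩ := hx
        simp only [comp_apply, hl2 y hy]
        rw [← c.equiv y hy v, hl2 _ (A.mapsG v y hy), c'.equiv y hy v]⟩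
  have him : ∀ᵐ y ∂m, f (c.κ y) ∈ c'.κ '' A.G := by
    have h1 := c'.ae_image hc'
    rw [← hfμ] at h1
    exact ae_of_ae_map c.meas.aemeasurable (ae_of_ae_map hf.aemeasurable h1)
  refine ⟨⟨l' ∘ f ∘ c.κ, l ∘ g ∘ c'.κ, ⟨hl'.comp (hf.comp c.meas), ?_⟩,
    hl.comp (hg.comp c'.meas), ?_, ?_⟩⟩
  · rw [← Measure.map_map hl' (hf.comp c.meas), ← Measure.map_map hf c.meas, hfμ,
      c'.map_left hl' hl2']
  · filter_upwards [A.aeG, him, ae_of_ae_map c.meas.aemeasurable hgf] with y hy h1 h2
    obtain ⟨z, hz, h3⟩ := h1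
    simp only [comp_apply]
    rw [← h3, hl2' z hz, h3, h2, hl2 y hy]
  · filter_upwards [A.aeG, him, ae_of_ae_map c.meas.aemeasurable hcomm] with y hy h1 h2
    obtain ⟨z, hz, h3⟩ := h1
    show l' (f (c.κ (A.σ (Φ (c.κ y) 0) y))) =
      A.σ (Φ (c'.κ (l' (f (c.κ y)))) 0) (l' (f (c.κ y)))
    rw [c.equiv y hy, h2, ← h3, hl2' z hz, ← c'.equiv z hz, hl2' _ (A.mapsG _ z hz)]

end Pool.Agent.MP_12f186_an

end

-- part MP_12f186_an.Coding
section

/-! The binary coding is measurable, equivariant and injective on fibres. -/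

set_option autoImplicit false
open MeasureTheory ProbabilityTheory Set Filter Topology Function
open scoped ENNReal

namespace Pool.Agent.MP_12f186_an

theorem measurable_bitP : Measurable bitP := by
  refine Measurable.exists fun k => ?_
  have h0 : ∀ j, Measurable fun ω : Om => ps (ω 0) j := fun j =>
    (measurable_ps j).comp (measurable_pi_apply 0)
  refine ((measurable_of_countable fun z : Z2 => z = 0).comp (h0 k)).and
    (((measurable_of_countable fun z : Z2 => z ≠ 0).comp (h0 (k + 1))).and ?_)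
  refine meas_of_countable (h0 (k + 1)) (fun c (ω : Om) => bitK k (dg k c)
    (enc k fun n => ty (sXi (-c) (ω n)) (k + 1))) fun c => ?_
  exact (measurable_of_countable fun t : Fin (k + 1) → TT (k + 1) =>
    bitK k (dg k c) (enc k t)).comp (measurable_pi_lambda _ fun n =>
      (measurable_typ (k + 1)).comp ((measurable_sXi (-c)).comp (measurable_pi_apply (n : ℕ))))

open Classical in
theorem measurable_kap : Measurable kap :=
  measurable_pi_lambda _ fun v => (measurable_of_countable fun p : Prop => decide p).comp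
    (measurable_bitP.comp (measurable_sOm v))

theorem sOm_sOm {ω : Om} (h : GoodOm ω) (v w : Z2) : sOm w (sOm v ω) = sOm (v + w) ω :=
  funext fun n => sXi_add (h n) v w

theorem kap_equiv {ω : Om} (h : GoodOm ω) (v : Z2) : kap (sOm v ω) = fun w => kap ω (w + v) := by
  funext w
  unfold kap
  rw [sOm_sOm h, add_comm v w]

theorem md_zero' (j : ℕ) : md j 0 = 0 := by simp [md]

theorem bitP_iff {ω : Om} {k : ℕ} (h1 : ps (ω 0) k = 0) (h2 : ps (ω 0) (k + 1) ≠ 0) :
    bitP ω ↔ bitK k (dg k (ps (ω 0) (k + 1)))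
      (enc k fun n => ty (sXi (-(ps (ω 0) (k + 1))) (ω n)) (k + 1)) := by
  refine ⟨?_, fun h => ⟨k, h1, h2, h⟩⟩
  rintro ⟨j, a1, a2, a3⟩
  obtain rfl : j = k := by
    rcases lt_trichotomy j k with h | h | h
    · exact (a2 (by rw [← md_ps (Nat.succ_le_of_lt h), h1, md_zero'])).elim
    · exact h
    · exact (h2 (by rw [← md_ps (Nat.succ_le_of_lt h), a1, md_zero'])).elim
  exact a3

/-- the corner of the level `k` tile of index `u` -/
def cor (k : ℕ) (u : Pos k) : Z2 := ((bb k : ℤ) * (u.1 : ℕ), (bb k : ℤ) * (u.2 : ℕ))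

theorem md_mul (k : ℕ) (a b : ℤ) : md k ((bb k : ℤ) * a, (bb k : ℤ) * b) = 0 := by
  simp [md]

theorem dg1_mul (k : ℕ) (a : ℤ) : ((dg1 k (bb k * a) : ℕ) : ℤ) = a % qq k := by
  rw [dg1_val, Int.mul_ediv_cancel_left _ (bbZ_pos k).ne']

theorem md_succ_mul (k : ℕ) (a b : ℤ) : md (k + 1) ((bb k : ℤ) * a, (bb k : ℤ) * b) =
    cor k (dg k ((bb k : ℤ) * a, (bb k : ℤ) * b)) := by
  rw [md_succ_eq, md_mul]
  simp [cor]

theorem dg_cor (k : ℕ) (u : Pos k) : dg k (cor k u) = u := by
  have h : ∀ x : Fin (qq k), dg1 k (bb k * (x : ℕ)) = x := fun x => by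
    apply Fin.ext
    have := dg1_mul k (x : ℕ)
    rw [Int.emod_eq_of_lt (by positivity) (by exact_mod_cast x.2)] at this
    exact_mod_cast this
  exact Prod.ext (h u.1) (h u.2)

theorem kap_site {ω : Om} {k : ℕ} {v : Z2} {u : Pos k}
    (h : md (k + 1) (ps (ω 0) (k + 1) + v) = cor k u) (hu : (u.1 : ℕ) ≠ 0 ∨ (u.2 : ℕ) ≠ 0) :
    kap ω v = true ↔ bitK k u (enc k fun n => ty (sXi (-(cor k u)) (sXi v (ω n))) (k + 1)) := by
  have h1 : ps (sOm v ω 0) (k + 1) = cor k u := (ps_sXi _ _ _).trans h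
  have h2 : ps (sOm v ω 0) k = 0 := by rw [← md_ps (Nat.le_succ k), h1, cor, md_mul]
  have h3 : ps (sOm v ω 0) (k + 1) ≠ 0 := by
    rw [h1]
    intro e
    have hb := (bbZ_pos k).ne'
    simp only [cor, Prod.mk_eq_zero, mul_eq_zero, hb, false_or, Nat.cast_eq_zero] at e
    exact hu.elim (fun a => a e.1) fun a => a e.2
  have h4 : kap ω v = true ↔ bitP (sOm v ω) := by simp [kap]
  rw [h4, bitP_iff h2 h3, h1, dg_cor]
  rfl

theorem exists_row {q U U' : ℤ} (hq : 10 ≤ q) :
    ∃ w, (U + w) % q ≠ 0 ∧ ((U' + w) % q = 1 ∨ (U' + w) % q = 2) := by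
  by_cases h : (U + (1 - U')) % q = 0
  · refine ⟨2 - U', ?_, Or.inr ?_⟩
    · rw [show U + (2 - U') = U + (1 - U') + 1 by ring, ← Int.emod_add_emod, h, zero_add,
        Int.emod_eq_of_lt (by norm_num) (by omega)]
      norm_num
    · rw [add_sub_cancel]
      exact Int.emod_eq_of_lt (by norm_num) (by omega)
  · refine ⟨1 - U', h, Or.inl ?_⟩
    rw [add_sub_cancel]
    exact Int.emod_eq_of_lt (by norm_num) (by omega)

theorem sub_emod_ne {q : ℕ} {x y : Fin q} (h : x ≠ y) : (((y : ℕ) : ℤ) + -(x : ℕ)) % q ≠ 0 := by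
  intro e
  have h1 := x.2
  have h2 := y.2
  have h3 := Int.eq_zero_of_dvd_of_natAbs_lt_natAbs (Int.dvd_of_emod_eq_zero e) (by omega)
  exact h (Fin.ext (by omega))

theorem kap_off_step {ω ω' : Om} (hk : kap ω = kap ω') {k : ℕ}
    (h : ps (ω 0) k = ps (ω' 0) k) : ps (ω 0) (k + 1) = ps (ω' 0) (k + 1) := by
  have e : ∀ ξ : Xi, ps ξ (k + 1) = ((bb k : ℤ) * ((dg k (ps ξ (k + 1))).1 : ℕ) + (ps ξ k).1,
      (bb k : ℤ) * ((dg k (ps ξ (k + 1))).2 : ℕ) + (ps ξ k).2) := fun ξ => by
    rw [← md_ps (Nat.le_succ k) ξ, ← md_succ_eq, md_of_inBox (ps_inBox ξ _)]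
  suffices dg k (ps (ω 0) (k + 1)) = dg k (ps (ω' 0) (k + 1)) by rw [e, e (ω' 0), this, h]
  have hq : (10 : ℤ) ≤ qq k := by exact_mod_cast ten_le_qq k
  have site : ∀ (ν : Om) (a b : ℤ) (U : Pos k), dg k (ps (ν 0) (k + 1)) = U →
      ps (ν 0) k = ps (ω 0) k → (((U.1 : ℕ) + a) % qq k ≠ 0 ∨ ((U.2 : ℕ) + b) % qq k ≠ 0) →
      ∃ (u : Pos k) (d : Pos k → Bool), ((u.1 : ℕ) : ℤ) = ((U.1 : ℕ) + a) % qq k ∧
        ((u.2 : ℕ) : ℤ) = ((U.2 : ℕ) + b) % qq k ∧
        (kap ν (((bb k : ℤ) * a, (bb k : ℤ) * b) - ps (ω 0) k) = true ↔ bitK k u d) := by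
    intro ν a b U hU hz hne
    have a1 := dg1_mul k ((U.1 : ℕ) + a)
    have a2 := dg1_mul k ((U.2 : ℕ) + b)
    refine ⟨dg k ((bb k : ℤ) * ((U.1 : ℕ) + a), (bb k : ℤ) * ((U.2 : ℕ) + b)), _, a1, a2,
      kap_site ?_ ?_⟩
    · rw [← md_succ_mul, e, hU, hz]
      congr 1
      ext <;> simp <;> ring
    · simp only [dg]
      omega
  generalize hU : dg k (ps (ω 0) (k + 1)) = U
  generalize hU' : dg k (ps (ω' 0) (k + 1)) = U'
  by_contra hne
  rcases not_and_or.1 (fun hc => hne (Prod.ext_iff.2 hc)) with h1 | h1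
  · obtain ⟨w, w1, w2⟩ := exists_row (U := (U.2 : ℕ)) (U' := (U'.2 : ℕ)) hq
    have b0 := sub_emod_ne h1
    obtain ⟨u, d, c1, -, c3⟩ := site ω (-(U.1 : ℕ)) w U hU rfl (Or.inr w1)
    obtain ⟨u', d', c1', c2', c3'⟩ := site ω' (-(U.1 : ℕ)) w U' hU' h.symm (Or.inl b0)
    rw [add_neg_cancel, Int.zero_emod] at c1
    have := c3'.1 (hk ▸ c3.2 (Or.inl (by omega)))
    unfold bitK at this
    omega
  · obtain ⟨w, w1, w2⟩ := exists_row (U := (U.1 : ℕ)) (U' := (U'.1 : ℕ)) hq
    have b0 := sub_emod_ne h1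
    obtain ⟨u, d, -, c2, c3⟩ := site ω w (-(U.2 : ℕ)) U hU rfl (Or.inl w1)
    obtain ⟨u', d', c1', c2', c3'⟩ := site ω' w (-(U.2 : ℕ)) U' hU' h.symm (Or.inr b0)
    rw [add_neg_cancel, Int.zero_emod] at c2
    have := c3'.1 (hk ▸ c3.2 (Or.inr (Or.inl (by omega))))
    unfold bitK at this
    omega

theorem ps_zero (ξ : Xi) : ps ξ 0 = 0 := by
  obtain ⟨h1, h2, h3, h4⟩ := ps_inBox ξ 0
  rw [bb_zero] at h2 h4
  ext
  · simp only [Prod.fst_zero]; omega
  · simp only [Prod.snd_zero]; omega

theorem kap_off {ω ω' : Om} (h : GoodOm ω) (h' : GoodOm ω') (hk : kap ω = kap ω') :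
    (ω 0).1.2 = (ω' 0).1.2 := by
  have _ := And.intro h h'
  refine ext_pos 0 fun K _ => ?_
  induction K with
  | zero => exact (ps_zero _).trans (ps_zero _).symm
  | succ K ih => exact kap_off_step hk (ih (Nat.zero_le K))

theorem kap_inj {ω ω' : Om} (h : GoodOm ω) (h' : GoodOm ω') (hk : kap ω = kap ω')
    (h1 : ∀ n, (ω n).1 = (ω' n).1) : ω = ω' := by
  have hp : ∀ n K, ps (ω' n) K = ps (ω n) K := fun n K => by simp only [ps, h1]
  funext n
  refine Xi.ext' (by rw [h1]) (n + 1) (fun K _ => (hp n K).symm) fun K hK => ?_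
  obtain ⟨k, rfl⟩ : ∃ k, K = k + 1 := ⟨K - 1, by omega⟩
  obtain ⟨z, z1, z2⟩ : ∃ z, InBox (k + 1) (ps (ω n) (k + 1) + z) ∧
      md (k + 1) (ps (ω 0) (k + 1) + z) = 0 := by
    refine ⟨md (k + 1) (ps (ω n) (k + 1) - ps (ω 0) (k + 1)) - ps (ω n) (k + 1), ?_, ?_⟩
    · rw [add_sub_cancel]
      exact md_inBox _ _
    · rw [add_comm (ps _ _), sub_add, sub_eq_add_neg (md _ _), md_add_md, add_neg_cancel,
        md_zero']
  have site : ∀ ν : Om, GoodOm ν → ps (ν 0) (k + 1) = ps (ω 0) (k + 1) → ∀ u : Pos k,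
      3 ≤ (u.1 : ℕ) → 3 ≤ (u.2 : ℕ) → kap ν (z + cor k u) =
        enc k (fun m => ty (sXi z (ν m)) (k + 1)) u := by
    intro ν hν e u u1 u2
    have a1 : md (k + 1) (ps (ν 0) (k + 1) + (z + cor k u)) = cor k u := by
      rw [e, ← add_assoc, ← md_add_md, z2, zero_add, cor, md_succ_mul, ← cor, dg_cor]
    rw [Bool.eq_iff_iff, kap_site a1 (Or.inl (by omega))]
    simp only [sXi_add (hν _), add_neg_cancel_right, bitK]
    constructor
    · rintro (a | a | a)
      · omega
      · omega
      · exact a.2.2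
    · exact fun a => Or.inr (Or.inr ⟨u1, u2, a⟩)
  have := congrFun (Classical.choose_spec (exists_enc k) (fun m => ty (sXi z (ω m)) (k + 1))
    (fun m => ty (sXi z (ω' m)) (k + 1)) fun u u1 u2 =>
      (site ω h rfl u u1 u2).symm.trans (hk ▸ site ω' h' (hp 0 _) u u1 u2)) ⟨n, by omega⟩
  rwa [ty_sXi (h n) z1, ty_sXi (h' n) (by rwa [hp])] at this

theorem kap_free {ω : Om} (h : GoodOm ω) (v : Z2) (hv : (fun w => kap ω (w + v)) = kap ω) :
    v = 0 := by
  have h1 : GoodOm (sOm v ω) := fun n => (h n).add v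
  have h2 : (ω 0).1.2 + io v = (ω 0).1.2 := kap_off h1 h ((kap_equiv h v).trans hv)
  exact io_inj (by rw [io_zero]; exact add_eq_left.1 h2)

noncomputable def codOm : Coding actOm where
  κ := kap
  meas := measurable_kap
  equiv _ hy v := kap_equiv hy v
  free _ hy v := kap_free hy v

noncomputable def codY (x : XP) (π : Equiv.Perm ℕ) : Coding (actY x) where
  κ y := kap fun n => JJ x y (π n)
  meas := measurable_kap.comp (measurable_pi_lambda _ fun n => (measurable_pi_apply (π n)).comp
    (measurable_JJ.comp (measurable_const.prodMk measurable_id)))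
  equiv y hy v := by
    have h : GoodOm fun n => JJ x y (π n) := fun n => hy (π n)
    rw [← kap_equiv h v]
    change kap (fun n => JJ x (sY x v y) (π n)) = _
    rw [JJ_sY]
    rfl
  free y hy v := kap_free (ω := fun n => JJ x y (π n)) (fun n => hy (π n)) v

theorem codY_inj (x : XP) (π : Equiv.Perm ℕ) : InjOn (codY x π).κ (actY x).G := by
  intro y hy y' hy' e
  have h : GoodOm fun n => JJ x y (π n) := fun n => hy (π n)
  have h' : GoodOm fun n => JJ x y' (π n) := fun n => hy' (π n)
  have h1 : y.1 + (x (π 0)).2 = y'.1 + (x (π 0)).2 := kap_off h h' e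
  have h2 := kap_inj h h' e fun n => by simp only [JJ, add_right_cancel h1]
  refine JJ_inj x (funext fun n => ?_)
  simpa using congrFun h2 (π.symm n)

end Pool.Agent.MP_12f186_an

end

-- part MP_12f186_an.Main
section

/-! No Borel choice of paths sends conjugate measures to conjugate step maps. -/

set_option autoImplicit false
open MeasureTheory ProbabilityTheory Set Filter Topology Function
open scoped ENNReal

namespace Pool.Agent.MP_12f186_an

theorem cofinite_cg {α : Type} [Countable α] : (cofinite : Filter α).IsCountablyGenerated := by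
  have : (cofinite : Filter α) = ⨅ a : α, 𝓟 {a}ᶜ := by
    apply le_antisymm
    · exact le_iInf fun a => le_principal_iff.2 (finite_singleton a).compl_mem_cofinite
    · exact le_cofinite_iff_compl_singleton_mem.2 fun a => mem_iInf_of_mem a (mem_principal_self _)
  rw [this]; infer_instance

theorem not_forward {Φ : (Z2 → Bool) → Z2 → Z2} (hΦ : IsPathMap Φ) : ¬ Forward Φ := by
  intro hF
  apply order_final (codOm.path hΦ)
  refine outer xiM (fun v => {ω | (codOm.path hΦ).bef ω 0 v})
    (fun v => (codOm.path hΦ).measurableSet_bef 0 v) (fun π => ?_) _ (by simp)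
  have hπ : Measurable fun (ω : Om) (n : ℕ) => ω (π n) :=
    measurable_pi_lambda _ fun n => measurable_pi_apply _
  set B : Z2 → Set Om := fun v => {ω | ¬ ((codOm.path hΦ).bef ω 0 v ↔
    (codOm.path hΦ).bef (fun n => ω (π n)) 0 v)} with hB
  have hBm : ∀ v, MeasurableSet (B v) := fun v =>
    ((measurableSet_setOfPred.1 ((codOm.path hΦ).measurableSet_bef 0 v)).iff
      ((measurableSet_setOfPred.1 ((codOm.path hΦ).measurableSet_bef 0 v)).comp hπ)).not.setOf
  have h1 : ∀ v, omM (B v) = ∫⁻ x, yM (Prod.mk x ⁻¹' (uncurry JJ ⁻¹' B v)) ∂xpM := fun v => by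
    rw [← mp_JJ.measure_preimage (hBm v).nullMeasurableSet,
      Measure.prod_apply (measurable_JJ (hBm v))]
  change Tendsto (fun v => omM (B v)) cofinite (𝓝 0)
  simp only [h1]
  have h0 : (0 : ℝ≥0∞) = ∫⁻ _ : XP, 0 ∂xpM := by simp
  rw [h0]
  have := @cofinite_cg Z2 _
  refine tendsto_lintegral_filter_of_dominated_convergence (fun _ => 1)
    (Eventually.of_forall fun v => measurable_measure_prodMk_left (measurable_JJ (hBm v)))
    (Eventually.of_forall fun v => ae_of_all _ fun x => prob_le_one) (by simp) ?_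
  filter_upwards [ae_noBad] with x hx
  obtain ⟨C⟩ := transfer (erg_actY x) (codY x 1) (codY x π) (codY_inj x 1) (codY_inj x π) hΦ hF
  exact agree C (rigid hx C)

end Pool.Agent.MP_12f186_an

end
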