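import Pool.Agent.MP_12f186_an.Mg.Main
import Pool.Agent.MP_12f186_an.OwnDefs

/-! Transfer of the main theorem to the literal definitions. -/

set_option autoImplicit false
open MeasureTheory Set Filter Function

namespace Pool.Agent.MP_12f186_an.Own

/-- the free part as a set -/
def FS : Set (ℤ × ℤ → Bool) := {x | ∀ g : ℤ × ℤ, g ≠ 0 → shift g x ≠ x}

theorem meas_shift' (g : ℤ × ℤ) : Measurable (shift g) := meas_shift g

theorem measurableSet_FS : MeasurableSet FS := by
  have : FS = ⋂ g : ℤ × ℤ, ⋂ _ : g ≠ 0, {x | shift g x = x}ᶜ := by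
    ext x; simp [FS]
  rw [this]
  exact MeasurableSet.iInter fun g => MeasurableSet.iInter fun _ =>
    (measurableSet_eq_fun (meas_shift' g) measurable_id).compl

theorem emb_val : MeasurableEmbedding (Subtype.val : X2 → (ℤ × ℤ → Bool)) :=
  MeasurableEmbedding.subtype_coe measurableSet_FS

theorem range_val : range (Subtype.val : X2 → (ℤ × ℤ → Bool)) = FS := Subtype.range_coe

instance : StandardBorelSpace X2 := measurableSet_FS.standardBorel

theorem meas_sigma (g : ℤ × ℤ) : Measurable (sigma g) :=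
  ((meas_shift' g).comp measurable_subtype_coe).subtype_mk

theorem sigma_add (g k : ℤ × ℤ) (x : X2) : sigma k (sigma g x) = sigma (k + g) x := by
  refine Subtype.ext (funext fun w => ?_)
  simp only [sigma, shift, add_assoc]

theorem sigma_zero (x : X2) : sigma 0 x = x := by
  refine Subtype.ext (funext fun w => ?_)
  simp only [sigma, shift, add_zero]

/-- the successor map of a path -/
noncomputable def nxt (P : XH) (v : ℤ × ℤ) : ℤ × ℤ := (P.2.1 v).exists.choose.1.2

theorem nxt_eq {P : XH} {e : Edge} (he : P.1 e = true) : nxt P e.1.1 = e.1.2 := by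
  have h := (P.2.1 e.1.1).exists.choose_spec
  have := (P.2.1 e.1.1).unique h ⟨he, rfl⟩
  unfold nxt
  rw [this]

theorem exists_edge (P : XH) (v : ℤ × ℤ) : ∃ e : Edge, P.1 e = true ∧ e.1 = (v, nxt P v) := by
  obtain ⟨e, he, hv⟩ := (P.2.1 v).exists
  refine ⟨e, he, Prod.ext hv ?_⟩
  rw [← hv, nxt_eq he]

theorem nxt_eq' {P : XH} {e : Edge} {a b : ℤ × ℤ} (he : P.1 e = true) (h : e.1 = (a, b)) :
    nxt P a = b := by
  have := nxt_eq he
  rwa [h] at this

theorem nxt_bij (P : XH) : Bijective (nxt P) := by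
  constructor
  · intro a b hab
    obtain ⟨e, he, h⟩ := exists_edge P a
    obtain ⟨e', he', h'⟩ := exists_edge P b
    have := (P.2.2.1 (nxt P a)).unique (y₁ := e) (y₂ := e') ⟨he, by rw [h]⟩
      ⟨he', by rw [h', hab]⟩
    rw [this, h'] at h
    exact (congrArg Prod.fst h).symm
  · intro w
    obtain ⟨e, he, hw⟩ := (P.2.2.1 w).exists
    exact ⟨e.1.1, by rw [nxt_eq he, hw]⟩

theorem nxt_step (P : XH) (v : ℤ × ℤ) :
    nxt P v - v ∈ ({(1, 0), (-1, 0), (0, 1), (0, -1)} : Set (ℤ × ℤ)) := by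
  obtain ⟨e, -, h⟩ := exists_edge P v
  have := e.2
  rwa [h] at this

theorem nxt_conn (P : XH) (v w : ℤ × ℤ) :
    ∃ n : ℕ, (nxt P)^[n] v = w ∨ (nxt P)^[n] w = v := by
  have hinj : ∀ n : ℕ, Injective (nxt P)^[n] := fun n => (nxt_bij P).1.iterate n
  have key : ∃ a b : ℕ, (nxt P)^[a] v = (nxt P)^[b] w := by
    have h := P.2.2.2 v w
    induction h with
    | rel x y hxy =>
      obtain ⟨e, he, h⟩ := hxy
      exact ⟨1, 0, nxt_eq' he h⟩
    | refl x => exact ⟨0, 0, rfl⟩
    | symm x y _ ih =>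
      obtain ⟨a, b, h⟩ := ih
      exact ⟨b, a, h.symm⟩
    | trans x y z _ _ ih1 ih2 =>
      obtain ⟨a, b, h⟩ := ih1
      obtain ⟨c, d, h'⟩ := ih2
      refine ⟨c + a, b + d, ?_⟩
      rw [iterate_add_apply, h, ← iterate_add_apply, add_comm c b, iterate_add_apply, h',
        ← iterate_add_apply]
  obtain ⟨a, b, h⟩ := key
  rcases le_total a b with hab | hab
  · obtain ⟨c, rfl⟩ := Nat.exists_eq_add_of_le hab
    rw [iterate_add_apply] at h
    exact ⟨c, Or.inr (hinj a h).symm⟩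
  · obtain ⟨c, rfl⟩ := Nat.exists_eq_add_of_le hab
    rw [iterate_add_apply] at h
    exact ⟨c, Or.inl (hinj b h)⟩

theorem meas_nxt : Measurable nxt := by
  refine measurable_pi_lambda _ fun v => measurable_to_countable fun P => ?_
  obtain ⟨e, he, h⟩ := exists_edge P v
  have : (fun Q : XH => nxt Q v) ⁻¹' {nxt P v} = {Q : XH | Q.1 e = true} := by
    ext Q
    simp only [mem_preimage, mem_singleton_iff, mem_ofPred_eq]
    constructor
    · intro hQ
      obtain ⟨e', he', h'⟩ := exists_edge Q v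
      have : e' = e := Subtype.ext (by rw [h, h', hQ])
      rwa [← this]
    · intro hQ
      exact nxt_eq' hQ h
  rw [this]
  exact measurableSet_eq_fun ((measurable_pi_apply e).comp measurable_subtype_coe) measurable_const

theorem exists_pathMap (Φ : X2 → XH) (hΦ : Measurable Φ)
    (heq : ∀ (g : ℤ × ℤ) (x : X2) (e : Edge), (Φ (sigma g x)).1 e = (Φ x).1 (translate g e)) :
    ∃ Ψ : (ℤ × ℤ → Bool) → ℤ × ℤ → ℤ × ℤ, IsPathMap Ψ ∧ ∀ x : X2, Ψ x.1 = nxt (Φ x) := by
  obtain ⟨Ψ, hΨ, h⟩ := emb_val.exists_measurable_extend (g := fun x => nxt (Φ x))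
    (meas_nxt.comp hΦ) fun _ => inferInstance
  have h' : ∀ x : X2, Ψ x.1 = nxt (Φ x) := fun x => congrFun h x
  refine ⟨Ψ, ⟨hΨ, fun x hx => ?_⟩, h'⟩
  let y : X2 := ⟨x, fun g hg hh => hg (hx g hh)⟩
  have hy : Ψ x = nxt (Φ y) := h' y
  refine ⟨fun v => ?_, ?_, ?_, ?_⟩
  · have h1 : Ψ (fun w => x (w + v)) = nxt (Φ (sigma v y)) := h' (sigma v y)
    rw [h1, hy]
    funext w
    obtain ⟨e, he, h2⟩ := exists_edge (Φ (sigma v y)) w
    rw [heq] at he
    have h3 := nxt_eq he
    simp only [translate, h2] at h3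
    rw [h3, add_sub_cancel_right]
  · rw [hy]; exact nxt_bij _
  · rw [hy]; exact nxt_step _
  · rw [hy]; exact nxt_conn _

theorem ae_FS {μ : Measure (ℤ × ℤ → Bool)}
    (h : μ {x | ∃ v : ℤ × ℤ, v ≠ 0 ∧ (fun w => x (w + v)) = x} = 0) : ∀ᵐ x ∂μ, x ∈ FS := by
  rw [measure_eq_zero_iff_ae_notMem] at h
  filter_upwards [h] with x hx g hg hh
  exact hx ⟨g, hg, hh⟩

theorem map_comap_val {μ : Measure (ℤ × ℤ → Bool)} (h : ∀ᵐ x ∂μ, x ∈ FS) :
    (μ.comap (Subtype.val : X2 → _)).map Subtype.val = μ := by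
  rw [emb_val.map_comap, range_val]
  exact Measure.restrict_eq_self_of_ae_mem h

theorem map_val_inj {a b : Measure X2}
    (h : a.map (Subtype.val : X2 → _) = b.map Subtype.val) : a = b := by
  rw [← emb_val.comap_map a, h, emb_val.comap_map]

theorem isErgodicInvariant {μ : Measure X2} [IsProbabilityMeasure (μ.map Subtype.val)]
    (h1 : ∀ v : ℤ × ℤ, (μ.map Subtype.val).map (shift v) = μ.map Subtype.val)
    (h2 : ∀ s : Set (ℤ × ℤ → Bool), MeasurableSet s → (∀ v : ℤ × ℤ, shift v ⁻¹' s = s) →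
      (μ.map Subtype.val) s = 0 ∨ (μ.map Subtype.val) s = 1) : IsErgodicInvariant μ := by
  refine ⟨⟨?_⟩, fun g => ⟨meas_sigma g, map_val_inj ?_⟩, fun E hE hinv => ?_⟩
  · have := measure_univ (μ := μ.map (Subtype.val : X2 → _))
    rwa [emb_val.map_apply, preimage_univ] at this
  · rw [Measure.map_map measurable_subtype_coe (meas_sigma g), ← h1 g,
      Measure.map_map (meas_shift' g) measurable_subtype_coe]
    rfl
  · have h3 := h2 (Subtype.val '' E) (emb_val.measurableSet_image.2 hE) fun v => ?_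
    · rwa [emb_val.map_apply, preimage_image_eq _ Subtype.val_injective] at h3
    · ext x
      constructor
      · rintro ⟨y, hy, hxy⟩
        refine ⟨sigma (-v) y, ?_, ?_⟩
        · rw [← hinv v, mem_preimage, sigma_add, add_neg_cancel, sigma_zero]; exact hy
        · funext w
          show y.1 (w + -v) = x w
          rw [hxy]
          simp [shift]
      · rintro ⟨y, hy, rfl⟩
        refine ⟨sigma v y, ?_, rfl⟩
        rw [← hinv v] at hy
        exact hy

theorem map_comap_sub {μ : Measure X2} {A : Set X2} (hA : MeasurableSet A) (h : μ Aᶜ = 0) :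
    (μ.comap (Subtype.val : A → X2)).map Subtype.val = μ := by
  rw [map_comap_subtype_coe hA]
  exact Measure.restrict_eq_self_of_ae_mem h

theorem conjugate_of_weak {μ ν : Measure X2} (hμ : ∀ g, MeasurePreserving (sigma g) μ μ)
    {f g : (ℤ × ℤ → Bool) → (ℤ × ℤ → Bool)} (hf : Measurable f) (hg : Measurable g)
    (hfμ : (μ.map Subtype.val).map f = ν.map Subtype.val)
    (hgf : ∀ᵐ x ∂(μ.map Subtype.val), g (f x) = x)
    (hc : ∀ v : ℤ × ℤ, ∀ᵐ x ∂(μ.map Subtype.val), f (shift v x) = shift v (f x)) :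
    Conjugate sigma μ ν := by
  let A0 : Set X2 :=
    {x | f x.1 ∈ FS ∧ g (f x.1) = x.1 ∧ ∀ v, f (shift v x.1) = shift v (f x.1)}
  have hfv : Measurable fun x : X2 => f x.1 := hf.comp measurable_subtype_coe
  have hA0 : MeasurableSet A0 := by
    refine (hfv measurableSet_FS).inter ((measurableSet_eq_fun (hg.comp hfv)
      measurable_subtype_coe).inter ?_)
    have : {x : X2 | ∀ v, f (shift v x.1) = shift v (f x.1)} =
        ⋂ v, {x : X2 | f (shift v x.1) = shift v (f x.1)} := by ext x; simp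
    show MeasurableSet {x : X2 | ∀ v, f (shift v x.1) = shift v (f x.1)}
    rw [this]
    exact MeasurableSet.iInter fun v => measurableSet_eq_fun
      (hf.comp ((meas_shift' v).comp measurable_subtype_coe)) ((meas_shift' v).comp hfv)
  have hae0 : ∀ᵐ x ∂μ, x ∈ A0 := by
    have h1 : ∀ᵐ y ∂(ν.map (Subtype.val : X2 → _)), y ∈ FS :=
      emb_val.ae_map_iff.2 (ae_of_all _ fun y => y.2)
    rw [← hfμ] at h1
    have h2 := emb_val.ae_map_iff.1 (ae_of_ae_map hf.aemeasurable h1)
    have h3 := emb_val.ae_map_iff.1 hgf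
    have h4 := emb_val.ae_map_iff.1 (ae_all_iff.2 hc)
    filter_upwards [h2, h3, h4] with x a b c
    exact ⟨a, b, c⟩
  let A : Set X2 := ⋂ v, sigma v ⁻¹' A0
  have hA : MeasurableSet A := MeasurableSet.iInter fun v => meas_sigma v hA0
  have haeA : μ Aᶜ = 0 := by
    have : ∀ᵐ x ∂μ, ∀ v, sigma v x ∈ A0 :=
      ae_all_iff.2 fun v => (hμ v).quasiMeasurePreserving.ae hae0
    have h2 : ∀ᵐ x ∂μ, x ∈ A := by
      filter_upwards [this] with x hx
      exact mem_iInter.2 hx
    exact h2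
  have hAs : ∀ v x, x ∈ A → sigma v x ∈ A := fun v x hx => mem_iInter.2 fun w => by
    rw [mem_preimage, sigma_add]
    exact mem_iInter.1 hx _
  have hA00 : ∀ x ∈ A, x ∈ A0 := fun x hx => by
    have := mem_iInter.1 hx 0
    rwa [mem_preimage, sigma_zero] at this
  have hinv : ∀ S : Set X2, (∀ v x, x ∈ S → sigma v x ∈ S) → ∀ v, sigma v ⁻¹' S = S := by
    intro S hS v
    ext x
    refine ⟨fun hx => ?_, hS v x⟩
    have := hS (-v) _ hx
    rwa [sigma_add, neg_add_cancel, sigma_zero] at this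
  let F : A → X2 := fun x => ⟨f x.1.1, (hA00 x.1 x.2).1⟩
  have hFm : Measurable F := (hfv.comp measurable_subtype_coe).subtype_mk
  have hFi : Injective F := by
    intro a b hab
    have h1 : f a.1.1 = f b.1.1 := congrArg Subtype.val hab
    refine Subtype.ext (Subtype.ext ?_)
    rw [← (hA00 a.1 a.2).2.1, h1, (hA00 b.1 b.2).2.1]
  have := hA.standardBorel
  have hFe : MeasurableEmbedding F := hFm.measurableEmbedding hFi
  have hFc : ∀ v (x y : A), (y : X2) = sigma v x → F y = sigma v (F x) := by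
    intro v x y h
    refine Subtype.ext ?_
    show f y.1.1 = shift v (f x.1.1)
    rw [h]
    exact (hA00 x.1 x.2).2.2 v
  have hFν : (μ.comap (Subtype.val : A → X2)).map F = ν := by
    refine map_val_inj ?_
    rw [← hfμ, Measure.map_map measurable_subtype_coe hFm]
    conv_rhs => rw [← map_comap_sub hA haeA]
    rw [Measure.map_map measurable_subtype_coe measurable_subtype_coe,
      Measure.map_map hf (measurable_subtype_coe.comp measurable_subtype_coe)]
    rfl
  have hB : MeasurableSet (range F) := hFe.measurableSet_range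
  have haeB : ν (range F)ᶜ = 0 := by
    rw [← hFν, hFe.map_apply, preimage_compl, preimage_range, compl_univ, measure_empty]
  refine ⟨A, range F, hA, hB, haeA, haeB, hinv A hAs, hinv _ ?_, rangeFactorization F,
    ⟨fun a b h => hFi (congrArg Subtype.val h), rangeFactorization_surjective⟩,
    ⟨hFm.subtype_mk, ?_⟩, hFc⟩
  · rintro v _ ⟨x, rfl⟩
    exact ⟨⟨sigma v x.1, hAs v _ x.2⟩, hFc v x _ rfl⟩
  · have he := MeasurableEmbedding.subtype_coe hB
    rw [← he.comap_map ((μ.comap (Subtype.val : A → X2)).map (rangeFactorization F)),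
      Measure.map_map (f := rangeFactorization F) measurable_subtype_coe hFm.subtype_mk]
    exact congrArg _ hFν

theorem weak_of_conjugate {μ ν : Measure X2} {T : X2 → X2}
    (h : Conjugate (fun _ : Unit => T) μ ν) :
    ∃ f g : (ℤ × ℤ → Bool) → (ℤ × ℤ → Bool), Measurable f ∧ Measurable g ∧
      (μ.map Subtype.val).map f = ν.map Subtype.val ∧
      (ν.map Subtype.val).map g = μ.map Subtype.val ∧
      (∀ᵐ x ∂(μ.map Subtype.val), g (f x) = x) ∧ (∀ᵐ y ∂(ν.map Subtype.val), f (g y) = y) ∧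
      ∀ᵐ x ∂μ, ∃ y : X2, f x.1 = y.1 ∧ f (T x).1 = (T y).1 := by
  obtain ⟨A, B, hA, hB, haeA, haeB, hiA, -, ψ, hb, hmp, hc⟩ := h
  have := hA.standardBorel
  have := hB.standardBorel
  have hψ : MeasurableEmbedding ψ := hmp.measurable.measurableEmbedding hb.1
  let e : A ≃ᵐ B :=
    { toEquiv := Equiv.ofBijective ψ hb
      measurable_toFun := hψ.measurable
      measurable_invFun := by
        refine hψ.measurable_comp_iff.1 ?_
        have : ψ ∘ (Equiv.ofBijective ψ hb).symm = id :=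
          funext fun b => (Equiv.ofBijective ψ hb).apply_symm_apply b
        exact this ▸ measurable_id }
  have he : ∀ a, e a = ψ a := fun a => rfl
  have hemp : MeasurePreserving e (μ.comap Subtype.val) (ν.comap Subtype.val) := hmp
  have hjA : MeasurableEmbedding fun a : A => a.1.1 :=
    emb_val.comp (MeasurableEmbedding.subtype_coe hA)
  have hjB : MeasurableEmbedding fun b : B => b.1.1 :=
    emb_val.comp (MeasurableEmbedding.subtype_coe hB)
  have hμ : μ.map Subtype.val = (μ.comap (Subtype.val : A → X2)).map fun a : A => a.1.1 := by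
    conv_lhs => rw [← map_comap_sub hA haeA]
    rw [Measure.map_map measurable_subtype_coe measurable_subtype_coe]
    rfl
  have hν : ν.map Subtype.val = (ν.comap (Subtype.val : B → X2)).map fun b : B => b.1.1 := by
    conv_lhs => rw [← map_comap_sub hB haeB]
    rw [Measure.map_map measurable_subtype_coe measurable_subtype_coe]
    rfl
  obtain ⟨f, hf, hf2⟩ := hjA.exists_measurable_extend (g := fun a => (e a).1.1)
    (hjB.measurable.comp e.measurable) fun _ => inferInstance
  obtain ⟨g, hg, hg2⟩ := hjB.exists_measurable_extend (g := fun b => (e.symm b).1.1)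
    (hjA.measurable.comp e.symm.measurable) fun _ => inferInstance
  have hf3 : ∀ a : A, f a.1.1 = (e a).1.1 := fun a => congrFun hf2 a
  have hg3 : ∀ b : B, g b.1.1 = (e.symm b).1.1 := fun b => congrFun hg2 b
  refine ⟨f, g, hf, hg, ?_, ?_, ?_, ?_, ?_⟩
  · rw [hμ, hν, Measure.map_map hf hjA.measurable, hf2, ← hemp.map_eq,
      Measure.map_map hjB.measurable e.measurable]
    rfl
  · rw [hμ, hν, Measure.map_map hg hjB.measurable, hg2, ← (hemp.symm e).map_eq,
      Measure.map_map hjA.measurable e.symm.measurable]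
    rfl
  · rw [hμ]
    refine hjA.ae_map_iff.2 (ae_of_all _ fun a => ?_)
    rw [hf3, hg3, e.symm_apply_apply]
  · rw [hν]
    refine hjB.ae_map_iff.2 (ae_of_all _ fun b => ?_)
    rw [hg3, hf3, e.apply_symm_apply]
  · have h1 : ∀ᵐ x ∂μ, x ∈ A := haeA
    filter_upwards [h1] with x hx
    have h2 : T x ∈ A := by
      have := hiA ()
      rw [← this] at hx
      exact hx
    refine ⟨(e ⟨x, hx⟩).1, hf3 ⟨x, hx⟩, ?_⟩
    rw [hf3 ⟨T x, h2⟩, he, he, hc () ⟨x, hx⟩ ⟨T x, h2⟩ rfl]

theorem main (Φ : X2 → XH) (hΦ : Measurable Φ)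
    (heq : ∀ (g : ℤ × ℤ) (x : X2) (e : Edge), (Φ (sigma g x)).1 e = (Φ x).1 (translate g e))
    (s : X2 → ℤ × ℤ) (hs : ∀ x : X2, ∃ e : Edge, (Φ x).1 e = true ∧ e.1 = (0, s x)) :
    ∃ μ ν : Measure X2, IsErgodicInvariant μ ∧ IsErgodicInvariant ν ∧
      Conjugate sigma μ ν ∧ ¬ Conjugate (fun (_ : Unit) (x : X2) => sigma (s x) x) μ ν := by
  obtain ⟨Ψ, hΨ, hΨ2⟩ := exists_pathMap Φ hΦ heq
  have hs' : ∀ x : X2, Ψ x.1 0 = s x := fun x => by
    obtain ⟨e, he, h⟩ := hs x
    rw [hΨ2, nxt_eq' he h]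
  have hF := not_forward hΨ
  by_contra hcon
  refine hF fun μ' ν' h1 h2 h3 h4 h5 h6 h7 h8 h9 => ?_
  obtain ⟨μ, rfl⟩ : ∃ μ : Measure X2, μ.map Subtype.val = μ' := ⟨_, map_comap_val (ae_FS h3)⟩
  obtain ⟨ν, rfl⟩ : ∃ ν : Measure X2, ν.map Subtype.val = ν' := ⟨_, map_comap_val (ae_FS h4)⟩
  have hμ := isErgodicInvariant h5 h7
  have hν := isErgodicInvariant h6 h8
  obtain ⟨f, g, hf, hg, hfμ, -, hgf, -, hc⟩ := h9
  have hC : Conjugate (fun (_ : Unit) (x : X2) => sigma (s x) x) μ ν := by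
    by_contra hn
    exact hcon ⟨μ, ν, hμ, hν, conjugate_of_weak hμ.2.1 hf hg hfμ hgf hc, hn⟩
  obtain ⟨f', g', a1, a2, a3, a4, a5, a6, a7⟩ := weak_of_conjugate hC
  refine ⟨f', g', a1, a2, a3, a4, a5, a6, emb_val.ae_map_iff.2 ?_⟩
  filter_upwards [a7] with x hx
  obtain ⟨y, hy, hT⟩ := hx
  rw [hy, hs', hs']
  exact hT

end Pool.Agent.MP_12f186_an.Own
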