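import Mathlib
import Pool.Agent.MP_12f186_an.Mg.PathL

-- part MP_12f186_an.Par
section

/-! Numerical parameters of the tile hierarchy. -/

set_option autoImplicit false

namespace Pool.Agent.MP_12f186_an

/-- exponent of the side of a level `k` tile -/
def ee : ℕ → ℕ
  | 0 => 0
  | k + 1 => 5 * ee k + 40

/-- side of a level `k` tile -/
def bb (k : ℕ) : ℕ := 2 ^ ee k

/-- number of level `k` tiles along the side of a level `k+1` tile -/
def qq (k : ℕ) : ℕ := 2 ^ (4 * ee k + 40)

/-- exponent of the run length -/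
def ll : ℕ → ℕ
  | 0 => 0
  | k + 1 => 4 * ee k + 20

/-- run length at level `k` -/
def len (k : ℕ) : ℕ := 2 ^ ll k

/-- number of level `k` runs in a level `k+1` run -/
def rr (k : ℕ) : ℕ := 2 ^ (ll (k + 1) - ll k)

/-- exponent of the number of types -/
def mu (k : ℕ) : ℕ := 1000 * 10 ^ k

/-- number of level `k` types -/
def MM (k : ℕ) : ℕ := 2 ^ mu k

/-- number of extra choices at level `k` -/
def XC : ℕ → ℕ
  | 0 => MM 0
  | k + 1 => MM k ^ 9

def mm (k : ℕ) : ℕ := 44 * (k + 1) + 4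

def nn (k : ℕ) : ℕ := 2 * mm k + 10

/-- threshold for a rich run -/
def cc : ℕ → ℕ
  | 0 => 0
  | k + 1 => rr k * cc k + nn k * bb k ^ 2

/-- list size bound -/
def LL : ℕ → ℕ
  | 0 => 1
  | k + 1 => (qq k ^ 2 * (2 * len (k + 1) + 1) ^ 2 * LL k) ^ 10

theorem bb_pos (k : ℕ) : 0 < bb k := by unfold bb; positivity
theorem qq_pos (k : ℕ) : 0 < qq k := by unfold qq; positivity
theorem len_pos (k : ℕ) : 0 < len k := by unfold len; positivity
theorem rr_pos (k : ℕ) : 0 < rr k := by unfold rr; positivity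
theorem MM_pos (k : ℕ) : 0 < MM k := by unfold MM; positivity
theorem XC_pos (k : ℕ) : 0 < XC k := by
  cases k with
  | zero => exact MM_pos 0
  | succ k => exact pow_pos (MM_pos k) 9

theorem bb_zero : bb 0 = 1 := rfl
theorem len_zero : len 0 = 1 := rfl
theorem cc_zero : cc 0 = 0 := rfl
theorem LL_zero : LL 0 = 1 := rfl
theorem cc_succ (k : ℕ) : cc (k + 1) = rr k * cc k + nn k * bb k ^ 2 := rfl
theorem LL_succ (k : ℕ) :
    LL (k + 1) = (qq k ^ 2 * (2 * len (k + 1) + 1) ^ 2 * LL k) ^ 10 := rfl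
theorem XC_succ (k : ℕ) : XC (k + 1) = MM k ^ 9 := rfl

theorem bb_succ (k : ℕ) : bb (k + 1) = qq k * bb k := by
  unfold bb qq
  rw [← pow_add]; congr 1; simp only [ee]; omega

theorem ee_ge (k : ℕ) : 40 * k ≤ ee k := by
  induction k with
  | zero => simp
  | succ k ih => simp only [ee]; omega

theorem ee_mono : Monotone ee :=
  monotone_nat_of_le_succ fun k => by simp only [ee]; omega

theorem ll_le_ee (k : ℕ) : ll k ≤ ee k := by
  cases k with
  | zero => simp [ll]
  | succ k => simp only [ll, ee]; omega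

theorem len_succ (k : ℕ) : len (k + 1) = rr k * len k := by
  unfold len rr
  rw [← pow_add]; congr 1
  have := ll_le_ee k
  have h : ll (k + 1) = 4 * ee k + 20 := rfl
  omega

theorem MM_succ (k : ℕ) : MM (k + 1) = MM k ^ 10 := by
  unfold MM mu
  rw [← pow_mul]; congr 1; ring

theorem ee_eq (k : ℕ) : ee k + 10 = 10 * 5 ^ k := by
  induction k with
  | zero => simp [ee]
  | succ k ih => simp only [ee, pow_succ]; omega

theorem five_le_ten (k : ℕ) : 5 ^ k ≤ 10 ^ k := Nat.pow_le_pow_left (by norm_num) k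

theorem qq_sq_le (k : ℕ) : qq k ^ 2 ≤ MM k := by
  unfold qq MM mu
  rw [← pow_mul]
  apply Nat.pow_le_pow_right (by norm_num)
  have := ee_eq k
  have := five_le_ten k
  omega

theorem ten_le_qq (k : ℕ) : 10 ≤ qq k := by
  unfold qq
  calc 10 ≤ 2 ^ 4 := by norm_num
    _ ≤ _ := Nat.pow_le_pow_right (by norm_num) (by omega)

theorem two_le_MM (k : ℕ) : 2 ≤ MM k := by
  unfold MM mu
  calc 2 = 2 ^ 1 := by norm_num
    _ ≤ _ := Nat.pow_le_pow_right (by norm_num) (by have : 0 < 10 ^ k := by positivity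
                                                    omega)

theorem bb_dvd {j k : ℕ} (h : j ≤ k) : bb j ∣ bb k := pow_dvd_pow 2 (ee_mono h)

theorem ll_succ (k : ℕ) : ll (k + 1) = 4 * ee k + 20 := rfl
theorem ee_succ (k : ℕ) : ee (k + 1) = 5 * ee k + 40 := rfl

theorem lt_two_pow (k : ℕ) : k + 1 ≤ 2 ^ k := Nat.lt_two_pow_self

theorem nn_bound (k : ℕ) : nn k * bb k ^ 2 * 2 ^ (k + 10) ≤ len (k + 1) := by
  have h1 : nn k ≤ 2 ^ (k + 7) := by
    have := lt_two_pow k
    unfold nn mm
    rw [pow_add]; omega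
  have h2 := ee_ge k
  unfold bb len
  calc nn k * (2 ^ ee k) ^ 2 * 2 ^ (k + 10) ≤ 2 ^ (k + 7) * (2 ^ ee k) ^ 2 * 2 ^ (k + 10) := by
        gcongr
    _ = 2 ^ (k + 7 + ee k * 2 + (k + 10)) := by rw [← pow_mul, ← pow_add, ← pow_add]
    _ ≤ _ := Nat.pow_le_pow_right (by norm_num) (by rw [ll_succ]; omega)

theorem cc_bound_aux (k : ℕ) : cc k * 2 ^ (k + 9) + len k ≤ len k * 2 ^ k := by
  induction k with
  | zero => simp [cc_zero]
  | succ k ih =>
    have h := nn_bound k
    rw [cc_succ]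
    have h3 : rr k * (cc k * 2 ^ (k + 9) + len k) ≤ rr k * (len k * 2 ^ k) :=
      Nat.mul_le_mul_left _ ih
    rw [len_succ] at h ⊢
    have e1 : (2 : ℕ) ^ (k + 1 + 9) = 2 * 2 ^ (k + 9) := by ring
    have e2 : (2 : ℕ) ^ (k + 10) = 2 * 2 ^ (k + 9) := by ring
    have e3 : (2 : ℕ) ^ (k + 1) = 2 * 2 ^ k := by ring
    rw [e1, e3]; rw [e2] at h
    nlinarith

theorem cc_bound (k : ℕ) : 2 * cc k ≤ len k := by
  have h := cc_bound_aux k
  have e : (2 : ℕ) ^ (k + 9) = 512 * 2 ^ k := by ring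
  rw [e] at h
  have hp : 0 < 2 ^ k := by positivity
  have : (2 * cc k) * 2 ^ k ≤ len k * 2 ^ k := by nlinarith
  exact Nat.le_of_mul_le_mul_right this hp

theorem deep_bound (k : ℕ) : 8 * len (k + 1) * 2 ^ (k + 1 + 10) ≤ bb (k + 1) := by
  have h2 := ee_ge k
  unfold bb len
  calc 8 * 2 ^ ll (k + 1) * 2 ^ (k + 1 + 10) = 2 ^ (3 + ll (k + 1) + (k + 1 + 10)) := by
        rw [pow_add 2 (3 + ll (k + 1)), pow_add 2 3]; norm_num
    _ ≤ _ := Nat.pow_le_pow_right (by norm_num) (by rw [ll_succ, ee_succ]; omega)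

theorem le_len (k : ℕ) : k ≤ len k := by
  cases k with
  | zero => simp
  | succ k =>
    have h2 := ee_ge k
    unfold len
    calc k + 1 ≤ 2 ^ k := lt_two_pow k
      _ ≤ _ := Nat.pow_le_pow_right (by norm_num) (by rw [ll_succ]; omega)

theorem le_bb (k : ℕ) : k ≤ bb k := by
  have h2 := ee_ge k
  unfold bb
  calc k ≤ 2 ^ k := (Nat.lt_two_pow_self).le
    _ ≤ _ := Nat.pow_le_pow_right (by norm_num) (by omega)

theorem win_bound (k : ℕ) : qq k ^ 2 * (2 * len (k + 1) + 1) ^ 2 ≤ 2 ^ (160 * 5 ^ k) := by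
  have h1 : 2 * len (k + 1) + 1 ≤ 2 ^ (ll (k + 1) + 2) := by
    have := len_pos (k + 1)
    rw [pow_add]; unfold len at *; omega
  have h2 := ee_eq k
  unfold qq
  calc (2 ^ (4 * ee k + 40)) ^ 2 * (2 * len (k + 1) + 1) ^ 2
      ≤ (2 ^ (4 * ee k + 40)) ^ 2 * (2 ^ (ll (k + 1) + 2)) ^ 2 := by gcongr
    _ = 2 ^ ((4 * ee k + 40) * 2 + (ll (k + 1) + 2) * 2) := by
        rw [← pow_mul, ← pow_mul, ← pow_add]
    _ ≤ _ := Nat.pow_le_pow_right (by norm_num) (by rw [ll_succ]; omega)

theorem LL_bound_aux (k : ℕ) : LL k ≤ 2 ^ (320 * 10 ^ k - 320 * 5 ^ k) := by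
  induction k with
  | zero => simp [LL_zero]
  | succ k ih =>
    have h := win_bound k
    have h5 := five_le_ten k
    rw [LL_succ]
    calc (qq k ^ 2 * (2 * len (k + 1) + 1) ^ 2 * LL k) ^ 10
        ≤ (2 ^ (160 * 5 ^ k) * 2 ^ (320 * 10 ^ k - 320 * 5 ^ k)) ^ 10 := by gcongr
      _ = 2 ^ ((160 * 5 ^ k + (320 * 10 ^ k - 320 * 5 ^ k)) * 10) := by
          rw [← pow_add, ← pow_mul]
      _ ≤ _ := Nat.pow_le_pow_right (by norm_num) (by simp only [pow_succ]; omega)

theorem MM_pred_ge (k : ℕ) : 2 ^ (999 * 10 ^ k) ≤ MM k - 1 := by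
  have hp : 0 < 10 ^ k := by positivity
  have h1 : 2 ^ (999 * 10 ^ k + 1) ≤ MM k := by
    unfold MM mu
    exact Nat.pow_le_pow_right (by norm_num) (by omega)
  have : 0 < 2 ^ (999 * 10 ^ k) := by positivity
  rw [pow_succ] at h1
  omega

theorem le_ten_pow (k : ℕ) : k ≤ 10 ^ k := (Nat.lt_pow_self (by norm_num)).le

theorem MM_eq (k : ℕ) : MM k = 2 ^ mu k := rfl
theorem mu_succ (k : ℕ) : mu (k + 1) = 10000 * 10 ^ k := by unfold mu; ring

theorem union_aux (A B C D E F t x y m k : ℕ) (hA : A ≤ 2 ^ (10000 * t)) (hB : B ≤ 2 ^ (50 * t))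
    (hC : C ≤ 2 ^ (160 * t)) (hD : D ≤ 2 ^ (320 * t)) (hk : k ≤ t) (hF : 2 ^ (999 * t) ≤ F)
    (hE : E = 2 ^ k) (hm : 10000 * x + 50 * y + 480 * m + 1 ≤ 999 * m) :
    A ^ x * B ^ y * C ^ m * D ^ m * E ≤ F ^ m := by
  have a1 := Nat.pow_le_pow_left hA x
  have a2 := Nat.pow_le_pow_left hB y
  have a3 := Nat.pow_le_pow_left hC m
  have a4 := Nat.pow_le_pow_left hD m
  have a5 : E ≤ 2 ^ t := hE ▸ Nat.pow_le_pow_right (by norm_num) hk
  have a6 := Nat.pow_le_pow_left hF m
  refine le_trans (Nat.mul_le_mul (Nat.mul_le_mul (Nat.mul_le_mul (Nat.mul_le_mul a1 a2) a3) a4) a5)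
    (le_trans ?_ a6)
  simp only [← pow_mul, ← pow_add]
  apply Nat.pow_le_pow_right (by norm_num)
  have h9 := Nat.mul_le_mul_left t hm
  nlinarith

theorem union_bound (j k : ℕ) (h : j ≤ k) :
    MM (k + 1) ^ (1 + j) * bb (k + 1) ^ (2 * j) *
      (qq k ^ 2 * (2 * len (k + 1) + 1) ^ 2) ^ mm k * LL k ^ mm k * 2 ^ k ≤ (MM k - 1) ^ mm k := by
  have h5 := five_le_ten k
  have h6 := ee_eq (k + 1)
  have h8 : ee (k + 1) ≤ 50 * 10 ^ k := by rw [pow_succ] at h6; omega
  refine union_aux _ _ _ _ _ _ (10 ^ k) _ _ _ k ?_ ?_ ?_ ?_ (le_ten_pow k) (MM_pred_ge k) rfl ?_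
  · rw [MM_eq, mu_succ]
  · exact Nat.pow_le_pow_right (by norm_num) h8
  · exact (win_bound k).trans (Nat.pow_le_pow_right (by norm_num) (by omega))
  · exact (LL_bound_aux k).trans (Nat.pow_le_pow_right (by norm_num) (by omega))
  · unfold mm; omega

theorem union_bound' (k : ℕ) :
    MM (k + 1) ^ 2 * (qq k ^ 2 * qq k ^ 2) ^ mm k * 2 ^ k ≤ (MM k - 1) ^ mm k := by
  have h5 := five_le_ten k
  have h6 := ee_eq k
  have h1 : qq k ^ 2 * qq k ^ 2 ≤ 2 ^ (160 * 10 ^ k) := by
    unfold qq
    rw [← pow_mul, ← pow_add]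
    exact Nat.pow_le_pow_right (by norm_num) (by omega)
  have := union_aux (MM (k + 1)) 1 (qq k ^ 2 * qq k ^ 2) 1 (2 ^ k) (MM k - 1) (10 ^ k) 2 0 (mm k) k
    (by rw [MM_eq, mu_succ]) Nat.one_le_two_pow h1 Nat.one_le_two_pow (le_ten_pow k) (MM_pred_ge k)
    rfl (by unfold mm; omega)
  simpa using this

theorem capacity (k : ℕ) : MM (k + 1) ^ (k + 1) ≤ 2 ^ ((qq k - 3) ^ 2) := by
  have h2 := ee_ge k
  have h1 : 2 ^ (4 * ee k + 39) ≤ qq k - 3 := by
    have : 2 ^ 2 ≤ 2 ^ (4 * ee k + 39) := Nat.pow_le_pow_right (by norm_num) (by omega)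
    have e : qq k = 2 ^ (4 * ee k + 39) * 2 := by unfold qq; rw [← pow_succ]
    omega
  unfold MM
  rw [← pow_mul]
  apply Nat.pow_le_pow_right (by norm_num)
  have h3 : mu (k + 1) ≤ 2 ^ (4 * (k + 4)) := by
    unfold mu
    calc 1000 * 10 ^ (k + 1) = 10 ^ (k + 4) := by ring
      _ ≤ 16 ^ (k + 4) := Nat.pow_le_pow_left (by norm_num) _
      _ = 2 ^ (4 * (k + 4)) := by rw [pow_mul]; norm_num
  calc mu (k + 1) * (k + 1) ≤ 2 ^ (4 * (k + 4)) * 2 ^ k := Nat.mul_le_mul h3 (lt_two_pow k)
    _ = 2 ^ (4 * (k + 4) + k) := by rw [← pow_add]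
    _ ≤ 2 ^ ((4 * ee k + 39) * 2) := Nat.pow_le_pow_right (by norm_num) (by omega)
    _ = (2 ^ (4 * ee k + 39)) ^ 2 := by rw [pow_mul]
    _ ≤ _ := by gcongr

theorem mu_pos (k : ℕ) : 0 < mu k := by unfold mu; positivity
theorem bb_eq (k : ℕ) : bb k = 2 ^ ee k := rfl
theorem nn_eq (k : ℕ) : nn k = 2 * mm k + 10 := rfl

attribute [irreducible] ee bb qq ll len rr mu MM mm nn cc LL

instance (k : ℕ) : NeZero (bb k) := ⟨(bb_pos k).ne'⟩
instance (k : ℕ) : NeZero (qq k) := ⟨(qq_pos k).ne'⟩
instance (k : ℕ) : NeZero (MM k) := ⟨(MM_pos k).ne'⟩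
instance (k : ℕ) : NeZero (XC k) := ⟨(XC_pos k).ne'⟩

abbrev TT (k : ℕ) := Fin (MM k)
abbrev XX (k : ℕ) := Fin (XC k)
abbrev Pos (k : ℕ) := Fin (qq k) × Fin (qq k)
abbrev PB (k : ℕ) := Fin (bb k) × Fin (bb k)

end Pool.Agent.MP_12f186_an

end

-- part MP_12f186_an.Code
section

/-! Reed-Solomon type codes: a level `k+1` type is an array of level `k` types. -/

set_option autoImplicit false

namespace Pool.Agent.MP_12f186_an

/-- An array code: any two entries are jointly uniform, any ten entries determine the word. -/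
structure Code (N A B X : Type) [Fintype A] [Fintype B] [DecidableEq A] where
  eqv : N → B ≃ A × X
  pair : ∀ u u' : N, u ≠ u' → ∀ α β : A,
    (Finset.univ.filter fun P : B => (eqv u P).1 = α ∧ (eqv u' P).1 = β).card *
      Fintype.card A ^ 2 = Fintype.card B
  det : ∀ (P Q : B) (s : Finset N), 10 ≤ s.card →
    (∀ u ∈ s, (eqv u P).1 = (eqv u Q).1) → P = Q

namespace RS

variable {F : Type} [Field F]

/-- evaluation of the polynomial with coefficient vector `w` -/
def ev (c : F) (w : Fin 10 → F) : F := ∑ i, w i * c ^ (i : ℕ)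

lemma ev_succ (c : F) (w : Fin 10 → F) :
    ev c w = w 0 + ∑ i : Fin 9, w i.succ * c ^ ((i : ℕ) + 1) := by
  rw [ev, Fin.sum_univ_succ]; simp

/-- a coefficient vector is determined by one value and the nine higher coefficients -/
def split (c : F) : (Fin 10 → F) ≃ F × (Fin 9 → F) where
  toFun w := (ev c w, fun i => w i.succ)
  invFun p := Fin.cons (p.1 - ∑ i : Fin 9, p.2 i * c ^ ((i : ℕ) + 1)) p.2
  left_inv w := by
    funext i
    refine Fin.cases ?_ (fun j => ?_) i
    · simp [ev_succ]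
    · simp
  right_inv p := by
    ext
    · simp [ev_succ]
    · simp

/-- two evaluations -/
def ev2 (c c' : F) : (Fin 10 → F) →+ F × F where
  toFun w := (ev c w, ev c' w)
  map_zero' := by simp [ev]
  map_add' w w' := by simp [ev, add_mul, Finset.sum_add_distrib]

lemma ev2_surj {c c' : F} (h : c ≠ c') : Function.Surjective (ev2 c c') := by
  rintro ⟨α, β⟩
  have h0 : c - c' ≠ 0 := sub_ne_zero.2 h
  refine ⟨Pi.single 0 (α - (α - β) / (c - c') * c) + Pi.single 1 ((α - β) / (c - c')), ?_⟩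
  rw [map_add]
  simp only [ev2, ev, AddMonoidHom.coe_mk, ZeroHom.coe_mk, Pi.single_apply, ite_mul, zero_mul,
    Finset.sum_ite_eq', Finset.mem_univ, if_true, Prod.mk_add_mk, Prod.mk.injEq]
  constructor
  · simp
  · simp only [Fin.val_zero, pow_zero, mul_one, Fin.val_one, pow_one]
    field_simp
    ring

lemma card_pair [Fintype F] [DecidableEq F] {c c' : F} (h : c ≠ c') (α β : F) :
    (Finset.univ.filter fun w : Fin 10 → F => ev c w = α ∧ ev c' w = β).card *
      Fintype.card F ^ 2 = Fintype.card (Fin 10 → F) := by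
  have h1 : ∀ y : F × F, (Finset.univ.filter fun w => ev2 c c' w = y).card =
      (Finset.univ.filter fun w : Fin 10 → F => ev c w = α ∧ ev c' w = β).card := by
    intro y
    rw [AddMonoidHom.card_fiber_eq_of_mem_range (ev2 c c') (ev2_surj h y) (ev2_surj h (α, β))]
    congr 1
    ext w
    simp only [Finset.mem_filter, Finset.mem_univ, true_and]
    exact Prod.ext_iff
  rw [← Finset.card_univ (α := Fin 10 → F),
    Finset.card_eq_sum_card_fiberwise (f := ev2 c c') (s := Finset.univ) (t := Finset.univ)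
      (by simp),
    Finset.sum_congr rfl fun y _ => h1 y, Finset.sum_const, Finset.card_univ, Fintype.card_prod,
    smul_eq_mul]
  ring

lemma eq_of_ev {f : Fin 10 → F} (hf : Function.Injective f) {w w' : Fin 10 → F}
    (h : ∀ j, ev (f j) w = ev (f j) w') : w = w' := by
  rw [← sub_eq_zero]
  refine Matrix.eq_zero_of_forall_index_sum_mul_pow_eq_zero hf fun j => ?_
  have := h j
  simp only [ev] at this
  simp only [Pi.sub_apply, sub_mul, Finset.sum_sub_distrib, this, sub_self]

theorem exists_code_gen [Fintype F] {N A B X : Type} [Fintype A] [Fintype B] [DecidableEq A]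
    (c : N ↪ F) (eA : F ≃ A) (eB : B ≃ (Fin 10 → F)) (eX : (Fin 9 → F) ≃ X) :
    Nonempty (Code N A B X) := by
  classical
  refine ⟨⟨fun u => (eB.trans (split (c u))).trans (eA.prodCongr eX), fun u u' huu α β => ?_,
    fun P Q s hs h => ?_⟩⟩
  · rw [← Fintype.card_congr eA, Fintype.card_congr eB,
      ← card_pair (c.injective.ne huu) (eA.symm α) (eA.symm β)]
    congr 1
    refine Finset.card_equiv eB fun P => ?_
    simp [split, Equiv.eq_symm_apply]
  · obtain ⟨f, hf⟩ := Function.Embedding.exists_of_card_le_finset (α := Fin 10) (s := s)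
      (by simpa using hs)
    refine eB.injective (eq_of_ev (f := fun j => c (f j)) (c.injective.comp f.injective) fun j => ?_)
    have := h (f j) (hf ⟨j, rfl⟩)
    simpa [split] using this

end RS

theorem exists_code (k : ℕ) : Nonempty (Code (Pos k) (TT k) (TT (k + 1)) (XX (k + 1))) := by
  classical
  have : Fact (Nat.Prime 2) := ⟨Nat.prime_two⟩
  let _ : Fintype (GaloisField 2 (mu k)) := Fintype.ofFinite _
  have hF : Fintype.card (GaloisField 2 (mu k)) = MM k := by
    rw [← Nat.card_eq_fintype_card, GaloisField.card 2 (mu k) (mu_pos k).ne', MM_eq]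
  obtain ⟨c⟩ : Nonempty (Pos k ↪ GaloisField 2 (mu k)) :=
    Function.Embedding.nonempty_of_card_le (by
      rw [hF, Fintype.card_prod, Fintype.card_fin, ← sq]; exact qq_sq_le k)
  exact RS.exists_code_gen c (Fintype.equivOfCardEq (by rw [hF, Fintype.card_fin]))
    (Fintype.equivOfCardEq (by
      rw [Fintype.card_fin, Fintype.card_fun, hF, Fintype.card_fin, MM_succ]))
    (Fintype.equivOfCardEq (by
      rw [Fintype.card_fin, Fintype.card_fun, hF, Fintype.card_fin, XC_succ]))

end Pool.Agent.MP_12f186_an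

end

-- part MP_12f186_an.Odo
section

/-! The two-adic odometer and positions inside tiles. -/

set_option autoImplicit false
open MeasureTheory ProbabilityTheory Set Filter Topology Function
open scoped ENNReal

namespace Pool.Agent.MP_12f186_an

/-- two-adic integers with their Borel structure -/
def O1 : Type := ℤ_[2]

noncomputable instance : CommRing O1 := inferInstanceAs (CommRing ℤ_[2])
noncomputable instance : MetricSpace O1 := inferInstanceAs (MetricSpace ℤ_[2])
instance : IsTopologicalRing O1 := inferInstanceAs (IsTopologicalRing ℤ_[2])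
instance : CompactSpace O1 := inferInstanceAs (CompactSpace ℤ_[2])
instance : CompleteSpace O1 := inferInstanceAs (CompleteSpace ℤ_[2])
instance : CharZero O1 := inferInstanceAs (CharZero ℤ_[2])
noncomputable instance : MeasurableSpace O1 := borel O1
instance : BorelSpace O1 := ⟨rfl⟩

abbrev OO := O1 × O1

/-- Haar probability measure -/
noncomputable def haarO : Measure OO := Measure.addHaarMeasure ⊤

instance : IsProbabilityMeasure haarO := ⟨by
  unfold haarO
  have := Measure.addHaarMeasure_self (G := OO) (K₀ := ⊤)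
  simpa using this⟩

instance : haarO.IsAddLeftInvariant := by unfold haarO; infer_instance

instance : haarO.IsAddRightInvariant := by unfold haarO; infer_instance

/-- the lattice inside the odometer -/
noncomputable def io (v : Z2) : OO := ((v.1 : O1), (v.2 : O1))

/-- residue modulo `2 ^ n` -/
noncomputable def p1 (n : ℕ) (o : O1) : ℤ :=
  ((PadicInt.toZModPow (p := 2) n o).val : ℤ)

/-- position of the origin inside its level `K` tile -/
noncomputable def pos (K : ℕ) (o : OO) : Z2 := (p1 (ee K) o.1, p1 (ee K) o.2)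

def InBox (K : ℕ) (z : Z2) : Prop := 0 ≤ z.1 ∧ z.1 < bb K ∧ 0 ≤ z.2 ∧ z.2 < bb K

/-- reduction modulo the side of a level `K` tile -/
def md (K : ℕ) (z : Z2) : Z2 := (z.1 % bb K, z.2 % bb K)

def fb1 (K : ℕ) (x : ℤ) : Fin (bb K) :=
  ⟨(x % bb K).toNat, by
    have h : (0 : ℤ) < bb K := by exact_mod_cast bb_pos K
    have := Int.emod_lt_of_pos x h
    have := Int.emod_nonneg x h.ne'
    omega⟩

/-- reduction modulo the side, as an element of a finite type -/
def fb (K : ℕ) (z : Z2) : PB K := (fb1 K z.1, fb1 K z.2)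

def dg1 (k : ℕ) (x : ℤ) : Fin (qq k) :=
  ⟨(x / bb k % qq k).toNat, by
    have h : (0 : ℤ) < qq k := by exact_mod_cast qq_pos k
    have := Int.emod_lt_of_pos (x / bb k) h
    have := Int.emod_nonneg (x / bb k) h.ne'
    omega⟩

/-- index of the level `k` tile inside the level `k+1` tile -/
def dg (k : ℕ) (z : Z2) : Pos k := (dg1 k z.1, dg1 k z.2)

/-- far from the boundary of the level `k` tile -/
def Deep (k : ℕ) (z : Z2) : Prop :=
  ∀ w : Z2, Small (2 * ((len k : ℤ) - 1)) w → InBox k (z + w)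

/-- every lattice point eventually lies in the tile of the origin -/
def GoodO (o : OO) : Prop := ∀ v : Z2, ∃ K, InBox K (pos K o + v)

theorem io_add (v w : Z2) : io (v + w) = io v + io w := by
  simp [io]

theorem io_zero : io 0 = 0 := by simp [io]

theorem io_inj {v w : Z2} (h : io v = io w) : v = w := by
  simp only [io, Prod.mk.injEq, Int.cast_inj] at h
  exact Prod.ext h.1 h.2

theorem p1_nonneg (n : ℕ) (o : O1) : 0 ≤ p1 n o := Int.natCast_nonneg _

theorem p1_lt (n : ℕ) (o : O1) : p1 n o < ((2 ^ n : ℕ) : ℤ) := by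
  unfold p1
  exact_mod_cast ZMod.val_lt _

theorem p1_cast (n : ℕ) (o : O1) :
    ((p1 n o : ℤ) : ZMod (2 ^ n)) = PadicInt.toZModPow (p := 2) n o := by
  unfold p1
  rw [Int.cast_natCast, ZMod.natCast_zmod_val]

theorem tz_add (n : ℕ) (o : ℤ_[2]) (x : ℤ) :
    PadicInt.toZModPow (p := 2) n (o + (x : ℤ_[2])) =
      PadicInt.toZModPow (p := 2) n o + (x : ZMod (2 ^ n)) := by
  rw [map_add, map_intCast]

theorem p1_add (n : ℕ) (o : O1) (x : ℤ) :
    p1 n (o + (x : O1)) = (p1 n o + x) % ((2 ^ n : ℕ) : ℤ) := by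
  have h : PadicInt.toZModPow (p := 2) n (o + (x : O1) : O1) =
      ((p1 n o + x : ℤ) : ZMod (2 ^ n)) := by
    rw [Int.cast_add, p1_cast]
    exact tz_add n o x
  rw [← ZMod.val_intCast, ← h]
  rfl

theorem p1_mod {m n : ℕ} (h : m ≤ n) (o : O1) : p1 n o % ((2 ^ m : ℕ) : ℤ) = p1 m o := by
  have h1 := PadicInt.cast_toZModPow (p := 2) m n h o
  rw [ZMod.cast_eq_val] at h1
  rw [← ZMod.val_intCast]
  unfold p1
  rw [Int.cast_natCast, h1]

theorem tz_eq_iff (n : ℕ) (o o' : ℤ_[2]) :
    PadicInt.toZModPow (p := 2) n o = PadicInt.toZModPow (p := 2) n o' ↔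
      dist o o' ≤ (2 : ℝ) ^ (-n : ℤ) := by
  have h2 := PadicInt.norm_le_pow_iff_mem_span_pow (p := 2) (o - o') n
  rw [← PadicInt.ker_toZModPow, RingHom.mem_ker, map_sub, sub_eq_zero] at h2
  rw [← h2, dist_eq_norm]
  norm_num

theorem p1_eq_iff (n : ℕ) (o o' : O1) :
    p1 n o = p1 n o' ↔ dist o o' ≤ (2 : ℝ) ^ (-n : ℤ) := by
  have h1 : p1 n o = p1 n o' ↔
      PadicInt.toZModPow (p := 2) n o = PadicInt.toZModPow (p := 2) n o' := by
    constructor
    · intro h; rw [← p1_cast, ← p1_cast, h]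
    · intro h; unfold p1; rw [h]
  exact h1.trans (tz_eq_iff n o o')

theorem measurable_p1 (n : ℕ) : Measurable (p1 n) := by
  refine measurable_to_countable (fun o' => ?_)
  have : p1 n ⁻¹' {p1 n o'} = Metric.closedBall o' ((2 : ℝ) ^ (-n : ℤ)) := by
    ext o
    simp only [mem_preimage, mem_singleton_iff, Metric.mem_closedBall, p1_eq_iff]
  rw [this]
  exact Metric.isClosed_closedBall.measurableSet

theorem bb_cast (K : ℕ) : (bb K : ℤ) = ((2 ^ ee K : ℕ) : ℤ) := by rw [bb_eq]

theorem pos_inBox (K : ℕ) (o : OO) : InBox K (pos K o) := by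
  unfold InBox pos
  rw [bb_cast]
  exact ⟨p1_nonneg _ _, p1_lt _ _, p1_nonneg _ _, p1_lt _ _⟩

theorem pos_add (K : ℕ) (o : OO) (v : Z2) : pos K (o + io v) = md K (pos K o + v) := by
  unfold md pos io
  rw [bb_cast]
  exact Prod.ext (p1_add _ _ _) (p1_add _ _ _)

theorem md_pos {j K : ℕ} (h : j ≤ K) (o : OO) : md j (pos K o) = pos j o := by
  unfold md pos
  rw [bb_cast]
  exact Prod.ext (p1_mod (ee_mono h) _) (p1_mod (ee_mono h) _)

theorem ext_p1 {o o' : O1} (K₀ : ℕ) (h : ∀ K, K₀ ≤ K → p1 (ee K) o = p1 (ee K) o') : o = o' := by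
  refine (PadicInt.ext_of_toZModPow (p := 2) (x := o) (y := o')).1 (fun n => ?_)
  have h1 : n ≤ ee (max K₀ n) := by
    have := ee_ge (max K₀ n)
    have := le_max_right K₀ n
    omega
  rw [← p1_cast, ← p1_cast, ← p1_mod h1 o, ← p1_mod h1 o', h _ (le_max_left _ _)]

theorem ext_pos {o o' : OO} (K₀ : ℕ) (h : ∀ K, K₀ ≤ K → pos K o = pos K o') : o = o' :=
  Prod.ext (ext_p1 K₀ (fun K hK => congrArg Prod.fst (h K hK)))
    (ext_p1 K₀ (fun K hK => congrArg Prod.snd (h K hK)))

theorem measurable_pos (K : ℕ) : Measurable (pos K) :=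
  ((measurable_p1 _).comp measurable_fst).prodMk ((measurable_p1 _).comp measurable_snd)

theorem md_of_inBox {K : ℕ} {z : Z2} (h : InBox K z) : md K z = z :=
  Prod.ext (Int.emod_eq_of_lt h.1 h.2.1) (Int.emod_eq_of_lt h.2.2.1 h.2.2.2)

theorem emod_sub_eq_zero {b x y : ℤ} (hx0 : 0 ≤ x) (hx : x < b) (hy0 : 0 ≤ y) (hy : y < b) :
    (x + -y) % b = 0 ↔ x = y := by
  rw [← sub_eq_add_neg, ← Int.emod_eq_emod_iff_emod_sub_eq_zero, Int.emod_eq_of_lt hx0 hx,
    Int.emod_eq_of_lt hy0 hy]

theorem haarO_pos_eq (K : ℕ) (z : Z2) (hz : InBox K z) :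
    haarO {o | pos K o = z} = haarO {o | pos K o = 0} := by
  rw [← measure_preimage_add_right haarO (io (-z)) {o | pos K o = 0}]
  congr 1
  ext o
  have h := pos_inBox K o
  simp only [mem_ofPred_eq, mem_preimage, pos_add, md, Prod.ext_iff, Prod.fst_add, Prod.snd_add,
    Prod.fst_neg, Prod.snd_neg, Prod.fst_zero, Prod.snd_zero]
  rw [emod_sub_eq_zero h.1 h.2.1 hz.1 hz.2.1, emod_sub_eq_zero h.2.2.1 h.2.2.2 hz.2.2.1 hz.2.2.2]

theorem measurableSet_fibre (K : ℕ) (z : Z2) : MeasurableSet {o | pos K o = z} :=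
  measurable_pos K (measurableSet_singleton z)

/-- the position in the level `K` tile is uniformly distributed -/
theorem haarO_pos (K : ℕ) (z : Z2) (hz : InBox K z) :
    haarO {o | pos K o = z} = ((bb K : ℝ≥0∞) ^ 2)⁻¹ := by
  set B : Finset Z2 := Finset.Ico (0 : ℤ) (bb K) ×ˢ Finset.Ico (0 : ℤ) (bb K) with hB
  have hmem : ∀ w : Z2, w ∈ B ↔ InBox K w := by
    intro w
    simp only [hB, Finset.mem_product, Finset.mem_Ico, InBox, and_assoc]
  have hcard : B.card = bb K ^ 2 := by
    simp [hB, Finset.card_product, sq]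
  have hU : (⋃ w ∈ B, {o | pos K o = w}) = univ := by
    refine eq_univ_of_forall (fun o => ?_)
    simp only [mem_iUnion, mem_ofPred_eq]
    exact ⟨pos K o, (hmem _).2 (pos_inBox K o), rfl⟩
  have hsum := measure_biUnion_finset (μ := haarO) (s := B) (f := fun w => {o | pos K o = w})
    (fun w _ w' _ hne => by
      refine Set.disjoint_left.2 (fun o h1 h2 => hne ?_)
      exact h1.symm.trans h2)
    (fun w _ => measurableSet_fibre K w)
  rw [hU, measure_univ, Finset.sum_congr rfl (fun w hw => haarO_pos_eq K w ((hmem w).1 hw)),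
    Finset.sum_const, hcard, nsmul_eq_mul] at hsum
  rw [haarO_pos_eq K z hz]
  refine ENNReal.eq_inv_of_mul_eq_one_left ?_
  rw [mul_comm, hsum]
  push_cast
  rfl

theorem haarO_pos_le (K : ℕ) (z : Z2) : haarO {o | pos K o = z} ≤ ((bb K : ℝ≥0∞) ^ 2)⁻¹ := by
  by_cases hz : InBox K z
  · exact (haarO_pos K z hz).le
  · have : {o | pos K o = z} = ∅ := by
      refine eq_empty_of_forall_notMem (fun o ho => hz ?_)
      rw [← (show pos K o = z from ho)]
      exact pos_inBox K o
    rw [this, measure_empty]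
    exact zero_le

theorem haarO_mem_le (K : ℕ) (S : Finset Z2) :
    haarO {o | pos K o ∈ S} ≤ S.card * ((bb K : ℝ≥0∞) ^ 2)⁻¹ := by
  have : {o | pos K o ∈ S} = ⋃ w ∈ S, {o | pos K o = w} := by
    ext o; simp
  rw [this]
  refine (measure_biUnion_finset_le _ _).trans ?_
  refine (Finset.sum_le_sum (fun w _ => haarO_pos_le K w)).trans ?_
  rw [Finset.sum_const, nsmul_eq_mul]

theorem haarO_notDeep (k : ℕ) : haarO {o | ¬ Deep k (pos k o)} ≤ (2 ^ (k + 10))⁻¹ := by
  cases k with
  | zero =>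
    have : {o | ¬ Deep 0 (pos 0 o)} = ∅ := by
      refine eq_empty_of_forall_notMem (fun o ho => ho (fun w hw => ?_))
      have h0 : w = 0 := by
        obtain ⟨h1, h2⟩ := hw
        rw [len_zero] at h1 h2
        norm_num at h1 h2
        exact Prod.ext h1 h2
      rw [h0, add_zero]
      exact pos_inBox 0 o
    rw [this, measure_empty]
    exact zero_le
  | succ k =>
    set b : ℤ := ((bb (k + 1) : ℕ) : ℤ) with hb
    set D : ℤ := 2 * ((len (k + 1) : ℕ) : ℤ) with hD
    set I : Finset ℤ := Finset.Ico 0 b with hI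
    set A : Finset ℤ := Finset.Ico 0 D ∪ Finset.Ico (b - D) b with hA
    have hIc : I.card = bb (k + 1) := by simp [hI, hb]
    have hAc : A.card ≤ 4 * len (k + 1) := by
      refine (Finset.card_union_le _ _).trans ?_
      simp only [Int.card_Ico]
      omega
    have hS : ((A ×ˢ I) ∪ (I ×ˢ A)).card ≤ 8 * len (k + 1) * bb (k + 1) := by
      refine (Finset.card_union_le _ _).trans ?_
      rw [Finset.card_product, Finset.card_product, hIc]
      nlinarith
    have hsub : {o | ¬ Deep (k + 1) (pos (k + 1) o)} ⊆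
        {o | pos (k + 1) o ∈ (A ×ˢ I) ∪ (I ×ˢ A)} := by
      intro o ho
      have h := pos_inBox (k + 1) o
      simp only [mem_ofPred_eq] at ho ⊢
      by_contra hn
      refine ho (fun w hw => ?_)
      obtain ⟨h1, h2, h3, h4⟩ := h
      obtain ⟨w1, w2⟩ := hw
      rw [abs_le] at w1 w2
      simp only [Finset.mem_union, Finset.mem_product, hA, hI, Finset.mem_Ico] at hn
      simp only [InBox, Prod.fst_add, Prod.snd_add]
      omega
    refine (measure_mono hsub).trans ((haarO_mem_le _ _).trans ?_)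
    have hdb := deep_bound k
    have hb0 : (bb (k + 1) : ℝ≥0∞) ≠ 0 := by exact_mod_cast (bb_pos (k + 1)).ne'
    have h1 : ((A ×ˢ I) ∪ (I ×ˢ A)).card * 2 ^ (k + 1 + 10) ≤ bb (k + 1) ^ 2 := by
      calc ((A ×ˢ I) ∪ (I ×ˢ A)).card * 2 ^ (k + 1 + 10)
          ≤ 8 * len (k + 1) * bb (k + 1) * 2 ^ (k + 1 + 10) := by gcongr
        _ = 8 * len (k + 1) * 2 ^ (k + 1 + 10) * bb (k + 1) := by ring
        _ ≤ bb (k + 1) * bb (k + 1) := by gcongr
        _ = bb (k + 1) ^ 2 := by ring
    have h2 : (((A ×ˢ I) ∪ (I ×ˢ A)).card : ℝ≥0∞) * 2 ^ (k + 1 + 10) ≤ (bb (k + 1) : ℝ≥0∞) ^ 2 := by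
      exact_mod_cast h1
    rw [← div_eq_mul_inv, ENNReal.div_le_iff (pow_ne_zero _ hb0) (by simp), mul_comm,
      ← div_eq_mul_inv, ENNReal.le_div_iff_mul_le (Or.inl (by simp)) (Or.inl (by simp))]
    exact h2

theorem measurableSet_goodO : MeasurableSet {o | GoodO o} := by
  have : {o | GoodO o} = ⋂ v : Z2, ⋃ K : ℕ, pos K ⁻¹' {z | InBox K (z + v)} := by
    ext o
    rw [mem_iInter]
    refine forall_congr' (fun v => ?_)
    rw [mem_iUnion]
    rfl
  rw [this]
  exact MeasurableSet.iInter (fun v => MeasurableSet.iUnion (fun K =>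
    measurable_pos K (MeasurableSet.of_discrete)))

theorem small_of_large (v : Z2) (k : ℕ) (hk : v.1.natAbs + v.2.natAbs + 2 ≤ k) :
    Small (2 * ((len k : ℤ) - 1)) v := by
  have := le_len k
  constructor
  · rw [abs_le]; omega
  · rw [abs_le]; omega

theorem tendsto_inv_pow : Tendsto (fun k : ℕ => ((2 : ℝ≥0∞) ^ (k + 10))⁻¹) atTop (𝓝 0) := by
  simp_rw [ENNReal.inv_pow]
  exact (ENNReal.tendsto_pow_atTop_nhds_zero_of_lt_one (by simp)).comp (tendsto_add_atTop_nat 10)

theorem haarO_bad (v : Z2) : haarO {o | ¬ ∃ K, InBox K (pos K o + v)} = 0 := by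
  refine le_antisymm (ge_of_tendsto tendsto_inv_pow ?_) zero_le
  filter_upwards [eventually_ge_atTop (v.1.natAbs + v.2.natAbs + 2)] with k hk
  have hsub : {o | ¬ ∃ K, InBox K (pos K o + v)} ⊆ {o | ¬ Deep k (pos k o)} :=
    fun o ho hd => ho ⟨k, hd v (small_of_large v k hk)⟩
  exact le_trans (measure_mono hsub) (haarO_notDeep k)

theorem ae_goodO : ∀ᵐ o ∂haarO, GoodO o := by
  have h : ∀ᵐ o ∂haarO, ∀ v : Z2, ∃ K, InBox K (pos K o + v) :=
    ae_all_iff.2 (fun v => ae_iff.2 (haarO_bad v))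
  exact h

theorem box_aux {b c x x' v : ℤ} (hb : 0 < b) (h0 : 0 ≤ x') (h1 : x' < b * c) (hx : x' % b = x)
    (h2 : 0 ≤ x + v) (h3 : x + v < b) : 0 ≤ x' + v ∧ x' + v < b * c := by
  have e := Int.mul_ediv_add_emod x' b
  have q0 : 0 ≤ x' / b := Int.ediv_nonneg h0 hb.le
  have q1 : x' / b < c := Int.ediv_lt_of_lt_mul hb (by rw [mul_comm]; exact h1)
  rw [hx] at e
  constructor <;> nlinarith

/-- once a lattice point is in the tile of the origin it stays so at all higher levels -/
theorem inBox_mono {o : OO} {v : Z2} {K K' : ℕ} (h : InBox K (pos K o + v)) (hK : K ≤ K') :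
    InBox K' (pos K' o + v) := by
  obtain ⟨c, hc⟩ := bb_dvd hK
  have hc' : (bb K' : ℤ) = bb K * c := by exact_mod_cast hc
  have hb : (0 : ℤ) < bb K := by exact_mod_cast bb_pos K
  obtain ⟨g1, g2, g3, g4⟩ := pos_inBox K' o
  obtain ⟨h1, h2, h3, h4⟩ := h
  have hm := md_pos hK o
  rw [hc'] at g2 g4
  have a1 := box_aux hb g1 g2 (congrArg Prod.fst hm) h1 h2
  have a2 := box_aux hb g3 g4 (congrArg Prod.snd hm) h3 h4
  unfold InBox
  rw [hc']
  exact ⟨a1.1, a1.2, a2.1, a2.2⟩

theorem GoodO.add {o : OO} (h : GoodO o) (v : Z2) : GoodO (o + io v) := by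
  intro w
  obtain ⟨K1, h1⟩ := h v
  obtain ⟨K2, h2⟩ := h (v + w)
  refine ⟨max K1 K2, ?_⟩
  rw [pos_add, md_of_inBox (inBox_mono h1 (le_max_left _ _)), add_assoc]
  exact inBox_mono h2 (le_max_right _ _)

end Pool.Agent.MP_12f186_an

end

-- part MP_12f186_an.Enc
section

/-! Enough room in a tile to write down the types. -/

set_option autoImplicit false

namespace Pool.Agent.MP_12f186_an

theorem exists_enc' (k : ℕ) : ∃ f : (Fin (k + 1) → TT (k + 1)) → Pos k → Bool,
    ∀ t t', (∀ u : Pos k, 3 ≤ (u.1 : ℕ) → 3 ≤ (u.2 : ℕ) → f t u = f t' u) → t = t' := by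
  obtain ⟨g⟩ : Nonempty ((Fin (k + 1) → TT (k + 1)) ↪ (Fin (qq k - 3) × Fin (qq k - 3) → Bool)) :=
    Function.Embedding.nonempty_of_card_le (by
      simp only [Fintype.card_fun, Fintype.card_fin, Fintype.card_prod, Fintype.card_bool, ← sq]
      exact capacity k)
  refine ⟨fun t u => if h : 3 ≤ (u.1 : ℕ) ∧ 3 ≤ (u.2 : ℕ) then
    g t (⟨u.1 - 3, by have := u.1.2; omega⟩, ⟨u.2 - 3, by have := u.2.2; omega⟩) else false,
    fun t t' h => g.injective (funext fun p => ?_)⟩
  have := h (⟨p.1 + 3, by have := p.1.2; omega⟩, ⟨p.2 + 3, by have := p.2.2; omega⟩)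
    (by simp) (by simp)
  simpa using this

end Pool.Agent.MP_12f186_an

end

-- part MP_12f186_an.Defs
section

/-! The random tile hierarchy, its products and the binary coding. -/

set_option autoImplicit false
open MeasureTheory ProbabilityTheory Set Filter Topology Function
open scoped ENNReal

namespace Pool.Agent.MP_12f186_an

/-- uniform probability on a finite type -/
noncomputable def U (α : Type) [MeasurableSpace α] : Measure α := uniformOn (univ : Set α)

instance (α : Type) [MeasurableSpace α] [Finite α] [Nonempty α] : IsProbabilityMeasure (U α) := by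
  unfold U; infer_instance

noncomputable def code (k : ℕ) : Code (Pos k) (TT k) (TT (k + 1)) (XX (k + 1)) :=
  Classical.choice (exists_code k)

/-- random relabellings at level `k` -/
def HH (k : ℕ) : Type := Pos k → Equiv.Perm (TT k)

instance (k : ℕ) : Group (HH k) := inferInstanceAs (Group (Pos k → Equiv.Perm (TT k)))
noncomputable instance (k : ℕ) : Fintype (HH k) :=
  inferInstanceAs (Fintype (Pos k → Equiv.Perm (TT k)))
instance (k : ℕ) : MeasurableSpace (HH k) := ⊤
instance (k : ℕ) : DiscreteMeasurableSpace (HH k) := ⟨fun _ => trivial⟩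

abbrev AA := (k : ℕ) → HH k
abbrev EE := (k : ℕ) → XX k
abbrev TS := (k : ℕ) → TT k

/-- raw entry of the code word -/
noncomputable def raw (k : ℕ) (u : Pos k) (P : TT (k + 1)) : TT k := ((code k).eqv u P).1

/-- type of the level `k` tile at index `u` in a level `k+1` tile of type `P` -/
noncomputable def val (a : AA) (k : ℕ) (u : Pos k) (P : TT (k + 1)) : TT k := a k u (raw k u P)

noncomputable def up (a : AA) (k : ℕ) (u : Pos k) (α : TT k) (χ : XX (k + 1)) : TT (k + 1) :=
  ((code k).eqv u).symm ((a k u).symm α, χ)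

noncomputable def extr (k : ℕ) (u : Pos k) (P : TT (k + 1)) : XX (k + 1) := ((code k).eqv u P).2

/-- types of all the tiles of level at most `K` containing position `z` of a tile of type `P` -/
noncomputable def stack (a : AA) : (K : ℕ) → TT K → Z2 → TS
  | 0, P, _ => Function.update (fun _ => default) 0 P
  | K + 1, P, z => Function.update (stack a K (val a K (dg K z) P) z) (K + 1) P

/-- type of the level `k` tile of the origin -/
noncomputable def typ (a : AA) (o : OO) (e : EE) : (k : ℕ) → TT k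
  | 0 => e 0
  | k + 1 => up a k (dg k (pos (k + 1) o)) (typ a o e k) (e (k + 1))

/-- the extra choices read off a sequence of types -/
noncomputable def exs (o : OO) (t : TS) : (k : ℕ) → XX k
  | 0 => t 0
  | k + 1 => extr k (dg k (pos (k + 1) o)) (t (k + 1))

noncomputable def lev (o : OO) (v : Z2) : ℕ := sInf {K | InBox K (pos K o + v)}

/-- types of the tiles containing the lattice point `v` -/
noncomputable def tyS (a : AA) (o : OO) (e : EE) (v : Z2) : TS := fun k =>
  stack a (max k (lev o v)) (typ a o e (max k (lev o v))) (pos (max k (lev o v)) o + v) k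

noncomputable def shE (a : AA) (o : OO) (v : Z2) (e : EE) : EE := exs (o + io v) (tyS a o e v)

abbrev Xi := (AA × OO) × EE
abbrev Om := ℕ → Xi
abbrev XP := ℕ → AA × OO
abbrev YY := OO × (ℕ → EE)

noncomputable def lamA : Measure AA := Measure.infinitePi fun k => U (HH k)
noncomputable def lamE : Measure EE := Measure.infinitePi fun k => U (XX k)
instance : IsProbabilityMeasure lamA := by unfold lamA; infer_instance
instance : IsProbabilityMeasure lamE := by unfold lamE; infer_instance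
noncomputable def xiM : Measure Xi := (lamA.prod haarO).prod lamE
instance : IsProbabilityMeasure xiM := by unfold xiM; infer_instance
noncomputable def omM : Measure Om := Measure.infinitePi fun _ => xiM
instance : IsProbabilityMeasure omM := by unfold omM; infer_instance
noncomputable def xpM : Measure XP := Measure.infinitePi fun _ => lamA.prod haarO
instance : IsProbabilityMeasure xpM := by unfold xpM; infer_instance
noncomputable def yM : Measure YY := haarO.prod (Measure.infinitePi fun _ => lamE)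
instance : IsProbabilityMeasure yM := by unfold yM; infer_instance

noncomputable def sXi (v : Z2) (ξ : Xi) : Xi :=
  ((ξ.1.1, ξ.1.2 + io v), shE ξ.1.1 ξ.1.2 v ξ.2)

noncomputable def sOm (v : Z2) (ω : Om) : Om := fun n => sXi v (ω n)

noncomputable def JJ (x : XP) (y : YY) : Om := fun n => (((x n).1, y.1 + (x n).2), y.2 n)

noncomputable def sY (x : XP) (v : Z2) (y : YY) : YY :=
  (y.1 + io v, fun n => shE (x n).1 (y.1 + (x n).2) v (y.2 n))

/-- type at level `k` of a point -/
noncomputable def ty (ξ : Xi) (k : ℕ) : TT k := typ ξ.1.1 ξ.1.2 ξ.2 k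

/-- position at level `k` of a point -/
noncomputable def ps (ξ : Xi) (k : ℕ) : Z2 := pos k ξ.1.2

def GoodOm (ω : Om) : Prop := ∀ n, GoodO (ω n).1.2

abbrev SS (j : ℕ) := Fin j → PB j × TT j

/-- level `j` state of the first `j` factors -/
noncomputable def st (j : ℕ) (ω : Om) : SS j := fun n => (fb j (ps (ω n) j), ty (ω n) j)

theorem exists_enc (k : ℕ) : ∃ f : (Fin (k + 1) → TT (k + 1)) → Pos k → Bool,
    ∀ t t', (∀ u : Pos k, 3 ≤ (u.1 : ℕ) → 3 ≤ (u.2 : ℕ) → f t u = f t' u) → t = t' :=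
  exists_enc' k

noncomputable def enc (k : ℕ) : (Fin (k + 1) → TT (k + 1)) → Pos k → Bool :=
  Classical.choose (exists_enc k)

/-- the bit written at a level `k` site -/
def bitK (k : ℕ) (u : Pos k) (d : Pos k → Bool) : Prop :=
  (u.1 : ℕ) = 0 ∨ (u.2 : ℕ) = 0 ∨ (3 ≤ (u.1 : ℕ) ∧ 3 ≤ (u.2 : ℕ) ∧ d u = true)

/-- the bit at the origin -/
def bitP (ω : Om) : Prop :=
  ∃ k, ps (ω 0) k = 0 ∧ ps (ω 0) (k + 1) ≠ 0 ∧
    bitK k (dg k (ps (ω 0) (k + 1)))
      (enc k fun n => ty (sXi (-(ps (ω 0) (k + 1))) (ω n)) (k + 1))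

open Classical in
/-- the binary coding -/
noncomputable def kap (ω : Om) : Z2 → Bool := fun v => decide (bitP (sOm v ω))

end Pool.Agent.MP_12f186_an

end

-- part MP_12f186_an.Tower
section

/-! Deterministic structure of the tile hierarchy. -/

set_option autoImplicit false
open MeasureTheory ProbabilityTheory Set Filter Topology Function
open scoped ENNReal

namespace Pool.Agent.MP_12f186_an

theorem bbZ_pos (k : ℕ) : (0 : ℤ) < bb k := by exact_mod_cast bb_pos k
theorem qqZ_pos (k : ℕ) : (0 : ℤ) < qq k := by exact_mod_cast qq_pos k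

theorem bbZ_dvd {j k : ℕ} (h : j ≤ k) : (bb j : ℤ) ∣ bb k := by exact_mod_cast bb_dvd h

theorem bbZ_succ (k : ℕ) : (bb (k + 1) : ℤ) = bb k * qq k := by
  rw [bb_succ]; push_cast; ring

theorem md_inBox (K : ℕ) (z : Z2) : InBox K (md K z) :=
  ⟨Int.emod_nonneg _ (bbZ_pos K).ne', Int.emod_lt_of_pos _ (bbZ_pos K),
    Int.emod_nonneg _ (bbZ_pos K).ne', Int.emod_lt_of_pos _ (bbZ_pos K)⟩

theorem md_md {j K : ℕ} (h : j ≤ K) (z : Z2) : md j (md K z) = md j z :=
  Prod.ext (Int.emod_emod_of_dvd _ (bbZ_dvd h)) (Int.emod_emod_of_dvd _ (bbZ_dvd h))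

theorem md_add_md (K : ℕ) (z w : Z2) : md K (md K z + w) = md K (z + w) :=
  Prod.ext (Int.emod_add_emod _ _ _) (Int.emod_add_emod _ _ _)

theorem md_add_md_le {j K : ℕ} (h : j ≤ K) (z w : Z2) : md j (md K z + w) = md j (z + w) := by
  rw [← md_add_md, md_md h, md_add_md]

theorem fb1_eq_iff {K : ℕ} {x x' : ℤ} : fb1 K x = fb1 K x' ↔ x % bb K = x' % bb K := by
  have h1 := Int.emod_nonneg x (bbZ_pos K).ne'
  have h2 := Int.emod_nonneg x' (bbZ_pos K).ne'
  simp only [fb1, Fin.mk.injEq]
  omega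

theorem fb_eq_iff {K : ℕ} {z z' : Z2} : fb K z = fb K z' ↔ md K z = md K z' := by
  simp only [fb, md, Prod.mk.injEq, fb1_eq_iff]

theorem fb_md {j K : ℕ} (h : j ≤ K) (z : Z2) : fb j (md K z) = fb j z :=
  fb_eq_iff.2 (md_md h z)

theorem dg1_val (k : ℕ) (x : ℤ) : ((dg1 k x : ℕ) : ℤ) = x / bb k % qq k := by
  have := Int.emod_nonneg (x / bb k) (qqZ_pos k).ne'
  simp only [dg1]
  omega

theorem dg1_eq_iff {k : ℕ} {x x' : ℤ} :
    dg1 k x = dg1 k x' ↔ x / bb k % qq k = x' / bb k % qq k := by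
  rw [← dg1_val, ← dg1_val, Fin.ext_iff, Nat.cast_inj]

theorem emod_succ (k : ℕ) (x : ℤ) :
    x % bb (k + 1) = bb k * (x / bb k % qq k) + x % bb k := by
  rw [bbZ_succ]
  have hb := bbZ_pos k
  have hq := qqZ_pos k
  have h1 := Int.mul_ediv_add_emod x (bb k)
  have h2 := Int.mul_ediv_add_emod (x / bb k) (qq k)
  have h3 := Int.emod_nonneg x hb.ne'
  have h4 := Int.emod_lt_of_pos x hb
  have h5 := Int.emod_nonneg (x / bb k) hq.ne'
  have h6 := Int.emod_lt_of_pos (x / bb k) hq
  have key : x = (bb k * (x / bb k % qq k) + x % bb k) + (bb k * qq k) * (x / bb k / qq k) := by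
    linear_combination -h1 - (bb k : ℤ) * h2
  conv_lhs => rw [key]
  rw [Int.add_mul_emod_self_left]
  apply Int.emod_eq_of_lt
  · positivity
  · nlinarith

theorem dg1_md {k K : ℕ} (h : k < K) (x : ℤ) : dg1 k (x % bb K) = dg1 k x := by
  rw [dg1_eq_iff]
  have h1 := emod_succ k (x % bb K)
  have h2 := emod_succ k x
  rw [Int.emod_emod_of_dvd _ (bbZ_dvd h), Int.emod_emod_of_dvd _ (bbZ_dvd h.le)] at h1
  have := bbZ_pos k
  exact Int.eq_of_mul_eq_mul_left this.ne' (by linarith)

theorem dg_md {k K : ℕ} (h : k < K) (z : Z2) : dg k (md K z) = dg k z :=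
  Prod.ext (dg1_md h _) (dg1_md h _)

/-- a position modulo the big tile is determined by the index and the position in the small tile -/
theorem md_succ_eq (k : ℕ) (z : Z2) :
    md (k + 1) z = ((bb k : ℤ) * ((dg k z).1 : ℕ) + (md k z).1,
      (bb k : ℤ) * ((dg k z).2 : ℕ) + (md k z).2) := by
  simp only [md, dg, dg1_val, emod_succ]

theorem dg1_add {k : ℕ} {x w : ℤ} (h1 : 0 ≤ x % bb k + w) (h2 : x % bb k + w < bb k) :
    dg1 k (x + w) = dg1 k x := by
  rw [dg1_eq_iff]
  congr 1
  have hb := bbZ_pos k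
  have h := Int.mul_ediv_add_emod x (bb k)
  have : x + w = (x % bb k + w) + bb k * (x / bb k) := by linarith
  rw [this, Int.add_mul_ediv_left _ _ hb.ne', Int.ediv_eq_zero_of_lt h1 h2, zero_add]

theorem dg_add_of_inBox {k : ℕ} {z w : Z2} (h : InBox k (md k z + w)) : dg k (z + w) = dg k z :=
  Prod.ext (dg1_add h.1 h.2.1) (dg1_add h.2.2.1 h.2.2.2)

theorem stack_self (a : AA) (K : ℕ) (P : TT K) (z : Z2) : stack a K P z K = P := by
  cases K <;> simp [stack]

theorem stack_succ (a : AA) {K j : ℕ} (h : j ≤ K) (P : TT (K + 1)) (z : Z2) :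
    stack a (K + 1) P z j = stack a K (val a K (dg K z) P) z j := by
  simp only [stack]
  rw [Function.update_of_ne (by omega)]

theorem stack_md (a : AA) {K K' : ℕ} (h : K ≤ K') (P : TT K) (z : Z2) :
    stack a K P (md K' z) = stack a K P z := by
  induction K with
  | zero => rfl
  | succ K ih => simp only [stack]; rw [dg_md (by omega), ih (by omega)]

theorem stack_of_md_eq (a : AA) {K : ℕ} (P : TT K) {z z' : Z2} (h : md K z = md K z') :
    stack a K P z = stack a K P z' := by
  rw [← stack_md a le_rfl P z, h, stack_md a le_rfl]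

theorem stack_stack (a : AA) {i j K : ℕ} (hi : i ≤ j) (h : j ≤ K) (P : TT K) (z : Z2) :
    stack a j (stack a K P z j) z i = stack a K P z i := by
  induction K, h using Nat.le_induction with
  | base => rw [stack_self]
  | succ K hK ih => rw [stack_succ a hK, stack_succ a (hi.trans hK), ih]

theorem stack_congr {a a' : AA} {K : ℕ} (h : ∀ k, k < K → a k = a' k) :
    stack a K = stack a' K := by
  induction K with
  | zero => rfl
  | succ K ih =>
    funext P z
    simp only [stack, val]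
    rw [ih fun k hk => h k (by omega), h K (by omega)]

theorem val_up (a : AA) (k : ℕ) (u : Pos k) (α : TT k) (χ : XX (k + 1)) :
    val a k u (up a k u α χ) = α := by
  simp [val, raw, up]

theorem extr_up (a : AA) (k : ℕ) (u : Pos k) (α : TT k) (χ : XX (k + 1)) :
    extr k u (up a k u α χ) = χ := by
  simp [extr, up]

theorem up_val (a : AA) (k : ℕ) (u : Pos k) (P : TT (k + 1)) :
    up a k u (val a k u P) (extr k u P) = P := by
  simp [val, raw, up, extr]

theorem typ_eq_val (a : AA) (o : OO) (e : EE) (k : ℕ) :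
    typ a o e k = val a k (dg k (pos (k + 1) o)) (typ a o e (k + 1)) := by
  simp only [typ, val_up]

theorem stack_typ (a : AA) (o : OO) (e : EE) {j K : ℕ} (h : j ≤ K) :
    stack a K (typ a o e K) (pos K o) j = typ a o e j := by
  induction K, h using Nat.le_induction with
  | base => rw [stack_self]
  | succ K hK ih =>
    rw [stack_succ a hK, ← typ_eq_val, ← stack_md a le_rfl, md_pos (Nat.le_succ K), ih]

theorem exs_typ (a : AA) (o : OO) (e : EE) : exs o (typ a o e) = e := by
  funext k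
  cases k with
  | zero => rfl
  | succ k => simp only [exs, typ, extr_up]

theorem typ_exs {a : AA} {o : OO} {t : TS} (K : ℕ)
    (h : ∀ k, k < K → t k = val a k (dg k (pos (k + 1) o)) (t (k + 1))) :
    typ a o (exs o t) K = t K := by
  induction K with
  | zero => rfl
  | succ K ih =>
    simp only [typ, exs]
    rw [ih fun k hk => h k (by omega), h K (by omega), up_val]

theorem typ_ext {a : AA} {o : OO} {e e' : EE} (K₀ : ℕ)
    (h : ∀ K, K₀ ≤ K → typ a o e K = typ a o e' K) : e = e' := by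
  have : typ a o e = typ a o e' := by
    funext j
    rw [← stack_typ a o e (le_max_left j K₀), ← stack_typ a o e' (le_max_left j K₀),
      h _ (le_max_right j K₀)]
  rw [← exs_typ a o e, this, exs_typ]

theorem lev_spec {o : OO} (ho : GoodO o) (v : Z2) : InBox (lev o v) (pos (lev o v) o + v) :=
  Nat.sInf_mem (s := {K | InBox K (pos K o + v)}) (ho v)

theorem lev_le {o : OO} {v : Z2} {K : ℕ} (h : InBox K (pos K o + v)) : lev o v ≤ K :=
  Nat.sInf_le (s := {K | InBox K (pos K o + v)}) h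

theorem stack_lift (a : AA) (o : OO) (e : EE) {v : Z2} {j K K' : ℕ} (hj : j ≤ K) (hK : K ≤ K')
    (h : InBox K (pos K o + v)) :
    stack a K' (typ a o e K') (pos K' o + v) j = stack a K (typ a o e K) (pos K o + v) j := by
  induction K', hK using Nat.le_induction with
  | base => rfl
  | succ K' hK ih =>
    have h1 : InBox K' (md K' (pos (K' + 1) o) + v) := by
      rw [md_pos (Nat.le_succ K')]; exact inBox_mono h hK
    rw [stack_succ a (hj.trans hK), dg_add_of_inBox h1, ← typ_eq_val, ← ih]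
    exact congrFun (stack_of_md_eq a _
      (by rw [← md_add_md, md_pos (Nat.le_succ K')])) j

theorem tyS_eq {a : AA} {o : OO} (ho : GoodO o) (e : EE) {v : Z2} {j K : ℕ} (hj : j ≤ K)
    (h : InBox K (pos K o + v)) : tyS a o e v j = stack a K (typ a o e K) (pos K o + v) j := by
  unfold tyS
  rw [stack_lift a o e (le_max_left j (lev o v)) (max_le hj (lev_le h))
    (inBox_mono (lev_spec ho v) (le_max_right _ _))]

theorem typ_shE_eq {a : AA} {o : OO} (ho : GoodO o) (e : EE) (v : Z2) (j : ℕ) :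
    typ a (o + io v) (shE a o v e) j = tyS a o e v j := by
  apply typ_exs
  intro k _
  obtain ⟨K₀, hK₀⟩ := ho v
  have hK : InBox (max K₀ (k + 1)) (pos (max K₀ (k + 1)) o + v) := inBox_mono hK₀ (le_max_left _ _)
  have h1 : k + 1 ≤ max K₀ (k + 1) := le_max_right _ _
  rw [tyS_eq ho e h1 hK, tyS_eq ho e (by omega) hK, ← stack_stack a (Nat.le_succ k) h1,
    stack_succ a le_rfl, stack_self, pos_add, dg_md (Nat.lt_succ_self k), ← md_pos h1,
    ← dg_md (Nat.lt_succ_self k) (md (k + 1) _ + v), md_add_md, dg_md (Nat.lt_succ_self k)]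

theorem typ_shE {a : AA} {o : OO} (ho : GoodO o) (e : EE) (v : Z2) {K : ℕ}
    (h : InBox K (pos K o + v)) : typ a (o + io v) (shE a o v e) K = typ a o e K := by
  rw [typ_shE_eq ho, tyS_eq ho e le_rfl h, stack_self]

theorem ps_sXi (ξ : Xi) (v : Z2) (K : ℕ) : ps (sXi v ξ) K = md K (ps ξ K + v) :=
  pos_add K _ v

theorem ps_sXi_of_inBox {ξ : Xi} {v : Z2} {K : ℕ} (h : InBox K (ps ξ K + v)) :
    ps (sXi v ξ) K = ps ξ K + v := by rw [ps_sXi, md_of_inBox h]

theorem ps_inBox (ξ : Xi) (K : ℕ) : InBox K (ps ξ K) := pos_inBox K _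

theorem md_ps {j K : ℕ} (h : j ≤ K) (ξ : Xi) : md j (ps ξ K) = ps ξ j := md_pos h _

theorem ps_sXi_le (ξ : Xi) (v : Z2) {j K : ℕ} (h : j ≤ K) :
    ps (sXi v ξ) j = md j (ps ξ K + v) := by
  rw [ps_sXi, ← md_ps h, md_add_md]

theorem ty_sXi {ξ : Xi} (ho : GoodO ξ.1.2) {v : Z2} {K : ℕ} (h : InBox K (ps ξ K + v)) :
    ty (sXi v ξ) K = ty ξ K := typ_shE ho _ v h

theorem ty_sXi_le {ξ : Xi} (ho : GoodO ξ.1.2) {v : Z2} {j K : ℕ} (hj : j ≤ K)
    (h : InBox K (ps ξ K + v)) :
    ty (sXi v ξ) j = stack ξ.1.1 K (ty ξ K) (ps ξ K + v) j :=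
  (typ_shE_eq ho _ v j).trans (tyS_eq ho _ hj h)

theorem ty_eq_val (ξ : Xi) (k : ℕ) :
    ty ξ k = val ξ.1.1 k (dg k (ps ξ (k + 1))) (ty ξ (k + 1)) := typ_eq_val _ _ _ k

theorem stack_ty (ξ : Xi) {j K : ℕ} (h : j ≤ K) :
    stack ξ.1.1 K (ty ξ K) (ps ξ K) j = ty ξ j := stack_typ _ _ _ h

theorem Xi.ext' {ξ ξ' : Xi} (ha : ξ.1.1 = ξ'.1.1) (K₀ : ℕ)
    (hp : ∀ K, K₀ ≤ K → ps ξ K = ps ξ' K) (ht : ∀ K, K₀ ≤ K → ty ξ K = ty ξ' K) : ξ = ξ' := by
  obtain ⟨⟨a, o⟩, e⟩ := ξ
  obtain ⟨⟨a', o'⟩, e'⟩ := ξ'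
  obtain rfl : a = a' := ha
  obtain rfl : o = o' := ext_pos K₀ hp
  obtain rfl : e = e' := typ_ext K₀ ht
  rfl

theorem sXi_zero {ξ : Xi} (ho : GoodO ξ.1.2) : sXi 0 ξ = ξ := by
  have h : ∀ K, InBox K (ps ξ K + 0) := fun K => by rw [add_zero]; exact ps_inBox ξ K
  refine Xi.ext' rfl 0 (fun K _ => ?_) fun K _ => ty_sXi ho (h K)
  rw [ps_sXi_of_inBox (h K), add_zero]

theorem sXi_add {ξ : Xi} (ho : GoodO ξ.1.2) (v w : Z2) : sXi w (sXi v ξ) = sXi (v + w) ξ := by
  obtain ⟨K₁, h₁⟩ := ho v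
  obtain ⟨K₂, h₂⟩ := ho (v + w)
  refine Xi.ext' rfl (max K₁ K₂) (fun K _ => ?_) fun K hK => ?_
  · rw [ps_sXi, ps_sXi, ps_sXi, md_add_md, add_assoc]
  · have g₁ : InBox K (ps ξ K + v) := inBox_mono h₁ (le_of_max_le_left hK)
    have g₂ : InBox K (ps ξ K + (v + w)) := inBox_mono h₂ (le_of_max_le_right hK)
    have g₃ : InBox K (ps (sXi v ξ) K + w) := by
      rwa [ps_sXi_of_inBox g₁, add_assoc]
    have g₄ : GoodO (sXi v ξ).1.2 := ho.add v
    exact ((ty_sXi g₄ g₃).trans (ty_sXi ho g₁)).trans (ty_sXi ho g₂).symm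

theorem JJ_sY (x : XP) (v : Z2) (y : YY) : JJ x (sY x v y) = sOm v (JJ x y) := by
  funext n
  simp only [JJ, sY, sOm, sXi, add_right_comm]

theorem JJ_inj (x : XP) : Injective (JJ x) := by
  intro y y' h
  have h0 := congrArg (fun ω : Om => (ω 0).1.2) h
  simp only [JJ, add_left_inj] at h0
  exact Prod.ext h0 (funext fun n => congrArg (fun ω : Om => (ω n).2) h)

theorem measurable_ps (k : ℕ) : Measurable fun ξ : Xi => ps ξ k :=
  (measurable_pos k).comp measurable_fst.snd

/-- a function of countably valued measurable data is measurable -/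
theorem meas_of_countable {X α β : Type} [MeasurableSpace X] [MeasurableSpace α]
    [MeasurableSpace β] [Countable α] [MeasurableSingletonClass α] {f : X → α}
    (hf : Measurable f) (g : α → X → β) (hg : ∀ c, Measurable (g c)) :
    Measurable fun x => g (f x) x := by
  intro s hs
  have : (fun x => g (f x) x) ⁻¹' s = ⋃ c, f ⁻¹' {c} ∩ g c ⁻¹' s := by
    ext x; simp
  rw [this]
  exact MeasurableSet.iUnion fun c => (hf (measurableSet_singleton c)).inter (hg c hs)

theorem measurable_typ (k : ℕ) : Measurable fun ξ : Xi => ty ξ k := by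
  induction k with
  | zero =>
    show Measurable fun ξ : Xi => ξ.2 0
    exact (measurable_pi_apply 0).comp measurable_snd
  | succ k ih =>
    have h : Measurable fun ξ : Xi => (ξ.1.1 k, ps ξ (k + 1), ty ξ k, ξ.2 (k + 1)) :=
      ((measurable_pi_apply k).comp measurable_fst.fst).prodMk ((measurable_ps _).prodMk
        (ih.prodMk ((measurable_pi_apply (k + 1)).comp measurable_snd)))
    exact (measurable_of_countable (fun c : HH k × Z2 × TT k × XX (k + 1) =>
      ((code k).eqv (dg k c.2.1)).symm ((c.1 (dg k c.2.1)).symm c.2.2.1, c.2.2.2))).comp h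

theorem measurable_stack (K : ℕ) (P : TT K) (z : Z2) (j : ℕ) :
    Measurable fun a : AA => stack a K P z j := by
  induction K with
  | zero => exact measurable_const
  | succ K ih =>
    by_cases hj : j = K + 1
    · subst hj; simp only [stack_self]; exact measurable_const
    · simp only [stack, Function.update_of_ne hj]
      exact meas_of_countable (f := fun a : AA => val a K (dg K z) P)
        ((measurable_of_countable (fun h : HH K => h (dg K z) (raw K (dg K z) P))).comp
          (measurable_pi_apply K)) (fun c a => stack a K c z j) ih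

theorem measurable_lev (v : Z2) : Measurable fun o => lev o v := by
  have hb : Measurable fun (o : OO) (K : ℕ) => InBox K (pos K o + v) :=
    measurable_pi_lambda _ fun K =>
      (measurable_of_countable fun z : Z2 => InBox K (z + v)).comp (measurable_pos K)
  have hs : Measurable fun f : ℕ → Prop => sInf {K | f K} := by
    apply measurable_to_countable'
    intro n
    have : (fun f : ℕ → Prop => sInf {K | f K}) ⁻¹' {n} =
        ({f | f n} ∩ ⋂ K, ⋂ _ : K < n, {f | f K}ᶜ) ∪ ({_f | n = 0} ∩ ⋂ K, {f | f K}ᶜ) := by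
      ext f
      simp only [mem_preimage, mem_singleton_iff, mem_union, mem_inter_iff, mem_ofPred_eq,
        mem_iInter, mem_compl_iff]
      constructor
      · rintro rfl
        by_cases h : {K | f K}.Nonempty
        · exact Or.inl ⟨Nat.sInf_mem h, fun K hK => Nat.notMem_of_lt_sInf hK⟩
        · refine Or.inr ⟨?_, fun K hK => h ⟨K, hK⟩⟩
          rw [not_nonempty_iff_eq_empty.1 h, Nat.sInf_empty]
      · rintro (⟨h1, h2⟩ | ⟨hn, h⟩)
        · exact le_antisymm (Nat.sInf_le h1) (le_csInf ⟨n, h1⟩ fun K hK =>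
            not_lt.1 fun hlt => h2 K hlt hK)
        · rw [hn, Nat.sInf_eq_zero]
          exact Or.inr (eq_empty_of_forall_notMem fun K hK => h K hK)
    rw [this]
    have hm : ∀ K : ℕ, MeasurableSet {f : ℕ → Prop | f K} := fun K =>
      (measurable_pi_apply K).setOf
    exact ((hm n).inter (MeasurableSet.iInter fun K => MeasurableSet.iInter fun _ =>
      (hm K).compl)).union ((MeasurableSet.const _).inter
        (MeasurableSet.iInter fun K => (hm K).compl))
  exact hs.comp hb

theorem measurable_tyS (v : Z2) (k : ℕ) :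
    Measurable fun ξ : Xi => tyS ξ.1.1 ξ.1.2 ξ.2 v k := by
  refine meas_of_countable (f := fun ξ : Xi => lev ξ.1.2 v)
    ((measurable_lev v).comp measurable_fst.snd)
    (fun l ξ => stack ξ.1.1 (max k l) (ty ξ (max k l)) (ps ξ (max k l) + v) k) fun l => ?_
  exact meas_of_countable (f := fun ξ : Xi => (ty ξ (max k l), ps ξ (max k l)))
    ((measurable_typ _).prodMk (measurable_ps _))
    (fun c ξ => stack ξ.1.1 (max k l) c.1 (c.2 + v) k)
    fun c => (measurable_stack _ _ _ _).comp measurable_fst.fst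

theorem measurable_sXi (v : Z2) : Measurable (sXi v) := by
  refine (measurable_fst.fst.prodMk (measurable_fst.snd.add_const _)).prodMk
    (measurable_pi_lambda _ fun k => ?_)
  cases k with
  | zero => exact measurable_tyS v 0
  | succ k =>
    exact (measurable_of_countable fun c : Z2 × TT (k + 1) => extr k (dg k c.1) c.2).comp
      (((measurable_pos (k + 1)).comp (measurable_fst.snd.add_const (io v))).prodMk
        (measurable_tyS v (k + 1)))

theorem measurable_sOm (v : Z2) : Measurable (sOm v) :=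
  measurable_pi_lambda _ fun n => (measurable_sXi v).comp (measurable_pi_apply n)

theorem measurable_JJ : Measurable (uncurry JJ) := by
  refine measurable_pi_lambda _ fun n => ?_
  have h1 : Measurable fun p : XP × YY => p.1 n := (measurable_pi_apply n).comp measurable_fst
  exact (h1.fst.prodMk (measurable_snd.fst.add h1.snd)).prodMk
    ((measurable_pi_apply n).comp measurable_snd.snd)

theorem measurable_st (j : ℕ) : Measurable (st j) := by
  refine measurable_pi_lambda _ fun n => ?_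
  exact (((measurable_of_countable (fb j)).comp (measurable_ps j)).prodMk
    (measurable_typ j)).comp (measurable_pi_apply (n : ℕ))

end Pool.Agent.MP_12f186_an

end

-- part MP_12f186_an.ListDec
section

/-! List decoding: few types can be matched to a given labelling along a pair of walks. -/

set_option autoImplicit false
open Set Function

namespace Pool.Agent.MP_12f186_an

/-- a walk with steps of sup-norm at most one -/
def Walk (p : ℕ → Z2) : Prop := ∀ t, Small 1 (p (t + 1) - p t)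

/-- the good times of a pair of walks -/
def GoodT (a : AA) (k : ℕ) (P : TT k) (ω : Z2 → TT 0) (p p' : ℕ → Z2) (t : ℕ) : Prop :=
  stack a k P (p t) 0 = ω (p' t) ∧ ∀ j, j < k → Deep j (md j (p t))

open Classical in
/-- the type `P` is matched to the labelling `ω` -/
def Match (a : AA) (k : ℕ) (P : TT k) (ω : Z2 → TT 0) : Prop :=
  ∃ p p' : ℕ → Z2, Walk p ∧ Walk p' ∧ Injective p ∧ p' 0 = 0 ∧ (∀ t, t < len k → InBox k (p t)) ∧
    cc k < ((Finset.range (len k)).filter (GoodT a k P ω p p')).card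

theorem Walk.small {p : ℕ → Z2} (h : Walk p) (s t : ℕ) : Small t (p (s + t) - p s) := by
  induction t with
  | zero => simp [Small]
  | succ t ih =>
    have h1 := h (s + t)
    rw [← add_assoc]
    simp only [Small, Prod.fst_sub, Prod.snd_sub, abs_le] at h1 ih ⊢
    push_cast
    omega

theorem small_mono {D D' : ℤ} {v : Z2} (h : Small D v) (hD : D ≤ D') : Small D' v :=
  ⟨h.1.trans hD, h.2.trans hD⟩

theorem Walk.small_block {p : ℕ → Z2} (h : Walk p) (b : ℕ) {L t t' : ℕ} (ht : t < L)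
    (ht' : t' < L) : Small (2 * ((L : ℤ) - 1)) (p (b + t) - p (b + t')) := by
  have h1 := h.small b t
  have h2 := h.small b t'
  simp only [Small, Prod.fst_sub, Prod.snd_sub, abs_le] at h1 h2 ⊢
  omega

open Classical in
theorem Match.congr {a : AA} {k : ℕ} {P : TT k} {ω ω' : Z2 → TT 0}
    (h : ∀ w, Small ((len k : ℤ) - 1) w → ω w = ω' w) (hm : Match a k P ω) : Match a k P ω' := by
  obtain ⟨p, p', hp, hp', hi, h0, hb, hc⟩ := hm
  refine ⟨p, p', hp, hp', hi, h0, hb, lt_of_lt_of_le hc (Finset.card_le_card fun t ht => ?_)⟩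
  rw [Finset.mem_filter] at ht ⊢
  refine ⟨ht.1, ht.2.1.trans (h _ ?_), ht.2.2⟩
  have h1 := hp'.small 0 t
  rw [h0, sub_zero, zero_add] at h1
  have h2 := Finset.mem_range.1 ht.1
  exact small_mono h1 (by omega)

theorem Match.congr_a {a a' : AA} {k : ℕ} (h : ∀ j, j < k → a j = a' j) :
    Match a k = Match a' k := by
  have h1 : GoodT a k = GoodT a' k := by
    funext P ω p p' t
    simp only [GoodT, stack_congr h]
  funext P ω
  unfold Match
  rw [h1]

open Classical in
/-- times in poor blocks are few -/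
theorem poor_card (Q : ℕ → Prop) {L : ℕ} (hL : 0 < L) (r c : ℕ) :
    (((Finset.range (r * L)).filter Q).filter fun T =>
      ¬ c < ((Finset.range L).filter fun t => Q (T / L * L + t)).card).card ≤ r * c := by
  have h1 : (((Finset.range (r * L)).filter Q).filter fun T =>
      ¬ c < ((Finset.range L).filter fun t => Q (T / L * L + t)).card) ⊆
      ((Finset.range r).filter fun s =>
        ¬ c < ((Finset.range L).filter fun t => Q (s * L + t)).card).biUnion fun s =>
          ((Finset.range L).filter fun t => Q (s * L + t)).image fun t => s * L + t := by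
    intro T hT
    simp only [Finset.mem_filter, Finset.mem_range, Finset.mem_biUnion, Finset.mem_image] at hT ⊢
    have e : T / L * L + T % L = T := Nat.div_add_mod' T L
    exact ⟨T / L, ⟨(Nat.div_lt_iff_lt_mul hL).2 hT.1.1, hT.2⟩, T % L,
      ⟨Nat.mod_lt _ hL, by rw [e]; exact hT.1.2⟩, e⟩
  refine (Finset.card_le_card h1).trans (Finset.card_biUnion_le.trans ?_)
  refine (Finset.sum_le_card_nsmul _ _ c fun s hs => ?_).trans ?_
  · exact Finset.card_image_le.trans (not_lt.1 (Finset.mem_filter.1 hs).2)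
  · rw [smul_eq_mul]
    exact Nat.mul_le_mul_right _ ((Finset.card_filter_le _ _).trans (Finset.card_range r).le)

theorem eq_of_dg_fb {k : ℕ} {z z' : Z2} (h : InBox (k + 1) z) (h' : InBox (k + 1) z')
    (h1 : dg k z = dg k z') (h2 : fb k z = fb k z') : z = z' := by
  rw [← md_of_inBox h, ← md_of_inBox h', md_succ_eq, md_succ_eq, h1, fb_eq_iff.1 h2]

theorem block_inBox {k : ℕ} {p : ℕ → Z2} (hp : Walk p) {b t₀ t : ℕ} (h₀ : t₀ < len k)
    (ht : t < len k) (hd : Deep k (md k (p (b + t₀)))) :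
    InBox k (md k (p (b + t₀)) + (p (b + t) - p (b + t₀))) :=
  hd _ (hp.small_block b ht h₀)

theorem block_dg {k : ℕ} {p : ℕ → Z2} (hp : Walk p) {b t₀ t : ℕ} (h₀ : t₀ < len k)
    (ht : t < len k) (hd : Deep k (md k (p (b + t₀)))) : dg k (p (b + t)) = dg k (p b) := by
  have h1 := dg_add_of_inBox (block_inBox hp h₀ ht hd)
  have h2 := dg_add_of_inBox (block_inBox hp h₀ (len_pos k) hd)
  rw [add_sub_cancel] at h1 h2
  rw [h1, ← h2, add_zero]

open Classical in
theorem block_match {a : AA} {k : ℕ} {P : TT (k + 1)} {ω : Z2 → TT 0} {p p' : ℕ → Z2}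
    (hp : Walk p) (hp' : Walk p') (hi : Injective p) (Q : ℕ → Prop)
    (hQ : ∀ t, Q t → GoodT a (k + 1) P ω p p' t) {b t₀ : ℕ} (h₀ : t₀ < len k) (hq : Q (b + t₀))
    (hc : cc k < ((Finset.range (len k)).filter fun t => Q (b + t)).card) :
    Match a k (val a k (dg k (p b)) P) fun w => ω (p' b + w) := by
  have hd : Deep k (md k (p (b + t₀))) := (hQ _ hq).2 k (Nat.lt_succ_self k)
  refine ⟨fun t => md k (p (b + t₀)) + (p (b + t) - p (b + t₀)), fun t => p' (b + t) - p' b,
    fun t => ?_, fun t => ?_, fun t t' h => ?_, by simp, fun t ht => block_inBox hp h₀ ht hd,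
    lt_of_lt_of_le hc (Finset.card_le_card fun t ht => ?_)⟩
  · have := hp (b + t)
    rwa [add_sub_add_left_eq_sub, sub_sub_sub_cancel_right, ← add_assoc]
  · have := hp' (b + t)
    rwa [sub_sub_sub_cancel_right, ← add_assoc]
  · simp only [add_right_inj, sub_left_inj] at h
    have := hi h
    omega
  · rw [Finset.mem_filter] at ht ⊢
    have ht1 := Finset.mem_range.1 ht.1
    obtain ⟨g1, g2⟩ := hQ _ ht.2
    have hm : ∀ j, j ≤ k → md j (md k (p (b + t₀)) + (p (b + t) - p (b + t₀))) =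
        md j (p (b + t)) := fun j hj => by rw [md_add_md_le hj, add_sub_cancel]
    refine ⟨ht.1, ?_, fun j hj => ?_⟩
    · rw [stack_succ a (Nat.zero_le k), block_dg hp h₀ ht1 hd] at g1
      show stack a k _ (md k (p (b + t₀)) + (p (b + t) - p (b + t₀))) 0 =
        ω (p' b + (p' (b + t) - p' b))
      rw [stack_of_md_eq a _ (hm k le_rfl), add_sub_cancel]
      exact g1
    · show Deep j (md j (md k (p (b + t₀)) + (p (b + t) - p (b + t₀))))
      rw [hm j hj.le]
      exact g2 j (by omega)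

open Classical in
/-- a rich run contains rich subruns in many different tiles -/
theorem rich {a : AA} {k : ℕ} {P : TT (k + 1)} {ω : Z2 → TT 0} {p p' : ℕ → Z2}
    (hp : Walk p) (hp' : Walk p') (hi : Injective p)
    (hb : ∀ t, t < len (k + 1) → InBox (k + 1) (p t)) (Q : ℕ → Prop)
    (hQ : ∀ t, Q t → GoodT a (k + 1) P ω p p' t)
    (hc : cc (k + 1) < ((Finset.range (len (k + 1))).filter Q).card) :
    ∃ R : Finset ℕ, nn k ≤ (R.image fun s => dg k (p (s * len k))).card ∧
      ∀ s ∈ R, (s + 1) * len k ≤ len (k + 1) ∧ (∃ t, t < len k ∧ Q (s * len k + t)) ∧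
        Match a k (val a k (dg k (p (s * len k))) P) fun w => ω (p' (s * len k) + w) := by
  have hL := len_pos k
  have hex : ∀ s, cc k < ((Finset.range (len k)).filter fun t => Q (s * len k + t)).card →
      ∃ t, t < len k ∧ Q (s * len k + t) := fun s hs => by
    obtain ⟨t, ht⟩ := Finset.card_pos.1 (lt_of_le_of_lt (Nat.zero_le _) hs)
    rw [Finset.mem_filter, Finset.mem_range] at ht
    exact ⟨t, ht⟩
  refine ⟨(Finset.range (rr k)).filter fun s =>
    cc k < ((Finset.range (len k)).filter fun t => Q (s * len k + t)).card, ?_, fun s hs => ?_⟩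
  · have h1 := poor_card Q hL (rr k) (cc k)
    have h2 := Finset.card_filter_add_card_filter_not (s := (Finset.range (rr k * len k)).filter Q)
      fun T => cc k < ((Finset.range (len k)).filter fun t => Q (T / len k * len k + t)).card
    have h3 : (((Finset.range (rr k * len k)).filter Q).filter fun T =>
        cc k < ((Finset.range (len k)).filter fun t => Q (T / len k * len k + t)).card).card ≤
        ((((Finset.range (rr k)).filter fun s => cc k < ((Finset.range (len k)).filter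
          fun t => Q (s * len k + t)).card).image fun s => dg k (p (s * len k))) ×ˢ
          (Finset.univ : Finset (PB k))).card := by
      refine Finset.card_le_card_of_injOn (fun T => (dg k (p T), fb k (p T))) ?_ ?_
      · intro T hT
        simp only [Finset.coe_filter, Finset.mem_filter, Finset.mem_range, mem_ofPred_eq] at hT
        simp only [Finset.coe_product, Finset.coe_univ, mem_prod, mem_univ, and_true,
          Finset.mem_coe, Finset.mem_image, Finset.mem_filter, Finset.mem_range]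
        refine ⟨T / len k, ⟨(Nat.div_lt_iff_lt_mul hL).2 hT.1.1, hT.2⟩, ?_⟩
        obtain ⟨t₀, h₀, hq⟩ := hex _ hT.2
        have := block_dg hp h₀ (Nat.mod_lt T hL) ((hQ _ hq).2 k (Nat.lt_succ_self k))
        rw [Nat.div_add_mod'] at this
        exact this.symm
      · intro T hT T' hT' h
        simp only [Finset.coe_filter, Finset.mem_filter, Finset.mem_range, mem_ofPred_eq]
          at hT hT'
        simp only [Prod.mk.injEq] at h
        exact hi (eq_of_dg_fb (hb _ (by rw [len_succ]; exact hT.1.1))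
          (hb _ (by rw [len_succ]; exact hT'.1.1)) h.1 h.2)
    rw [Finset.card_product, Finset.card_univ, Fintype.card_prod, Fintype.card_fin, ← sq] at h3
    rw [cc_succ, len_succ] at hc
    refine Nat.le_of_mul_le_mul_right (le_trans ?_ h3) (pow_pos (bb_pos k) 2)
    omega
  · rw [Finset.mem_filter, Finset.mem_range] at hs
    obtain ⟨t₀, h₀, hq⟩ := hex s hs.2
    refine ⟨?_, ⟨t₀, h₀, hq⟩, block_match hp hp' hi Q hQ h₀ hq hs.2⟩
    rw [len_succ]
    exact Nat.mul_le_mul_right _ hs.1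

open Classical in
theorem list_bound (a : AA) (k : ℕ) (ω : Z2 → TT 0) :
    (Finset.univ.filter fun P : TT k => Match a k P ω).card ≤ LL k := by
  induction k generalizing ω with
  | zero =>
    rw [LL_zero]
    refine le_trans (Finset.card_le_card (t := {ω 0}) fun P hP => ?_) (Finset.card_singleton _).le
    obtain ⟨p, p', -, -, -, h0, -, hc⟩ := (Finset.mem_filter.1 hP).2
    obtain ⟨t, ht⟩ := Finset.card_pos.1 (lt_of_le_of_lt (Nat.zero_le _) hc)
    rw [Finset.mem_filter, Finset.mem_range, len_zero] at ht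
    obtain rfl : t = 0 := by omega
    have h1 := ht.2.1
    rw [stack_self, h0] at h1
    exact Finset.mem_singleton.2 h1
  | succ k ih =>
    let W : Finset Z2 := Finset.Icc (-(len (k + 1) : ℤ)) (len (k + 1)) ×ˢ
      Finset.Icc (-(len (k + 1) : ℤ)) (len (k + 1))
    have hW : W.card = (2 * len (k + 1) + 1) ^ 2 := by
      have : ((len (k + 1) : ℤ) + 1 - -(len (k + 1) : ℤ)).toNat = 2 * len (k + 1) + 1 := by omega
      rw [Finset.card_product, Int.card_Icc, this, sq]
    let S : Finset (Σ _ : Pos k × Z2, TT k) := (Finset.univ ×ˢ W).sigma fun uw =>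
      Finset.univ.filter fun α : TT k => Match a k α fun t => ω (uw.2 + t)
    have hS : S.card ≤ qq k ^ 2 * (2 * len (k + 1) + 1) ^ 2 * LL k := by
      rw [Finset.card_sigma]
      refine (Finset.sum_le_card_nsmul _ _ (LL k) fun uw _ => ih _).trans (le_of_eq ?_)
      rw [Finset.card_product, hW, Finset.card_univ, Fintype.card_prod, Fintype.card_fin, ← sq,
        smul_eq_mul]
    have hF : (Fintype.piFinset fun _ : Fin 10 => S).card ≤ LL (k + 1) := by
      rw [Fintype.card_piFinset, Finset.prod_const, Finset.card_univ, Fintype.card_fin, LL_succ]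
      exact Nat.pow_le_pow_left hS 10
    refine le_trans (Finset.card_le_card_of_forall_subsingleton
      (fun P f => Injective (fun i => (f i).1.1) ∧ ∀ i, val a k (f i).1.1 P = (f i).2)
      (fun P hP => ?_) fun f _ P hP P' hP' => ?_) hF
    · obtain ⟨p, p', hp, hp', hi, h0, hb, hc⟩ := (Finset.mem_filter.1 hP).2
      obtain ⟨R, hR, hR'⟩ := rich hp hp' hi hb _ (fun _ h => h) hc
      obtain ⟨u, hu⟩ := Function.Embedding.exists_of_card_le_finset (α := Fin 10)
        (s := R.image fun s => dg k (p (s * len k)))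
        (by rw [Fintype.card_fin]; rw [nn_eq] at hR; omega)
      have hs : ∀ i, ∃ s ∈ R, dg k (p (s * len k)) = u i := fun i =>
        Finset.mem_image.1 (hu ⟨i, rfl⟩)
      choose s hs hs' using hs
      refine ⟨fun i => ⟨(u i, p' (s i * len k)), val a k (u i) P⟩,
        Fintype.mem_piFinset.2 fun i => ?_, u.injective, fun i => rfl⟩
      obtain ⟨g1, -, g2⟩ := hR' _ (hs i)
      rw [hs'] at g2
      refine Finset.mem_sigma.2 ⟨Finset.mem_product.2 ⟨Finset.mem_univ _, ?_⟩,
        Finset.mem_filter.2 ⟨Finset.mem_univ _, g2⟩⟩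
      have h1 := hp'.small 0 (s i * len k)
      rw [h0, sub_zero, zero_add] at h1
      have h2 : ((s i * len k : ℕ) : ℤ) ≤ len (k + 1) := by
        exact_mod_cast le_trans (Nat.mul_le_mul_right _ (Nat.le_succ _)) g1
      have h3 := small_mono h1 h2
      exact Finset.mem_product.2 ⟨Finset.mem_Icc.2 (abs_le.1 h3.1), Finset.mem_Icc.2 (abs_le.1 h3.2)⟩
    · refine (code k).det P P' (Finset.univ.image fun i => (f i).1.1) ?_ fun u hu => ?_
      · rw [Finset.card_image_of_injective _ hP.2.1, Finset.card_univ, Fintype.card_fin]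
      · obtain ⟨i, -, rfl⟩ := Finset.mem_image.1 hu
        exact (a k (f i).1.1).injective ((hP.2.2 i).trans (hP'.2.2 i).symm)

end Pool.Agent.MP_12f186_an

end

-- part MP_12f186_an.OD
section

/-! Counting random relabellings; greedy choice of fresh positions. -/

set_option autoImplicit false

namespace Pool.Agent.MP_12f186_an

open Classical in
theorem od_step {N T : Type} [Fintype N] [DecidableEq N] [Fintype T] [DecidableEq T] (L : ℕ)
    (P : (N → Equiv.Perm T) → Prop) (u u' : N) (x x' : T) (Λ : T → Finset T)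
    (hΛ : ∀ β, (Λ β).card ≤ L) (hP : ∀ ρ σ, P ρ → P (Function.update ρ u σ))
    (hoff : ¬ (u = u' ∧ x = x')) :
    (Finset.univ.filter fun ρ : N → Equiv.Perm T => P ρ ∧ ρ u x ∈ Λ (ρ u' x')).card *
      (Fintype.card T - 1) ≤ L * (Finset.univ.filter P).card := by
  have h1 : (Finset.univ.filter fun ρ : N → Equiv.Perm T => P ρ ∧ ρ u x ∈ Λ (ρ u' x')).card *
      (Fintype.card T - 1) = ((Finset.univ.filter fun ρ : N → Equiv.Perm T =>
        P ρ ∧ ρ u x ∈ Λ (ρ u' x')).sigma fun ρ => Finset.univ.erase (ρ u' x')).card := by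
    rw [Finset.card_sigma, Finset.sum_congr rfl (g := fun _ => Fintype.card T - 1) fun ρ _ => by
      rw [Finset.card_erase_of_mem (Finset.mem_univ _), Finset.card_univ]]
    simp
  have h2 : ((Finset.univ.filter P).sigma fun ρ => Λ (ρ u' x')).card ≤
      L * (Finset.univ.filter P).card := by
    rw [Finset.card_sigma, mul_comm]
    exact (Finset.sum_le_card_nsmul _ _ L fun ρ _ => hΛ _).trans (by simp)
  rw [h1]
  refine le_trans (Finset.card_le_card_of_injOn
    (fun p => ⟨Function.update p.1 u (Equiv.swap (p.1 u x) p.2 * p.1 u), p.1 u x⟩) ?_ ?_) h2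
  · rintro ⟨ρ, γ⟩ hp
    simp only [Finset.coe_sigma, Set.mem_sigma_iff, Finset.coe_filter, Finset.mem_univ, true_and,
      Set.mem_ofPred_eq, Finset.mem_coe, Finset.mem_erase, and_true] at hp ⊢
    refine ⟨hP _ _ hp.1.1, ?_⟩
    have : Function.update ρ u (Equiv.swap (ρ u x) γ * ρ u) u' x' = ρ u' x' := by
      by_cases h : u' = u
      · subst h
        rw [Function.update_self, Equiv.Perm.mul_apply, Equiv.swap_apply_of_ne_of_ne]
        · exact fun e => hoff ⟨rfl, ((ρ u').injective e).symm⟩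
        · exact fun e => hp.2 e.symm
      · rw [Function.update_of_ne h]
    rw [this]
    exact hp.1.2
  · rintro ⟨ρ, γ⟩ _ ⟨ρ', γ'⟩ _ h
    simp only [Sigma.mk.injEq, heq_eq_eq] at h
    obtain ⟨h3, h4⟩ := h
    have h5 := congrFun h3 u
    simp only [Function.update_self] at h5
    have h6 : γ = γ' := by
      have := congrArg (fun σ : Equiv.Perm T => σ x) h5
      simpa using this
    subst h6
    rw [h4] at h5
    have h7 : ρ u = ρ' u := mul_left_cancel h5
    have h8 : ρ = ρ' := by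
      funext v
      by_cases hv : v = u
      · rw [hv, h7]
      · have := congrFun h3 v
        simpa [Function.update_of_ne hv] using this
    rw [h8]

open Classical in
theorem od_count {N T : Type} [Fintype N] [DecidableEq N] [Fintype T] [DecidableEq T] (L m : ℕ)
    (u u' : Fin m → N) (x x' : Fin m → T) (Λ : Fin m → T → Finset T)
    (hΛ : ∀ s β, (Λ s β).card ≤ L)
    (hfresh : ∀ s s', s < s' → u s' ≠ u s ∧ u s' ≠ u' s)
    (hoff : ∀ s, ¬ (u s = u' s ∧ x s = x' s)) :
    (Finset.univ.filter fun ρ : N → Equiv.Perm T =>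
        ∀ s, ρ (u s) (x s) ∈ Λ s (ρ (u' s) (x' s))).card * (Fintype.card T - 1) ^ m ≤
      L ^ m * Fintype.card (N → Equiv.Perm T) := by
  induction m with
  | zero => simp
  | succ m ih =>
    have h1 := ih (fun s => u s.castSucc) (fun s => u' s.castSucc) (fun s => x s.castSucc)
      (fun s => x' s.castSucc) (fun s => Λ s.castSucc) (fun s => hΛ _)
      (fun s s' h => hfresh _ _ (Fin.castSucc_lt_castSucc_iff.2 h)) (fun s => hoff _)
    have h2 := od_step L (fun ρ : N → Equiv.Perm T => ∀ s : Fin m,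
        ρ (u s.castSucc) (x s.castSucc) ∈ Λ s.castSucc (ρ (u' s.castSucc) (x' s.castSucc)))
      (u (Fin.last m)) (u' (Fin.last m)) (x (Fin.last m)) (x' (Fin.last m)) (Λ (Fin.last m))
      (hΛ _) (fun ρ σ h s => by
        obtain ⟨e1, e2⟩ := hfresh s.castSucc (Fin.last m) (Fin.castSucc_lt_last s)
        rw [Function.update_of_ne e1.symm, Function.update_of_ne e2.symm]
        exact h s) (hoff _)
    have h3 : (Finset.univ.filter fun ρ : N → Equiv.Perm T =>
        ∀ s, ρ (u s) (x s) ∈ Λ s (ρ (u' s) (x' s))) =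
        Finset.univ.filter fun ρ : N → Equiv.Perm T => (∀ s : Fin m,
          ρ (u s.castSucc) (x s.castSucc) ∈ Λ s.castSucc (ρ (u' s.castSucc) (x' s.castSucc))) ∧
          ρ (u (Fin.last m)) (x (Fin.last m)) ∈
            Λ (Fin.last m) (ρ (u' (Fin.last m)) (x' (Fin.last m))) := by
      ext ρ
      simp only [Finset.mem_filter, Finset.mem_univ, true_and, Fin.forall_fin_succ']
    rw [h3, pow_succ', ← mul_assoc, pow_succ', mul_assoc L]
    refine le_trans (Nat.mul_le_mul_right _ (le_trans (le_of_eq ?_) h2)) ?_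
    · congr
    · rw [mul_assoc]
      refine Nat.mul_le_mul_left _ (le_trans (le_of_eq ?_) h1)
      congr

theorem greedy {I N : Type} [DecidableEq N] (m : ℕ) (R : Finset I) (u u' : I → N)
    (h : 2 * m ≤ (R.image u).card) :
    ∃ s : Fin m → I, (∀ i, s i ∈ R) ∧
      ∀ i j, i < j → u (s j) ≠ u (s i) ∧ u (s j) ≠ u' (s i) := by
  induction m with
  | zero => exact ⟨Fin.elim0, fun i => i.elim0, fun i => i.elim0⟩
  | succ m ih =>
    obtain ⟨s, hs, hs'⟩ := ih (by omega)
    have h1 : (Finset.univ.image (fun i => u (s i)) ∪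
        Finset.univ.image fun i => u' (s i)).card < (R.image u).card := by
      refine lt_of_le_of_lt (Finset.card_union_le _ _) ?_
      have a1 := Finset.card_image_le (s := Finset.univ) (f := fun i => u (s i))
      have a2 := Finset.card_image_le (s := Finset.univ) (f := fun i => u' (s i))
      rw [Finset.card_univ, Fintype.card_fin] at a1 a2
      omega
    obtain ⟨y, hy, hy'⟩ := Finset.exists_mem_notMem_of_card_lt_card h1
    obtain ⟨r, hr, rfl⟩ := Finset.mem_image.1 hy
    simp only [Finset.mem_union, Finset.mem_image, Finset.mem_univ, true_and, not_or,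
      not_exists] at hy'
    refine ⟨Fin.snoc s r, fun i => ?_, fun i j hij => ?_⟩
    · refine Fin.lastCases ?_ (fun i => ?_) i
      · simpa using hr
      · simpa using hs i
    · revert hij
      refine Fin.lastCases ?_ (fun i => ?_) i
      · intro hij; exact absurd hij (not_lt.2 (Fin.le_last j))
      · refine Fin.lastCases ?_ (fun j => ?_) j
        · intro _
          simp only [Fin.snoc_last, Fin.snoc_castSucc]
          exact ⟨fun e => hy'.1 i e.symm, fun e => hy'.2 i e.symm⟩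
        · intro hij
          simp only [Fin.snoc_castSucc]
          exact hs' i j (Fin.castSucc_lt_castSucc_iff.1 hij)

end Pool.Agent.MP_12f186_an

end

-- part MP_12f186_an.Bad
section

/-! Almost surely there are no long off diagonal coincidences. -/

set_option autoImplicit false
open MeasureTheory ProbabilityTheory Set Filter Topology Function
open scoped ENNReal

namespace Pool.Agent.MP_12f186_an

/-- the labelling seen around the start of a subrun -/
noncomputable def lab (a : ℕ → AA) (i j k : ℕ) (ψ : SS j → TT 0) (Q : Fin j → TT (k + 1))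
    (z : Fin j → Z2) (w : Z2) (β : TT k) : Z2 → TT 0 := fun t =>
  ψ fun n => (fb j (z n + w + t),
    if (n : ℕ) = i then stack (a i) k β (z n + w + t) j
    else stack (a n) (k + 1) (Q n) (z n + w + t) j)

def Fresh {m k : ℕ} (u u' : Fin m → Pos k) : Prop :=
  ∀ s s', s < s' → u s' ≠ u s ∧ u s' ≠ u' s

def BadA (a : ℕ → AA) (j : ℕ) (i : Fin j) (ψ : SS j → TT 0) (k : ℕ) : Prop :=
  ∃ (P : TT (k + 1)) (Q : Fin j → TT (k + 1)) (z : Fin j → Z2) (u : Fin (mm k) → Pos k)
    (w : Fin (mm k) → Z2), (∀ n, InBox (k + 1) (z n)) ∧ (∀ s, Small (len (k + 1)) (w s)) ∧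
    Fresh u (fun s => dg k (z i + w s)) ∧
    (∀ s, ¬ (u s = dg k (z i + w s) ∧ raw k (u s) P = raw k (dg k (z i + w s)) (Q i))) ∧
    ∀ s, Match (a i) k (val (a i) k (u s) P)
      (lab a i j k ψ Q z (w s) (val (a i) k (dg k (z i + w s)) (Q i)))

def BadB (a : AA) (k : ℕ) : Prop :=
  ∃ (P Q : TT (k + 1)) (u u' : Fin (mm k) → Pos k), Fresh u u' ∧
    (∀ s, ¬ (u s = u' s ∧ raw k (u s) P = raw k (u' s) Q)) ∧
    ∀ s, val a k (u s) P = val a k (u' s) Q

def NoBad (x : XP) : Prop :=
  (∀ (j : ℕ) (i : Fin j) (ψ : SS j → TT 0), ∀ᶠ k in atTop, ¬ BadA (fun n => (x n).1) j i ψ k) ∧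
  ∀ i, ∀ᶠ k in atTop, ¬ BadB (x i).1 k

theorem bad_frac_bound {X G : Type} [MeasurableSpace X] (μ : Measure X) [IsProbabilityMeasure μ]
    [Fintype G] [Nonempty G] (T : G → X → X) (hT : ∀ g, MeasurePreserving (T g) μ μ)
    (B : Set X) (hB : MeasurableSet B) (C : ℕ) (hC : 0 < C)
    (h : ∀ x, ∃ F : Finset G, (∀ g, T g x ∈ B → g ∈ F) ∧ F.card * C ≤ Nat.card G) :
    μ B ≤ (C : ℝ≥0∞)⁻¹ := by
  classical
  have hN : (Nat.card G : ℝ≥0∞) ≠ 0 := by
    have : 0 < Nat.card G := Nat.card_pos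
    exact_mod_cast this.ne'
  have hC' : (C : ℝ≥0∞) ≠ 0 := by exact_mod_cast hC.ne'
  have h1 : (Nat.card G : ℝ≥0∞) * μ B = ∑ g : G, μ (T g ⁻¹' B) := by
    rw [Finset.sum_congr rfl fun g _ => (hT g).measure_preimage hB.nullMeasurableSet]
    simp [Nat.card_eq_fintype_card]
  have h2 : ∑ g : G, μ (T g ⁻¹' B) =
      ∫⁻ x, ∑ g : G, (T g ⁻¹' B).indicator (1 : X → ℝ≥0∞) x ∂μ := by
    rw [lintegral_finsetSum _ fun g _ =>
      measurable_one.indicator ((hT g).measurable hB)]
    exact Finset.sum_congr rfl fun g _ => (lintegral_indicator_one ((hT g).measurable hB)).symm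
  have h3 : ∀ x, ∑ g : G, (T g ⁻¹' B).indicator (1 : X → ℝ≥0∞) x ≤
      (Nat.card G : ℝ≥0∞) * (C : ℝ≥0∞)⁻¹ := by
    intro x
    obtain ⟨F, hF, hF'⟩ := h x
    have a1 : ∑ g : G, (T g ⁻¹' B).indicator (1 : X → ℝ≥0∞) x ≤ (F.card : ℝ≥0∞) := by
      calc ∑ g : G, (T g ⁻¹' B).indicator (1 : X → ℝ≥0∞) x
          ≤ ∑ g : G, (if g ∈ F then (1 : ℝ≥0∞) else 0) := by
            refine Finset.sum_le_sum fun g _ => ?_
            by_cases hg : T g x ∈ B
            · rw [if_pos (hF g hg)]
              exact le_of_eq (Set.indicator_of_mem (s := T g ⁻¹' B) hg _)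
            · rw [Set.indicator_of_notMem (s := T g ⁻¹' B) hg]
              exact zero_le
        _ = (F.card : ℝ≥0∞) := by simp
    refine a1.trans ?_
    rw [← div_eq_mul_inv, ENNReal.le_div_iff_mul_le (Or.inl hC') (Or.inl (by simp))]
    exact_mod_cast hF'
  have h4 : (Nat.card G : ℝ≥0∞) * μ B ≤ (Nat.card G : ℝ≥0∞) * (C : ℝ≥0∞)⁻¹ := by
    rw [h1, h2]
    refine (lintegral_mono h3).trans ?_
    simp
  exact (ENNReal.mul_le_mul_iff_right hN (by simp)).1 h4

theorem bad_mp_pi {ι : Type} {X : ι → Type} [∀ i, MeasurableSpace (X i)]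
    (μ : (i : ι) → Measure (X i)) [∀ i, IsProbabilityMeasure (μ i)] (f : (i : ι) → X i → X i)
    (hf : ∀ i, MeasurePreserving (f i) (μ i) (μ i)) :
    MeasurePreserving (fun (x : (i : ι) → X i) i => f i (x i)) (Measure.infinitePi μ)
      (Measure.infinitePi μ) := by
  refine ⟨measurable_pi_lambda _ fun i => (hf i).measurable.comp (measurable_pi_apply i), ?_⟩
  rw [Measure.infinitePi_map_pi μ fun i => (hf i).measurable]
  simp only [fun i => (hf i).map_eq]

theorem bad_mp_update {ι : Type} [DecidableEq ι] {X : ι → Type} [∀ i, MeasurableSpace (X i)]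
    (μ : (i : ι) → Measure (X i)) [∀ i, IsProbabilityMeasure (μ i)] (i : ι) (f : X i → X i)
    (hf : MeasurePreserving f (μ i) (μ i)) :
    MeasurePreserving (fun x : (i : ι) → X i => Function.update x i (f (x i)))
      (Measure.infinitePi μ) (Measure.infinitePi μ) := by
  have h := bad_mp_pi μ (Function.update (fun j => (id : X j → X j)) i f) fun j => by
    by_cases hj : j = i
    · subst hj
      rw [Function.update_self]
      exact hf
    · rw [Function.update_of_ne hj]
      exact MeasurePreserving.id _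
  have e : (fun (x : (i : ι) → X i) j =>
      Function.update (fun j => (id : X j → X j)) i f j (x j)) =
      fun x : (i : ι) → X i => Function.update x i (f (x i)) := by
    funext x j
    by_cases hj : j = i
    · subst hj
      simp
    · simp [Function.update_of_ne hj]
  rw [e] at h
  exact h

theorem bad_mp_U {α : Type} [MeasurableSpace α] [DiscreteMeasurableSpace α] [Finite α]
    (e : α ≃ α) : MeasurePreserving e (U α) (U α) := by
  refine ⟨Measurable.of_discrete, ?_⟩
  ext s hs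
  rw [Measure.map_apply Measurable.of_discrete hs]
  unfold U
  have := Fintype.ofFinite α
  rw [uniformOn_univ, uniformOn_univ]
  congr 1
  rw [Measure.count_apply MeasurableSet.of_discrete, Measure.count_apply hs]
  congr 1
  exact Set.encard_preimage_of_bijective e.bijective s

/-- translate one random relabelling -/
noncomputable def badT (i k : ℕ) (h : HH k) (x : XP) : XP :=
  Function.update x i (Function.update (x i).1 k (h * (x i).1 k), (x i).2)

theorem badT_mp (i k : ℕ) (h : HH k) : MeasurePreserving (badT i k h) xpM xpM := by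
  have h1 : MeasurePreserving (fun a : AA => Function.update a k (h * a k)) lamA lamA :=
    bad_mp_update (fun k => U (HH k)) k (fun r => h * r) (bad_mp_U (Equiv.mulLeft h))
  have h2 := h1.prod (MeasurePreserving.id haarO)
  exact bad_mp_update (fun _ : ℕ => lamA.prod haarO) i _ h2

theorem bad_measurable (p : (ℕ → AA) → Prop) (J K : ℕ)
    (hp : ∀ a a' : ℕ → AA, (∀ n, n < J → ∀ l, l < K → a n l = a' n l) → p a → p a') :
    MeasurableSet {x : XP | p fun n => (x n).1} := by
  let r : XP → (Fin J → (l : Fin K) → HH l) := fun x n l => (x n).1 l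
  have hr : Measurable r :=
    measurable_pi_lambda _ fun n => measurable_pi_lambda _ fun l =>
      (measurable_pi_apply (l : ℕ)).comp (measurable_pi_apply (n : ℕ)).fst
  have e : {x : XP | p fun n => (x n).1} = r ⁻¹' (r '' {x : XP | p fun n => (x n).1}) := by
    ext x
    refine ⟨fun hx => ⟨x, hx, rfl⟩, ?_⟩
    rintro ⟨y, hy, hxy⟩
    exact hp _ _ (fun n hn l hl => congrFun (congrFun hxy ⟨n, hn⟩) ⟨l, hl⟩) hy
  rw [e]
  exact hr (Set.toFinite _).measurableSet

theorem bad_measure_le (p : (ℕ → AA) → Prop) (J K i k : ℕ)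
    (hp : ∀ a a' : ℕ → AA, (∀ n, n < J → ∀ l, l < K → a n l = a' n l) → p a → p a')
    (hc : ∀ a : ℕ → AA, ∃ F : Finset (HH k),
      (∀ ρ, p (Function.update a i (Function.update (a i) k ρ)) → ρ ∈ F) ∧
        F.card * 2 ^ k ≤ Nat.card (HH k)) :
    xpM {x : XP | p fun n => (x n).1} ≤ (2⁻¹ : ℝ≥0∞) ^ k := by
  classical
  have h := bad_frac_bound xpM (badT i k) (badT_mp i k) _ (bad_measurable p J K hp) (2 ^ k)
    (by positivity) fun x => by
      obtain ⟨F, hF, hF'⟩ := hc fun n => (x n).1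
      refine ⟨F.map (Equiv.mulRight ((x i).1 k)⁻¹).toEmbedding, fun g hg => ?_, by
        rw [Finset.card_map]; exact hF'⟩
      have e : (fun n => (badT i k g x n).1) = Function.update (fun n => (x n).1) i
          (Function.update (x i).1 k (g * (x i).1 k)) := by
        funext n
        by_cases hn : n = i
        · subst hn
          simp [badT]
        · simp [badT, Function.update_of_ne hn]
      have hg' : p fun n => (badT i k g x n).1 := hg
      rw [e] at hg'
      exact Finset.mem_map.2 ⟨_, hF _ hg', by simp⟩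
  refine h.trans (le_of_eq ?_)
  rw [← ENNReal.inv_pow]
  simp

theorem bad_union_count {H D : Type} (Ds : Finset D) (p : H → Prop) (q : D → H → Prop)
    (A B C N : ℕ) (hA : 0 < A) (hp : ∀ ρ, p ρ → ∃ d ∈ Ds, q d ρ)
    (hq : ∀ d ∈ Ds, ∃ F : Finset H, (∀ ρ, q d ρ → ρ ∈ F) ∧ F.card * A ≤ B * N)
    (hD : Ds.card * B * C ≤ A) : ∃ F : Finset H, (∀ ρ, p ρ → ρ ∈ F) ∧ F.card * C ≤ N := by
  classical
  choose! F hF hF' using hq
  refine ⟨Ds.biUnion F, fun ρ hρ => ?_, ?_⟩
  · obtain ⟨d, hd, hd'⟩ := hp ρ hρ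
    exact Finset.mem_biUnion.2 ⟨d, hd, hF d hd ρ hd'⟩
  · have h1 : (Ds.biUnion F).card * A ≤ Ds.card * (B * N) := by
      calc (Ds.biUnion F).card * A ≤ (∑ d ∈ Ds, (F d).card) * A :=
            Nat.mul_le_mul_right _ Finset.card_biUnion_le
        _ = ∑ d ∈ Ds, (F d).card * A := Finset.sum_mul _ _ _
        _ ≤ Ds.card • (B * N) := Finset.sum_le_card_nsmul _ _ _ hF'
        _ = Ds.card * (B * N) := smul_eq_mul _ _
    have h2 : (Ds.biUnion F).card * C * A ≤ N * A := by
      calc (Ds.biUnion F).card * C * A = (Ds.biUnion F).card * A * C := by ring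
        _ ≤ Ds.card * (B * N) * C := Nat.mul_le_mul_right _ h1
        _ = N * (Ds.card * B * C) := by ring
        _ ≤ N * A := Nat.mul_le_mul_left _ hD
    exact Nat.le_of_mul_le_mul_right h2 hA

theorem bad_od (k L m : ℕ) (u u' : Fin m → Pos k) (x x' : Fin m → TT k)
    (Λ : Fin m → TT k → Finset (TT k)) (hΛ : ∀ s β, (Λ s β).card ≤ L) (hfresh : Fresh u u')
    (hoff : ∀ s, ¬ (u s = u' s ∧ x s = x' s)) :
    ∃ F : Finset (HH k), (∀ ρ : HH k, (∀ s, ρ (u s) (x s) ∈ Λ s (ρ (u' s) (x' s))) → ρ ∈ F) ∧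
      F.card * (MM k - 1) ^ m ≤ L ^ m * Nat.card (HH k) := by
  have h := od_count L m u u' x x' Λ hΛ hfresh hoff
  rw [Fintype.card_fin, ← Nat.card_eq_fintype_card] at h
  exact ⟨_, fun ρ hρ => Finset.mem_filter.2 ⟨Finset.mem_univ _, hρ⟩, h⟩

theorem bad_pred_pos (k m : ℕ) : 0 < (MM k - 1) ^ m := by
  have := two_le_MM k
  exact pow_pos (by omega) m

theorem lab_congr {a a' : ℕ → AA} {j k : ℕ} (i : Fin j) (ψ : SS j → TT 0)
    (Q : Fin j → TT (k + 1)) (z : Fin j → Z2) (w : Z2) (β : TT k)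
    (h1 : ∀ l, l < k → a i l = a' i l)
    (h2 : ∀ n : Fin j, (n : ℕ) ≠ i → ∀ l, l < k + 1 → a n l = a' n l) :
    lab a i j k ψ Q z w β = lab a' i j k ψ Q z w β := by
  funext t
  unfold lab
  congr 1
  funext n
  by_cases hn : (n : ℕ) = i
  · rw [if_pos hn, if_pos hn, stack_congr h1]
  · rw [if_neg hn, if_neg hn, stack_congr (h2 n hn)]

theorem BadA.congr {a a' : ℕ → AA} {j : ℕ} {i : Fin j} {ψ : SS j → TT 0} {k : ℕ}
    (h : ∀ n, n < j → ∀ l, l < k + 1 → a n l = a' n l) (hb : BadA a j i ψ k) :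
    BadA a' j i ψ k := by
  obtain ⟨P, Q, z, u, w, h1, h2, h3, h4, h5⟩ := hb
  refine ⟨P, Q, z, u, w, h1, h2, h3, h4, fun s => ?_⟩
  have e1 : ∀ l, l < k → a i l = a' i l := fun l hl => h i i.2 l (by omega)
  have e2 : a i k = a' i k := h i i.2 k (by omega)
  have h6 := h5 s
  rw [Match.congr_a e1, lab_congr i ψ Q z (w s) _ e1 fun n _ => h n n.2] at h6
  unfold val at h6 ⊢
  rw [← e2]
  exact h6

theorem badA_count (a : ℕ → AA) (j : ℕ) (i : Fin j) (ψ : SS j → TT 0) (k : ℕ) (hjk : j ≤ k) :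
    ∃ F : Finset (HH k),
      (∀ ρ, BadA (Function.update a i (Function.update (a i) k ρ)) j i ψ k → ρ ∈ F) ∧
        F.card * 2 ^ k ≤ Nat.card (HH k) := by
  classical
  let D := TT (k + 1) × (Fin j → TT (k + 1)) × (Fin j → Z2) × (Fin (mm k) → Pos k) ×
    (Fin (mm k) → Z2)
  let Zs : Finset Z2 := Finset.Ico (0 : ℤ) (bb (k + 1)) ×ˢ Finset.Ico (0 : ℤ) (bb (k + 1))
  let Ws : Finset Z2 := Finset.Icc (-(len (k + 1) : ℤ)) (len (k + 1)) ×ˢ
    Finset.Icc (-(len (k + 1) : ℤ)) (len (k + 1))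
  let D0 : Finset D := Finset.univ ×ˢ Finset.univ ×ˢ (Fintype.piFinset fun _ => Zs) ×ˢ
    Finset.univ ×ˢ (Fintype.piFinset fun _ => Ws)
  let u' : D → Fin (mm k) → Pos k := fun d s => dg k (d.2.2.1 i + d.2.2.2.2 s)
  let ok : D → Prop := fun d => Fresh d.2.2.2.1 (u' d) ∧
    ∀ s, ¬ (d.2.2.2.1 s = u' d s ∧ raw k (d.2.2.2.1 s) d.1 = raw k (u' d s) (d.2.1 i))
  let Λ : D → Fin (mm k) → TT k → Finset (TT k) := fun d s β => Finset.univ.filter fun α =>
    Match (a i) k α (lab a i j k ψ d.2.1 d.2.2.1 (d.2.2.2.2 s) β)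
  refine bad_union_count (D0.filter ok) _ (fun d (ρ : HH k) => ∀ s,
    ρ (d.2.2.2.1 s) (raw k (d.2.2.2.1 s) d.1) ∈ Λ d s (ρ (u' d s) (raw k (u' d s) (d.2.1 i))))
    ((MM k - 1) ^ mm k) (LL k ^ mm k) _ _ (bad_pred_pos k _) ?_ ?_ ?_
  · rintro ρ ⟨P, Q, z, u, w, h1, h2, h3, h4, h5⟩
    refine ⟨(P, Q, z, u, w), Finset.mem_filter.2 ⟨?_, h3, h4⟩, fun s => ?_⟩
    · refine Finset.mem_product.2 ⟨Finset.mem_univ _, Finset.mem_product.2 ⟨Finset.mem_univ _,
        Finset.mem_product.2 ⟨Fintype.mem_piFinset.2 fun n => ?_, Finset.mem_product.2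
          ⟨Finset.mem_univ _, Fintype.mem_piFinset.2 fun s => ?_⟩⟩⟩⟩
      · obtain ⟨b1, b2, b3, b4⟩ := h1 n
        exact Finset.mem_product.2 ⟨Finset.mem_Ico.2 ⟨b1, b2⟩, Finset.mem_Ico.2 ⟨b3, b4⟩⟩
      · obtain ⟨b1, b2⟩ := h2 s
        exact Finset.mem_product.2 ⟨Finset.mem_Icc.2 (abs_le.1 b1), Finset.mem_Icc.2 (abs_le.1 b2)⟩
    · have h6 := h5 s
      have e1 : ∀ l, l < k →
          Function.update a i (Function.update (a i) k ρ) i l = a i l := fun l hl => by
        rw [Function.update_self, Function.update_of_ne hl.ne]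
      have e2 : Function.update a i (Function.update (a i) k ρ) i k = ρ := by
        rw [Function.update_self, Function.update_self]
      rw [Match.congr_a e1, lab_congr (a' := a) i ψ Q z (w s) _ e1
        fun n hn l _ => by rw [Function.update_of_ne hn]] at h6
      unfold val at h6
      rw [e2] at h6
      exact Finset.mem_filter.2 ⟨Finset.mem_univ _, h6⟩
  · intro d hd
    have hok := (Finset.mem_filter.1 hd).2
    exact bad_od k (LL k) (mm k) _ _ _ _ (Λ d) (fun s β => list_bound _ _ _) hok.1 hok.2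
  · refine le_trans ?_ (union_bound j k hjk)
    refine Nat.mul_le_mul_right _ (Nat.mul_le_mul_right _
      ((Finset.card_filter_le _ _).trans (le_of_eq ?_)))
    have hZ : Zs.card = bb (k + 1) ^ 2 := by
      rw [Finset.card_product, Int.card_Ico, sub_zero, Int.toNat_natCast, sq]
    have hW : Ws.card = (2 * len (k + 1) + 1) ^ 2 := by
      have : ((len (k + 1) : ℤ) + 1 - -(len (k + 1) : ℤ)).toNat = 2 * len (k + 1) + 1 := by omega
      rw [Finset.card_product, Int.card_Icc, this, sq]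
    rw [Finset.card_product, Finset.card_product, Finset.card_product, Finset.card_product,
      Fintype.card_piFinset, Fintype.card_piFinset, Finset.prod_const, Finset.prod_const, hZ, hW]
    simp only [Finset.card_univ, Fintype.card_fun, Fintype.card_fin, Fintype.card_prod]
    rw [mul_pow (qq k ^ 2), ← sq, ← pow_mul, pow_add, pow_one]
    ac_rfl

theorem badB_count (a : ℕ → AA) (i k : ℕ) :
    ∃ F : Finset (HH k),
      (∀ ρ, BadB (Function.update a i (Function.update (a i) k ρ) i) k → ρ ∈ F) ∧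
        F.card * 2 ^ k ≤ Nat.card (HH k) := by
  classical
  let D := TT (k + 1) × TT (k + 1) × (Fin (mm k) → Pos k) × (Fin (mm k) → Pos k)
  let ok : D → Prop := fun d => Fresh d.2.2.1 d.2.2.2 ∧
    ∀ s, ¬ (d.2.2.1 s = d.2.2.2 s ∧ raw k (d.2.2.1 s) d.1 = raw k (d.2.2.2 s) d.2.1)
  refine bad_union_count (Finset.univ.filter ok) _ (fun d (ρ : HH k) => ∀ s,
    ρ (d.2.2.1 s) (raw k (d.2.2.1 s) d.1) ∈
      ({ρ (d.2.2.2 s) (raw k (d.2.2.2 s) d.2.1)} : Finset (TT k)))
    ((MM k - 1) ^ mm k) (1 ^ mm k) _ _ (bad_pred_pos k _) ?_ ?_ ?_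
  · rintro ρ ⟨P, Q, u, u', h1, h2, h3⟩
    refine ⟨(P, Q, u, u'), Finset.mem_filter.2 ⟨Finset.mem_univ _, h1, h2⟩, fun s => ?_⟩
    have h6 := h3 s
    unfold val at h6
    rw [Function.update_self, Function.update_self] at h6
    exact Finset.mem_singleton.2 h6
  · intro d hd
    have hok := (Finset.mem_filter.1 hd).2
    exact bad_od k 1 (mm k) _ _ _ _ (fun _ β => {β}) (fun s β => (Finset.card_singleton β).le)
      hok.1 hok.2
  · refine le_trans ?_ (union_bound' k)
    rw [one_pow, mul_one]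
    refine Nat.mul_le_mul_right _ ((Finset.card_filter_le _ _).trans (le_of_eq ?_))
    simp only [D, Finset.card_univ, Fintype.card_fun, Fintype.card_fin, Fintype.card_prod]
    rw [mul_pow (qq k ^ 2), ← sq (qq k), sq (MM (k + 1))]
    ac_rfl

theorem bad_bc (s : ℕ → Set XP) (h : ∀ k, xpM (s k) ≤ (2⁻¹ : ℝ≥0∞) ^ k) :
    ∀ᵐ x ∂xpM, ∀ᶠ k in atTop, x ∉ s k := by
  refine ae_eventually_notMem (ne_top_of_le_ne_top ?_ (ENNReal.tsum_le_tsum h))
  rw [ENNReal.tsum_geometric]
  simp

theorem ae_noBad : ∀ᵐ x ∂xpM, NoBad x := by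
  refine Filter.Eventually.and (ae_all_iff.2 fun j => ae_all_iff.2 fun i => ae_all_iff.2 fun ψ => ?_)
    (ae_all_iff.2 fun i => ?_)
  · have h := bad_bc (fun k => {x : XP | j ≤ k ∧ BadA (fun n => (x n).1) j i ψ k}) fun k => by
      refine bad_measure_le (fun a => j ≤ k ∧ BadA a j i ψ k) j (k + 1) i k
        (fun a a' h hb => ⟨hb.1, hb.2.congr h⟩) fun a => ?_
      by_cases hjk : j ≤ k
      · obtain ⟨F, hF, hF'⟩ := badA_count a j i ψ k hjk
        exact ⟨F, fun ρ hρ => hF ρ hρ.2, hF'⟩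
      · exact ⟨∅, fun ρ hρ => absurd hρ.1 hjk, by simp⟩
    filter_upwards [h] with x hx
    filter_upwards [hx, eventually_ge_atTop j] with k hk hjk hb
    exact hk ⟨hjk, hb⟩
  · exact bad_bc (fun k => {x : XP | BadB (x i).1 k}) fun k =>
      bad_measure_le (fun a => BadB (a i) k) (i + 1) (k + 1) i k
        (fun a a' h hb => by
          obtain ⟨P, Q, u, u', h1, h2, h3⟩ := hb
          refine ⟨P, Q, u, u', h1, h2, fun s => ?_⟩
          have h4 := h3 s
          unfold val at h4 ⊢
          rw [← h i (by omega) k (by omega)]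
          exact h4) fun a => badB_count a i k

end Pool.Agent.MP_12f186_an

end

-- part MP_12f186_an.RigidA
section

/-! Deterministic part of the rigidity argument. -/

set_option autoImplicit false
open Set Function

namespace Pool.Agent.MP_12f186_an

theorem dichotomy {I : Type} (k : ℕ) (R : Finset I) (u u' : I → Pos k) (P Q : TT (k + 1))
    (h : nn k ≤ (R.image u).card) :
    (∃ s : Fin (mm k) → I, (∀ l, s l ∈ R) ∧ Fresh (fun l => u (s l)) (fun l => u' (s l)) ∧
      ∀ l, ¬ (u (s l) = u' (s l) ∧ raw k (u (s l)) P = raw k (u' (s l)) Q)) ∨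
    (P = Q ∧ ∃ s ∈ R, u s = u' s) := by
  classical
  set D : I → Prop := fun s => u s = u' s ∧ raw k (u s) P = raw k (u' s) Q with hD
  by_cases h1 : 2 * mm k ≤ ((R.filter fun s => ¬ D s).image u).card
  · obtain ⟨s, hs, hs'⟩ := greedy (mm k) _ u u' h1
    exact Or.inl ⟨s, fun l => (Finset.mem_filter.1 (hs l)).1, hs',
      fun l => (Finset.mem_filter.1 (hs l)).2⟩
  · right
    have h2 : (R.image u).card ≤ ((R.filter D).image u).card +
        ((R.filter fun s => ¬ D s).image u).card := by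
      refine le_trans (Finset.card_le_card ?_) (Finset.card_union_le _ _)
      rw [← Finset.image_union, Finset.filter_union_filter_not_eq]
    have h3 := nn_eq k
    have h4 : 10 ≤ ((R.filter D).image u).card := by omega
    refine ⟨(code k).det P Q _ h4 fun v hv => ?_, ?_⟩
    · obtain ⟨s, hs, rfl⟩ := Finset.mem_image.1 hv
      have := (Finset.mem_filter.1 hs).2
      have h5 := this.2
      rw [← this.1] at h5
      exact h5
    · obtain ⟨v, hv⟩ := Finset.card_pos.1 (lt_of_lt_of_le (by norm_num) h4)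
      obtain ⟨s, hs, -⟩ := Finset.mem_image.1 hv
      exact ⟨s, (Finset.mem_filter.1 hs).1, (Finset.mem_filter.1 hs).2.1⟩

theorem Small.mono {D D' : ℤ} {v : Z2} (h : Small D v) (hD : D ≤ D') : Small D' v :=
  ⟨h.1.trans hD, h.2.trans hD⟩

theorem Small.add {D D' : ℤ} {v w : Z2} (h : Small D v) (h' : Small D' w) :
    Small (D + D') (v + w) :=
  ⟨(abs_add_le _ _).trans (add_le_add h.1 h'.1), (abs_add_le _ _).trans (add_le_add h.2 h'.2)⟩

theorem Small.neg {D : ℤ} {v : Z2} (h : Small D v) : Small D (-v) := by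
  simpa [Small] using h

theorem Walk.small_zero {p : ℕ → Z2} (h : Walk p) (h0 : p 0 = 0) (t : ℕ) : Small t (p t) := by
  simpa [h0] using h.small 0 t

theorem len_le_succ (k : ℕ) : len k ≤ len (k + 1) := by
  rw [len_succ]; exact Nat.le_mul_of_pos_left _ (rr_pos k)

theorem Deep.walk {k : ℕ} {z : Z2} (hd : Deep k z) {p : ℕ → Z2} (h : Walk p) (h0 : p 0 = 0)
    {t : ℕ} (ht : t < len k) : InBox k (z + p t) :=
  hd _ ((h.small_zero h0 t).mono (by omega))

open Classical in
/-- many coincidences along a pair of walks force the types to agree -/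
theorem types_eq {a : ℕ → AA} {ω ω' : Om} (hω : GoodOm ω) (hω' : GoodOm ω')
    (ha : ∀ n, (ω n).1.1 = a n) (ha' : ∀ n, (ω' n).1.1 = a n) {j k : ℕ} (hjk : j ≤ k) (i : Fin j)
    (ψ : SS j → TT 0) (hA : ¬ BadA a j i ψ k) {p p' : ℕ → Z2} (hp : Walk p) (hp' : Walk p')
    (hi : Injective p) (h0 : p 0 = 0) (h0' : p' 0 = 0)
    (hd : Deep (k + 1) (ps (ω i) (k + 1))) (hd' : ∀ n : Fin j, Deep (k + 1) (ps (ω' n) (k + 1)))
    (hc : cc (k + 1) < ((Finset.range (len (k + 1))).filter fun t =>
      ty (sXi (p t) (ω i)) 0 = ψ (st j (sOm (p' t) ω')) ∧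
      (∀ l, Deep l (ps (sXi (p t) (ω i)) l)) ∧ Deep k (ps (sXi (p' t) (ω' i)) k)).card) :
    ty (ω i) (k + 1) = ty (ω' i) (k + 1) := by
  set z₀ := ps (ω i) (k + 1) with hz₀
  set z : Fin j → Z2 := fun n => ps (ω' n) (k + 1) with hz
  set Q : Fin j → TT (k + 1) := fun n => ty (ω' n) (k + 1) with hQ
  set P := ty (ω i) (k + 1) with hP
  have hb : ∀ t, t < len (k + 1) → InBox (k + 1) (z₀ + p t) := fun t ht => hd.walk hp h0 ht
  have hw : Walk fun t => z₀ + p t := fun t => by simpa using hp t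
  obtain ⟨R, hR, hR'⟩ := rich (a := a i) (P := P) (ω := fun w => ψ (st j (sOm w ω'))) hw hp'
    (fun s t h => hi (add_left_cancel h)) hb
    (fun t => t < len (k + 1) ∧ ty (sXi (p t) (ω i)) 0 = ψ (st j (sOm (p' t) ω')) ∧
      (∀ l, Deep l (ps (sXi (p t) (ω i)) l)) ∧ Deep k (ps (sXi (p' t) (ω' i)) k))
    (by
      rintro t ⟨h1, h2, h3, -⟩
      refine ⟨?_, fun l hl => ?_⟩
      · rw [ty_sXi_le (hω i) (Nat.zero_le (k + 1)) (hb t h1), ha] at h2
        exact h2
      · rw [← ps_sXi_le _ _ hl.le]; exact h3 l)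
    (by
      refine hc.trans_le (Finset.card_le_card fun t ht => ?_)
      simp only [Finset.mem_filter, Finset.mem_range] at ht ⊢
      exact ⟨ht.1, ht.1, ht.2⟩)
  rcases dichotomy k R (fun s => dg k (z₀ + p (s * len k))) (fun s => dg k (z i + p' (s * len k)))
    P (Q i) hR with ⟨s, hs, hf, ho⟩ | h
  · exfalso
    apply hA
    have hl := len_pos k
    have hsm : ∀ l, Small ((len (k + 1) : ℤ) - len k) (p' (s l * len k)) := fun l => by
      refine (hp'.small_zero h0' _).mono ?_
      have := (hR' _ (hs l)).1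
      have h2 : ((s l + 1) * len k : ℕ) = s l * len k + len k := by ring
      omega
    refine ⟨P, Q, z, fun l => dg k (z₀ + p (s l * len k)), fun l => p' (s l * len k),
      fun n => ps_inBox _ _, fun l => (hsm l).mono (by omega), hf, ho, fun l => ?_⟩
    obtain ⟨h1, ⟨t, ht, -, -, -, h4⟩, h5⟩ := hR' _ (hs l)
    refine h5.congr fun w hw => ?_
    have hbox : ∀ n : Fin j, InBox (k + 1) (z n + (p' (s l * len k) + w)) := fun n =>
      hd' n _ (((hsm l).add hw).mono (by have := len_pos (k + 1); omega))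
    have hT : Small ((len k : ℤ) - 1) (p' (s l * len k) - p' (s l * len k + t)) := by
      have := (hp'.small (s l * len k) t).neg
      rw [neg_sub] at this
      exact this.mono (by omega)
    rw [ps_sXi_le _ _ (Nat.le_succ k)] at h4
    have e1 : dg k (z i + p' (s l * len k)) = dg k (z i + p' (s l * len k + t)) := by
      have := dg_add_of_inBox (h4 _ (hT.mono (by omega)))
      rw [← this]; congr 1; abel
    have e2 : dg k (z i + p' (s l * len k) + w) = dg k (z i + p' (s l * len k + t)) := by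
      have := dg_add_of_inBox (h4 _ ((hT.add hw).mono (by omega)))
      rw [← this]; congr 1; abel
    unfold lab
    congr 1
    funext n
    simp only [st, sOm]
    rw [ps_sXi_le _ _ (hjk.trans (Nat.le_succ k)), fb_md le_rfl,
      ty_sXi_le (hω' n) (hjk.trans (Nat.le_succ k)) (hbox n), ha', add_assoc]
    congr 1
    split_ifs with hn
    · obtain rfl : n = i := Fin.ext hn
      rw [stack_succ _ hjk, e1, ← e2, add_assoc]
    · rfl
  · exact h.1

/-- the types agree at level `k` but not in the next level or not at the same index -/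
def Off (k : ℕ) (ξ ξ' : Xi) : Prop :=
  ty ξ k = ty ξ' k ∧
    ¬ (dg k (ps ξ (k + 1)) = dg k (ps ξ' (k + 1)) ∧ ty ξ (k + 1) = ty ξ' (k + 1))

open Classical in
theorem off_count {ξ ξ' : Xi} (h : GoodO ξ.1.2) (h' : GoodO ξ'.1.2) (ha : ξ'.1.1 = ξ.1.1) {k : ℕ}
    (hB : ¬ BadB ξ.1.1 k) {p p' : ℕ → Z2} (hp : Walk p) (hp' : Walk p')
    (hi : Injective p) (h0 : p 0 = 0) (h0' : p' 0 = 0)
    (hd : Deep (k + 1) (ps ξ (k + 1))) (hd' : Deep (k + 1) (ps ξ' (k + 1))) :
    ((Finset.range (len (k + 1))).filter fun t =>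
      Off k (sXi (p t) ξ) (sXi (p' t) ξ')).card ≤ nn k * bb k ^ 2 := by
  set R := (Finset.range (len (k + 1))).filter fun t => Off k (sXi (p t) ξ) (sXi (p' t) ξ')
    with hR
  have hb : ∀ t ∈ R, InBox (k + 1) (ps ξ (k + 1) + p t) := fun t ht =>
    hd.walk hp h0 (Finset.mem_range.1 (Finset.mem_filter.1 ht).1)
  have hb' : ∀ t ∈ R, InBox (k + 1) (ps ξ' (k + 1) + p' t) := fun t ht =>
    hd'.walk hp' h0' (Finset.mem_range.1 (Finset.mem_filter.1 ht).1)
  set u : ℕ → Pos k := fun t => dg k (ps ξ (k + 1) + p t) with hu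
  set u' : ℕ → Pos k := fun t => dg k (ps ξ' (k + 1) + p' t) with hu'
  have hoff : ∀ t ∈ R, val ξ.1.1 k (u t) (ty ξ (k + 1)) = val ξ.1.1 k (u' t) (ty ξ' (k + 1)) ∧
      ¬ (u t = u' t ∧ ty ξ (k + 1) = ty ξ' (k + 1)) := fun t ht => by
    have h1 := (Finset.mem_filter.1 ht).2
    unfold Off at h1
    rw [ty_eq_val (sXi (p t) ξ) k, ty_eq_val (sXi (p' t) ξ') k, ty_sXi h (hb t ht),
      ty_sXi h' (hb' t ht), ps_sXi_of_inBox (hb t ht), ps_sXi_of_inBox (hb' t ht)] at h1
    refine ⟨?_, h1.2⟩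
    have h2 := h1.1
    simp only [sXi, ha] at h2
    exact h2
  have h1 : (R.image u).card ≤ nn k := by
    by_contra hc
    rcases dichotomy k R u u' (ty ξ (k + 1)) (ty ξ' (k + 1)) (not_le.1 hc).le with
      ⟨s, hs, hf, ho⟩ | ⟨h2, s, hs, h3⟩
    · exact hB ⟨_, _, _, _, hf, ho, fun l => (hoff _ (hs l)).1⟩
    · exact (hoff s hs).2 ⟨h3, h2⟩
  have h2 : R.card ≤ ((R.image u) ×ˢ (Finset.univ : Finset (PB k))).card := by
    refine Finset.card_le_card_of_injOn (fun t => (u t, fb k (ps ξ (k + 1) + p t)))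
      (fun t ht => ?_) fun s hs t ht hst => ?_
    · simp only [Finset.coe_product, mem_prod, Finset.mem_coe, Finset.mem_univ, and_true]
      exact Finset.mem_image_of_mem u ht
    · simp only [Prod.mk.injEq] at hst
      apply hi
      apply add_left_cancel (a := ps ξ (k + 1))
      rw [← md_of_inBox (hb s hs), ← md_of_inBox (hb t ht), md_succ_eq, md_succ_eq,
        fb_eq_iff.1 hst.2]
      have := hst.1
      simp only [hu] at this
      rw [this]
  rw [Finset.card_product, Finset.card_univ, Fintype.card_prod, Fintype.card_fin, ← sq] at h2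
  exact h2.trans (Nat.mul_le_mul_right _ h1)

theorem lift_eq {ξ ξ' : Xi} (h : GoodO ξ.1.2) (ha : ξ'.1.1 = ξ.1.1) {K : ℕ}
    (hK : ty ξ K = ty ξ' K) (hoff : ∀ k, K ≤ k → ¬ Off k ξ ξ') :
    ξ' = sXi (ps ξ' K - ps ξ K) ξ := by
  have key : ∀ k, K ≤ k → ty ξ k = ty ξ' k ∧ ps ξ k + (ps ξ' K - ps ξ K) = ps ξ' k := by
    intro k hk
    induction k, hk using Nat.le_induction with
    | base => exact ⟨hK, by abel⟩
    | succ k hk ih =>
      have h1 := hoff k hk
      unfold Off at h1
      rw [not_and, not_not] at h1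
      obtain ⟨h2, h3⟩ := h1 ih.1
      refine ⟨h3, ?_⟩
      have e1 := md_succ_eq k (ps ξ (k + 1))
      have e2 := md_succ_eq k (ps ξ' (k + 1))
      rw [md_of_inBox (ps_inBox _ _), md_ps (Nat.le_succ k)] at e1 e2
      rw [e1, e2, h2, ← ih.2]
      ext <;> simp <;> ring
  have hb : ∀ k, K ≤ k → InBox k (ps ξ k + (ps ξ' K - ps ξ K)) := fun k hk => by
    rw [(key k hk).2]; exact ps_inBox _ _
  refine Xi.ext' ha K (fun k hk => ?_) fun k hk => ?_
  · rw [ps_sXi_of_inBox (hb k hk), (key k hk).2]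
  · rw [ty_sXi h (hb k hk), (key k hk).1]

end Pool.Agent.MP_12f186_an

end
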